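import Pool.Agent.D0H82.SR.C
import Pool.Agent.TH263.GF.A2

set_option autoImplicit false

/-! The second moment of the fixed block. -/

namespace Pool.Agent.D0H82.FB

open Complex Filter Topology MeasureTheory Set
open Pool.Agent.TH612.GS
open Pool.Agent.D0H82.SR (logpow)

noncomputable section

/-- the exponent of the moment of the fixed block -/
def er (r : ℕ) : ℝ := 1 + ((r - 2 : ℕ) : ℝ) / 3

lemma er_ge (r : ℕ) : 1 ≤ er r := by
  unfold er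
  have : (0:ℝ) ≤ ((r - 2 : ℕ) : ℝ) := Nat.cast_nonneg _
  linarith

lemma er_le {r : ℕ} (hr : r ≤ 4) : er r ≤ 2 := by
  unfold er
  have : ((r - 2 : ℕ) : ℝ) ≤ 2 := by exact_mod_cast (by omega : r - 2 ≤ 2)
  linarith

lemma prod_sq_le {r : ℕ} (hr : r ≤ 4) (x : Fin r → ℝ) {M : ℝ} (hM : 1 ≤ M) (h0 : ∀ j, 0 ≤ x j)
    (h : ∀ j, x j ≤ M) : (∏ j, x j) ^ 2 ≤ M ^ (2 * (r - 2)) * (1 + ∑ j, x j ^ 4) := by
  have two : ∀ a b : ℝ, (a * b) ^ 2 ≤ a ^ 4 + b ^ 4 := by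
    intro a b
    nlinarith [sq_nonneg (a ^ 2 - b ^ 2), sq_nonneg (a * b)]
  have sqM : ∀ a : ℝ, 0 ≤ a → a ≤ M → a ^ 2 ≤ M ^ 2 := fun a ha hb => pow_le_pow_left₀ ha hb 2
  interval_cases r
  · simp
  · simp only [Fin.prod_univ_succ, Fin.sum_univ_succ, Finset.univ_eq_empty, Finset.prod_empty,
      Finset.sum_empty]
    norm_num
    nlinarith [sq_nonneg (x 0 ^ 2 - 1), sq_nonneg (x 0)]
  · have h1 := two (x 0) (x 1)
    rw [Fin.prod_univ_two, Fin.sum_univ_two]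
    norm_num
    linarith
  · have h1 := two (x 0) (x 1)
    have h2 := sqM _ (h0 2) (h 2)
    rw [Fin.prod_univ_three, Fin.sum_univ_three, mul_pow]
    norm_num
    have h3 : 0 ≤ x 2 ^ 4 := by positivity
    have h4 : 0 ≤ x 2 ^ 2 := by positivity
    have h5 : 0 ≤ (x 0 * x 1) ^ 2 := by positivity
    calc (x 0 * x 1) ^ 2 * x 2 ^ 2 ≤ (x 0 ^ 4 + x 1 ^ 4) * M ^ 2 := by gcongr
      _ ≤ M ^ 2 * (1 + (x 0 ^ 4 + x 1 ^ 4 + x 2 ^ 4)) := by
          have : 0 ≤ M ^ 2 := by positivity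
          nlinarith
  · have h1 := two (x 0) (x 1)
    have h2 := sqM _ (h0 2) (h 2)
    have h3 := sqM _ (h0 3) (h 3)
    rw [Fin.prod_univ_four, Fin.sum_univ_four, mul_pow, mul_pow]
    norm_num
    have h4 : 0 ≤ x 2 ^ 4 := by positivity
    have h4' : 0 ≤ x 3 ^ 4 := by positivity
    have h5 : 0 ≤ x 2 ^ 2 := by positivity
    have h6 : 0 ≤ x 3 ^ 2 := by positivity
    calc (x 0 * x 1) ^ 2 * x 2 ^ 2 * x 3 ^ 2 ≤ (x 0 ^ 4 + x 1 ^ 4) * M ^ 2 * M ^ 2 := by gcongr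
      _ ≤ M ^ 4 * (1 + (x 0 ^ 4 + x 1 ^ 4 + x 2 ^ 4 + x 3 ^ 4)) := by
          have : 0 ≤ M ^ 4 := by positivity
          nlinarith

lemma z_weyl {δ : ℝ} (hδ : 0 < δ) : ∃ C : ℝ, 1 ≤ C ∧ ∀ u : ℝ,
    ‖z u‖ ≤ C * (1 + |u|) ^ (1 / 6 + δ) := by
  obtain ⟨C1, h1⟩ := Pool.Agent.TH809.MZ.growth_weyl δ hδ
  refine ⟨|C1| + 1, by linarith [abs_nonneg C1], fun u => ?_⟩
  have hz1 : z u = riemannZeta ⟨1 / 2, u⟩ := by
    unfold z
    congr 1
    apply Complex.ext <;> simp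
  rw [hz1]
  refine (h1 u).trans (mul_le_mul_of_nonneg_right ?_ (by positivity))
  linarith [le_abs_self C1]

lemma z_conj (u : ℝ) : ‖z (-u)‖ = ‖z u‖ := by
  have hz1 : ∀ u : ℝ, z u = riemannZeta ⟨1 / 2, u⟩ := by
    intro u
    unfold z
    congr 1
    apply Complex.ext <;> simp
  have h1 : z (-u) = (starRingEnd ℂ) (z u) := by
    rw [hz1, hz1, ← riemannZeta_conj]
    congr 1
  rw [h1, Complex.norm_conj]

/-- the fourth moment with a fixed shift -/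
lemma four_S (a : ℝ) {δ : ℝ} (hδ : 0 < δ) : ∃ C : ℝ, 0 < C ∧ ∀ S : ℝ, 1 ≤ S →
    ∫ t in (0:ℝ)..S, ‖z (t + a)‖ ^ 4 ≤ C * S ^ (1 + δ) := by
  obtain ⟨C1, hC1, h1⟩ := logpow 4 hδ
  set K : ℝ := 1001 + |a| with hK
  have hK1 : 1 ≤ K := by rw [hK]; linarith [abs_nonneg a]
  refine ⟨2 * (K * (C1 * K ^ δ)), by positivity, fun S hS => ?_⟩
  have hS0 : 0 < S := by linarith
  set R : ℝ := S + |a| + 1000 with hR
  have hR1 : 1000 ≤ R := by rw [hR]; linarith [abs_nonneg a]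
  have hRK : R ≤ K * S := by rw [hR, hK]; nlinarith [abs_nonneg a]
  have hc : Continuous fun t : ℝ => ‖z t‖ ^ 4 := z_cont.norm.pow 4
  have e1 : ∫ t in (0:ℝ)..S, ‖z (t + a)‖ ^ 4 = ∫ t in (0 + a)..(S + a), ‖z t‖ ^ 4 :=
    intervalIntegral.integral_comp_add_right (fun t => ‖z t‖ ^ 4) a
  have h2 : ∫ t in (0 + a)..(S + a), ‖z t‖ ^ 4 ≤ ∫ t in (-R)..R, ‖z t‖ ^ 4 := by
    refine intervalIntegral.integral_mono_interval ?_ (by linarith) ?_
      (Filter.Eventually.of_forall fun t => by positivity) (hc.intervalIntegrable _ _)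
    · rw [hR]; linarith [neg_abs_le a]
    · rw [hR]; linarith [le_abs_self a]
  have h3 : ∫ t in (-R)..R, ‖z t‖ ^ 4 = 2 * ∫ t in (0:ℝ)..R, ‖z t‖ ^ 4 := by
    rw [← intervalIntegral.integral_add_adjacent_intervals (hc.intervalIntegrable (-R) 0)
      (hc.intervalIntegrable 0 R)]
    have h4 : ∫ t in (-R)..0, ‖z t‖ ^ 4 = ∫ t in (0:ℝ)..R, ‖z t‖ ^ 4 := by
      have h5 := intervalIntegral.integral_comp_neg (a := 0) (b := R) (fun t => ‖z t‖ ^ 4)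
      simp only [neg_zero] at h5
      rw [← h5]
      refine intervalIntegral.integral_congr fun t _ => ?_
      show ‖z (-t)‖ ^ 4 = ‖z t‖ ^ 4
      rw [z_conj]
    rw [h4]
    ring
  have h6 := Pool.Agent.TH158.FM.fourth_all R hR1
  have h7 : ∫ t in (0:ℝ)..R, ‖z t‖ ^ 4 ≤ 4 / 5 * (R * Real.log R ^ 4) := by
    refine le_trans (le_of_eq ?_) h6
    refine intervalIntegral.integral_congr fun t _ => ?_
    show ‖z t‖ ^ 4 = ‖riemannZeta (((1 / 2 : ℝ) : ℂ) + (t : ℂ) * I)‖ ^ 4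
    unfold z
    congr 3
    push_cast
    ring
  have hR0 : 0 < R := by linarith
  have hlog : 0 ≤ Real.log R := Real.log_nonneg (by linarith)
  have h8 : Real.log R ^ 4 ≤ C1 * R ^ δ := by
    refine le_trans ?_ (h1 R (by linarith))
    exact pow_le_pow_left₀ hlog (by linarith) 4
  rw [e1]
  refine h2.trans ?_
  rw [h3]
  calc 2 * ∫ t in (0:ℝ)..R, ‖z t‖ ^ 4 ≤ 2 * (4 / 5 * (R * Real.log R ^ 4)) := by linarith
    _ ≤ 2 * (1 * (R * (C1 * R ^ δ))) := by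
        gcongr
        norm_num
    _ ≤ 2 * (1 * ((K * S) * (C1 * (K * S) ^ δ))) := by gcongr
    _ = 2 * (K * (C1 * K ^ δ)) * (S * S ^ δ) := by
        rw [Real.mul_rpow (by positivity) hS0.le]
        ring
    _ = _ := by
        rw [Real.rpow_add hS0, Real.rpow_one]

lemma AA_cont {k : ℕ} (α : Fin k → ℝ) : Continuous (AA α) := by
  unfold AA
  exact continuous_finsetProd _ fun j _ => z_cont.comp (continuous_id.add continuous_const)

/-- the second moment of the fixed block -/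
theorem FM {r : ℕ} (hr : r ≤ 4) (a : Fin r → ℝ) {ε : ℝ} (hε : 0 < ε) : ∃ C : ℝ, 0 < C ∧
    ∀ S : ℝ, 1 ≤ S → ∫ t in (0:ℝ)..S, ‖AA a t‖ ^ 2 ≤ C * S ^ (er r + ε) := by
  set δ : ℝ := min (ε / 5) (1 / 2) with hδ
  have hδ0 : 0 < δ := by rw [hδ]; positivity
  have hδ1 : δ ≤ ε / 5 := min_le_left _ _
  have hδ2 : δ ≤ 1 / 2 := min_le_right _ _
  obtain ⟨C1, hC1, h1⟩ := z_weyl hδ0
  choose D hD h2 using fun j : Fin r => four_S (a j) hδ0
  set A : ℝ := ∑ j, |a j| with hA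
  have hA0 : 0 ≤ A := Finset.sum_nonneg fun _ _ => abs_nonneg _
  have hAj : ∀ j, |a j| ≤ A := fun j =>
    Finset.single_le_sum (f := fun j => |a j|) (fun i _ => abs_nonneg (a i)) (Finset.mem_univ j)
  have hB1 : 1 ≤ C1 * (2 + A) := by nlinarith
  have hD0 : 0 ≤ ∑ j, D j := Finset.sum_nonneg fun j _ => (hD j).le
  refine ⟨(C1 * (2 + A)) ^ (2 * (r - 2)) * (1 + ∑ j, D j), by positivity, fun S hS => ?_⟩
  have hS0 : 0 < S := by linarith
  set M : ℝ := C1 * (2 + A) * S ^ (1 / 6 + δ) with hM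
  have hSp : 1 ≤ S ^ (1 / 6 + δ) := Real.one_le_rpow hS (by positivity)
  have hM1 : 1 ≤ M := by rw [hM]; nlinarith
  have hzM : ∀ t ∈ Icc (0:ℝ) S, ∀ j, ‖z (t + a j)‖ ≤ M := by
    intro t ht j
    refine (h1 _).trans ?_
    have h3 : 1 + |t + a j| ≤ (2 + A) * S := by
      have h4 := abs_add_le t (a j)
      rw [abs_of_nonneg ht.1] at h4
      have := hAj j
      have := ht.2
      nlinarith
    have h6 : (1 + |t + a j|) ^ (1 / 6 + δ) ≤ ((2 + A) * S) ^ (1 / 6 + δ) :=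
      Real.rpow_le_rpow (by positivity) h3 (by positivity)
    have h7 : (2 + A) ^ (1 / 6 + δ) ≤ (2 + A) ^ (1 : ℝ) :=
      Real.rpow_le_rpow_of_exponent_le (by linarith) (by linarith)
    rw [Real.rpow_one] at h7
    rw [Real.mul_rpow (by positivity) hS0.le] at h6
    calc C1 * (1 + |t + a j|) ^ (1 / 6 + δ) ≤ C1 * ((2 + A) ^ (1 / 6 + δ) * S ^ (1 / 6 + δ)) := by
          gcongr
      _ ≤ C1 * ((2 + A) * S ^ (1 / 6 + δ)) := by gcongr
      _ = _ := by rw [hM]; ring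
  have hpt : ∀ t ∈ Icc (0:ℝ) S, ‖AA a t‖ ^ 2 ≤ M ^ (2 * (r - 2)) * (1 + ∑ j, ‖z (t + a j)‖ ^ 4) := by
    intro t ht
    unfold AA
    rw [norm_prod]
    exact prod_sq_le hr _ hM1 (fun j => norm_nonneg _) (hzM t ht)
  have hci : ∀ j, IntervalIntegrable (fun t : ℝ => ‖z (t + a j)‖ ^ 4) volume 0 S := fun j =>
    ((z_cont.comp (continuous_id.add continuous_const)).norm.pow 4).intervalIntegrable _ _
  have hcs : IntervalIntegrable (fun t : ℝ => ∑ j, ‖z (t + a j)‖ ^ 4) volume 0 S := by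
    refine Continuous.intervalIntegrable ?_ _ _
    exact continuous_finsetSum _ fun j _ =>
      (z_cont.comp (continuous_id.add continuous_const)).norm.pow 4
  have h8 : ∫ t in (0:ℝ)..S, ‖AA a t‖ ^ 2 ≤
      ∫ t in (0:ℝ)..S, M ^ (2 * (r - 2)) * (1 + ∑ j, ‖z (t + a j)‖ ^ 4) := by
    refine intervalIntegral.integral_mono_on hS0.le ((AA_cont a).norm.pow 2 |>.intervalIntegrable _ _)
      ?_ hpt
    exact (((intervalIntegrable_const (c := (1:ℝ))).add hcs).const_mul _)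
  have h9 : ∫ t in (0:ℝ)..S, M ^ (2 * (r - 2)) * (1 + ∑ j, ‖z (t + a j)‖ ^ 4) =
      M ^ (2 * (r - 2)) * (S + ∑ j, ∫ t in (0:ℝ)..S, ‖z (t + a j)‖ ^ 4) := by
    rw [intervalIntegral.integral_const_mul, intervalIntegral.integral_add intervalIntegrable_const hcs,
      intervalIntegral.integral_finsetSum fun j _ => hci j]
    simp
  have h10 : S + ∑ j, ∫ t in (0:ℝ)..S, ‖z (t + a j)‖ ^ 4 ≤ (1 + ∑ j, D j) * S ^ (1 + δ) := by
    have h11 : S ≤ S ^ (1 + δ) := by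
      nth_rewrite 1 [← Real.rpow_one S]
      exact Real.rpow_le_rpow_of_exponent_le hS (by linarith)
    have h12 : ∑ j, ∫ t in (0:ℝ)..S, ‖z (t + a j)‖ ^ 4 ≤ ∑ j, D j * S ^ (1 + δ) :=
      Finset.sum_le_sum fun j _ => h2 j S hS
    rw [← Finset.sum_mul] at h12
    linarith
  have h13 : M ^ (2 * (r - 2)) = (C1 * (2 + A)) ^ (2 * (r - 2)) *
      S ^ ((1 / 6 + δ) * ((2 * (r - 2) : ℕ) : ℝ)) := by
    rw [hM, mul_pow, ← Real.rpow_natCast (S ^ (1 / 6 + δ)), ← Real.rpow_mul hS0.le]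
  have h14 : (1 / 6 + δ) * ((2 * (r - 2) : ℕ) : ℝ) + (1 + δ) ≤ er r + ε := by
    unfold er
    have h15 : ((r - 2 : ℕ) : ℝ) ≤ 2 := by exact_mod_cast (by omega : r - 2 ≤ 2)
    have h16 : (0:ℝ) ≤ ((r - 2 : ℕ) : ℝ) := Nat.cast_nonneg _
    push_cast [Nat.cast_mul]
    push_cast at h15 h16 ⊢
    nlinarith
  calc _ ≤ _ := h8
    _ = _ := h9
    _ ≤ M ^ (2 * (r - 2)) * ((1 + ∑ j, D j) * S ^ (1 + δ)) := by gcongr
    _ = (C1 * (2 + A)) ^ (2 * (r - 2)) * (1 + ∑ j, D j) *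
        S ^ ((1 / 6 + δ) * ((2 * (r - 2) : ℕ) : ℝ) + (1 + δ)) := by
        rw [h13, Real.rpow_add hS0 ((1 / 6 + δ) * ((2 * (r - 2) : ℕ) : ℝ)) (1 + δ)]
        ring
    _ ≤ _ := by
        gcongr

end

end Pool.Agent.D0H82.FB
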