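import Pool.Agent.TH778.GF.ST
import Pool.Agent.TH914.GF.TW
import Pool.Agent.TH809.MZ.Fin

set_option autoImplicit false

/-! Convexity bound for zeta with the exponent `1/3 (1 - σ)`. -/

namespace Pool.Agent.D0H82.FB

open Complex Filter Topology MeasureTheory Set
open Pool.Agent.TH778.GF

noncomputable section

lemma gauss_poly (v : ℝ) : (1 + |v|) ^ 2 * Real.exp (-v ^ 2) ≤ 4 := by
  have h1 : 1 + v ^ 2 ≤ Real.exp (v ^ 2) := by
    have := Real.add_one_le_exp (v ^ 2)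
    linarith
  have h2 : (1 + |v|) ^ 2 ≤ 2 * (1 + v ^ 2) := by
    have := sq_abs v
    nlinarith [sq_nonneg (1 - |v|)]
  have h3 : 0 < Real.exp (v ^ 2) := Real.exp_pos _
  rw [Real.exp_neg, ← div_eq_mul_inv, div_le_iff₀ h3]
  nlinarith

/-- the edge estimate with the Gaussian factor -/
lemma edge_gauss {p C x σ t y Z : ℝ} (hp0 : 0 ≤ p) (hp : p ≤ 2) (hC : 0 ≤ C) (hx : |x - σ| ≤ 2)
    (hZ : Z ≤ C * (1 + |y|) ^ p) :
    Z * ‖Complex.exp ((((x : ℂ) + y * I) - ((σ : ℂ) + t * I)) ^ 2)‖ ≤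
      C * (4 * Real.exp 4) * (1 + |t|) ^ p := by
  have e1 : ‖Complex.exp ((((x : ℂ) + y * I) - ((σ : ℂ) + t * I)) ^ 2)‖ =
      Real.exp ((x - σ) ^ 2) * Real.exp (-(y - t) ^ 2) := by
    rw [Complex.norm_exp, ← Real.exp_add]
    congr 1
    have : (((x : ℂ) + y * I) - ((σ : ℂ) + t * I)) ^ 2 =
        (((x - σ) ^ 2 + -(y - t) ^ 2 : ℝ) : ℂ) + ((2 * (x - σ) * (y - t) : ℝ) : ℂ) * I := by
      push_cast
      linear_combination ((y : ℂ) - t) ^ 2 * Complex.I_sq
    rw [this, Complex.add_re, Complex.ofReal_re, Complex.re_ofReal_mul, Complex.I_re, mul_zero,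
      add_zero]
  have h1 : Real.exp ((x - σ) ^ 2) ≤ Real.exp 4 := by
    refine Real.exp_le_exp.2 ?_
    have := abs_le.1 hx
    nlinarith
  have h2 : (1 + |y|) ^ p ≤ (1 + |t|) ^ p * (1 + |y - t|) ^ p := by
    rw [← Real.mul_rpow (by positivity) (by positivity)]
    refine Real.rpow_le_rpow (by positivity) ?_ hp0
    have h3 : |y| ≤ |t| + |y - t| := by
      have := abs_add_le t (y - t)
      rwa [add_sub_cancel] at this
    nlinarith [abs_nonneg t, abs_nonneg (y - t), mul_nonneg (abs_nonneg t) (abs_nonneg (y - t))]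
  have h3 : (1 + |y - t|) ^ p ≤ (1 + |y - t|) ^ 2 := by
    rw [← Real.rpow_natCast]
    refine Real.rpow_le_rpow_of_exponent_le (by linarith [abs_nonneg (y - t)]) ?_
    push_cast
    exact hp
  have h4 := gauss_poly (y - t)
  rw [e1]
  calc Z * (Real.exp ((x - σ) ^ 2) * Real.exp (-(y - t) ^ 2))
      ≤ (C * ((1 + |t|) ^ p * (1 + |y - t|) ^ 2)) * (Real.exp 4 * Real.exp (-(y - t) ^ 2)) := by
        refine mul_le_mul (hZ.trans ?_) ?_ (by positivity) (by positivity)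
        · refine mul_le_mul_of_nonneg_left (h2.trans ?_) hC
          exact mul_le_mul_of_nonneg_left h3 (by positivity)
        · exact mul_le_mul_of_nonneg_right h1 (Real.exp_pos _).le
    _ = C * Real.exp 4 * (1 + |t|) ^ p * ((1 + |y - t|) ^ 2 * Real.exp (-(y - t) ^ 2)) := by ring
    _ ≤ C * Real.exp 4 * (1 + |t|) ^ p * 4 := by gcongr
    _ = _ := by ring

/-- zeta is bounded for `Re s ≥ 1 + η` -/
lemma zeta_bdd' {η : ℝ} (hη : 0 < η) : ∃ Z : ℝ, 1 ≤ Z ∧ ∀ s : ℂ, 1 + η ≤ s.re →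
    ‖riemannZeta s‖ ≤ Z := by
  refine ⟨1 + ∑' n : ℕ, 1 / ((n : ℝ) + 1) ^ (1 + η), ?_, ?_⟩
  · have : 0 ≤ ∑' n : ℕ, 1 / ((n : ℝ) + 1) ^ (1 + η) := tsum_nonneg fun n => by positivity
    linarith
  · intro s hs
    have hsum : Summable fun n : ℕ => 1 / ((n : ℝ) + 1) ^ (1 + η) := by
      have h1 := (Real.summable_one_div_nat_rpow (p := 1 + η)).2 (by linarith)
      have h2 := (summable_nat_add_iff 1).2 h1
      refine h2.congr fun n => ?_
      push_cast
      rfl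
    rw [zeta_eq_tsum_one_div_nat_add_one_cpow (by linarith)]
    have hn : ∀ n : ℕ, ‖1 / ((n : ℂ) + 1) ^ s‖ ≤ 1 / ((n : ℝ) + 1) ^ (1 + η) := by
      intro n
      have e : ((n : ℂ) + 1) = ((n + 1 : ℕ) : ℂ) := by push_cast; rfl
      rw [norm_div, norm_one, e, Complex.norm_natCast_cpow_of_pos (by omega)]
      push_cast
      refine one_div_le_one_div_of_le (by positivity) ?_
      exact Real.rpow_le_rpow_of_exponent_le (by linarith [Nat.cast_nonneg (α := ℝ) n]) hs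
    have hs2 : Summable fun n : ℕ => ‖1 / ((n : ℂ) + 1) ^ s‖ :=
      Summable.of_nonneg_of_le (fun _ => norm_nonneg _) hn hsum
    calc ‖∑' n : ℕ, 1 / ((n : ℂ) + 1) ^ s‖ ≤ ∑' n : ℕ, ‖1 / ((n : ℂ) + 1) ^ s‖ :=
          norm_tsum_le_tsum_norm hs2
      _ ≤ ∑' n : ℕ, 1 / ((n : ℝ) + 1) ^ (1 + η) := hs2.tsum_le_tsum hn hsum
      _ ≤ 1 + ∑' n : ℕ, 1 / ((n : ℝ) + 1) ^ (1 + η) := by linarith

/-- the interpolation for one point -/
lemma conv_pt {η δ C1 Z : ℝ} (hη : 0 < η) (hη1 : η ≤ 1) (hδ : 0 < δ) (hδ1 : δ ≤ 1 / 2) (hC1 : 0 ≤ C1)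
    (hZ : 0 ≤ Z) (h1 : ∀ t : ℝ, ‖riemannZeta ⟨1 / 2, t⟩‖ ≤ C1 * (1 + |t|) ^ (1 / 6 + δ))
    (h2 : ∀ s : ℂ, 1 + η ≤ s.re → ‖riemannZeta s‖ ≤ Z) {σ t : ℝ} (hσ1 : 1 / 2 ≤ σ) (hσ2 : σ ≤ 1 + η)
    (ht : 1 ≤ |t|) : ‖riemannZeta (σ + t * I)‖ ≤
      2 * ((C1 + Z + 1) * (4 * Real.exp 4)) * (1 + |t|) ^ ((1 / 6 + δ) * (2 * (1 + η - σ))) := by
  set s₀ : ℂ := (σ : ℂ) + t * I with hs₀
  set K : ℝ := (C1 + Z + 1) * (4 * Real.exp 4) with hK
  have he4 : 1 ≤ Real.exp 4 := Real.one_le_exp (by norm_num)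
  have hK1 : 1 ≤ K := by
    rw [hK]
    nlinarith
  have ht1 : 1 ≤ 1 + |t| := by linarith
  have hHad := Complex.HadamardThreeLines.norm_le_interp_of_mem_verticalClosedStrip'
    (f := fun s => FF s * Complex.exp ((s - s₀) ^ 2)) (z := s₀) (l := 1 / 2) (u := 1 + η)
    (a := K * (1 + |t|) ^ (1 + (1 / 6 + δ))) (b := K * (1 + |t|) ^ (1 : ℝ)) (by linarith)
    (by
      simp only [Complex.HadamardThreeLines.verticalClosedStrip, mem_preimage, mem_Icc]
      rw [hs₀]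
      simp
      constructor <;> linarith)
    (by
      refine Differentiable.diffContOnCl ?_
      exact FF_diff.mul (by fun_prop))
    (by
      refine ⟨(3 * 9) * (4 * Real.exp 4) * (1 + |t|) ^ (2 : ℝ), ?_⟩
      rintro _ ⟨w, hw, rfl⟩
      simp only [Complex.HadamardThreeLines.verticalClosedStrip, mem_preimage, mem_Icc] at hw
      simp only [Function.comp, norm_mul]
      have ew : w = ((w.re : ℝ) : ℂ) + ((w.im : ℝ) : ℂ) * I := (Complex.re_add_im w).symm
      have h3 : ‖FF w‖ ≤ (3 * 9) * (1 + |w.im|) ^ (2 : ℝ) := by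
        have h4 := FF_bound (1 / 2) (by norm_num) w hw.1
        have h5 : ‖w‖ ≤ 2 + |w.im| := by
          refine (Complex.norm_le_abs_re_add_abs_im w).trans ?_
          have : |w.re| ≤ 2 := abs_le.2 ⟨by linarith [hw.1], by linarith [hw.2]⟩
          linarith
        have h6 : (1 + 1 / (1 / 2 : ℝ)) = 3 := by norm_num
        rw [h6] at h4
        have e2 : (1 + |w.im|) ^ (2 : ℝ) = (1 + |w.im|) ^ 2 := by norm_num
        rw [e2]
        have h7 : 0 ≤ |w.im| := abs_nonneg _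
        have h8 : 0 ≤ ‖w‖ := norm_nonneg _
        nlinarith
      have h9 := edge_gauss (p := 2) (C := 3 * 9) (x := w.re) (σ := σ) (t := t) (y := w.im)
        (Z := ‖FF w‖) (by norm_num) le_rfl (by norm_num) (by
          rw [abs_le]; constructor <;> linarith [hw.1, hw.2]) h3
      rw [← ew, ← hs₀] at h9
      exact h9)
    (by
      intro w hw
      simp only [mem_preimage, mem_singleton_iff] at hw
      rw [norm_mul]
      have ew : w = ((1 / 2 : ℝ) : ℂ) + ((w.im : ℝ) : ℂ) * I := by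
        apply Complex.ext <;> simp [hw]
      have hw1 : w ≠ 1 := by
        intro h; rw [h] at hw; norm_num at hw
      have h3 : ‖FF w‖ ≤ C1 * (1 + |w.im|) ^ (1 + (1 / 6 + δ)) := by
        rw [FF_ne hw1, norm_mul]
        have h4 : ‖w - 1‖ ≤ 1 + |w.im| := by
          refine (Complex.norm_le_abs_re_add_abs_im _).trans ?_
          simp only [Complex.sub_re, Complex.one_re, Complex.sub_im, Complex.one_im, sub_zero]
          have : |w.re - 1| ≤ 1 := by rw [hw]; norm_num [abs_le]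
          linarith
        have h5 := h1 w.im
        have e3 : (⟨1 / 2, w.im⟩ : ℂ) = w := by apply Complex.ext <;> simp [hw]
        rw [e3] at h5
        rw [Real.rpow_add (by positivity), Real.rpow_one]
        calc ‖w - 1‖ * ‖riemannZeta w‖ ≤ (1 + |w.im|) * (C1 * (1 + |w.im|) ^ (1 / 6 + δ)) :=
              mul_le_mul h4 h5 (norm_nonneg _) (by positivity)
          _ = _ := by ring
      have h9 := edge_gauss (p := 1 + (1 / 6 + δ)) (C := C1) (x := 1 / 2) (σ := σ) (t := t) (y := w.im)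
        (Z := ‖FF w‖) (by positivity) (by linarith) hC1 (by
          rw [abs_le]; constructor <;> linarith) h3
      rw [← ew, ← hs₀] at h9
      refine h9.trans ?_
      rw [hK]
      gcongr
      linarith)
    (by
      intro w hw
      simp only [mem_preimage, mem_singleton_iff] at hw
      rw [norm_mul]
      have ew : w = ((1 + η : ℝ) : ℂ) + ((w.im : ℝ) : ℂ) * I := by
        apply Complex.ext <;> simp [hw]
      have hw1 : w ≠ 1 := by
        intro h; rw [h] at hw; simp at hw; linarith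
      have h3 : ‖FF w‖ ≤ Z * (1 + |w.im|) ^ (1 : ℝ) := by
        rw [FF_ne hw1, norm_mul, Real.rpow_one]
        have h4 : ‖w - 1‖ ≤ 1 + |w.im| := by
          refine (Complex.norm_le_abs_re_add_abs_im _).trans ?_
          simp only [Complex.sub_re, Complex.one_re, Complex.sub_im, Complex.one_im, sub_zero]
          have : |w.re - 1| ≤ 1 := by rw [hw, abs_le]; constructor <;> linarith
          linarith
        have h5 := h2 w (by rw [hw])
        calc ‖w - 1‖ * ‖riemannZeta w‖ ≤ (1 + |w.im|) * Z :=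
              mul_le_mul h4 h5 (norm_nonneg _) (by positivity)
          _ = _ := by ring
      have h9 := edge_gauss (p := 1) (C := Z) (x := 1 + η) (σ := σ) (t := t) (y := w.im)
        (Z := ‖FF w‖) (by norm_num) (by norm_num) hZ (by
          rw [abs_le]; constructor <;> linarith) h3
      rw [← ew, ← hs₀] at h9
      refine h9.trans ?_
      rw [hK]
      gcongr
      linarith)
  clear_value K
  have hre : s₀.re = σ := by rw [hs₀]; simp
  have him : s₀.im = t := by rw [hs₀]; simp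
  simp only [sub_self] at hHad
  have e0 : (0 : ℂ) ^ 2 = 0 := by norm_num
  rw [e0, Complex.exp_zero, mul_one, hre] at hHad
  set θ : ℝ := (σ - 1 / 2) / (1 + η - 1 / 2) with hθ
  have hden : 0 < 1 + η - 1 / 2 := by linarith
  have hθ0 : 0 ≤ θ := div_nonneg (by linarith) hden.le
  have hθ1 : θ ≤ 1 := (div_le_one hden).2 (by linarith)
  have hθ2 : 1 - θ ≤ 2 * (1 + η - σ) := by
    rw [hθ, one_sub_div hden.ne']
    rw [div_le_iff₀ hden]
    nlinarith
  have hs1 : s₀ ≠ 1 := by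
    intro h
    have := congrArg Complex.im h
    rw [him] at this
    simp at this
    rw [this] at ht
    simp at ht
    linarith
  rw [FF_ne hs1, norm_mul] at hHad
  have h10 : (1 + |t|) / 2 ≤ ‖s₀ - 1‖ := by
    have := Complex.abs_im_le_norm (s₀ - 1)
    simp only [Complex.sub_im, Complex.one_im, sub_zero, him] at this
    linarith
  have hR : (K * (1 + |t|) ^ (1 + (1 / 6 + δ))) ^ (1 - θ) * (K * (1 + |t|) ^ (1 : ℝ)) ^ θ =
      K * ((1 + |t|) * (1 + |t|) ^ ((1 / 6 + δ) * (1 - θ))) := by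
    have hp : 0 < 1 + |t| := by linarith
    rw [Real.mul_rpow (by positivity) (by positivity), Real.mul_rpow (by positivity) (by positivity),
      ← Real.rpow_mul hp.le, ← Real.rpow_mul hp.le]
    have e4 : K ^ (1 - θ) * K ^ θ = K := by
      rw [← Real.rpow_add (by linarith), sub_add_cancel, Real.rpow_one]
    have e5 : (1 + |t|) ^ ((1 + (1 / 6 + δ)) * (1 - θ)) * (1 + |t|) ^ (1 * θ) =
        (1 + |t|) * (1 + |t|) ^ ((1 / 6 + δ) * (1 - θ)) := by
      nth_rewrite 3 [← Real.rpow_one (1 + |t|)]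
      rw [← Real.rpow_add hp, ← Real.rpow_add hp]
      congr 1
      ring
    calc _ = (K ^ (1 - θ) * K ^ θ) * ((1 + |t|) ^ ((1 + (1 / 6 + δ)) * (1 - θ)) *
          (1 + |t|) ^ (1 * θ)) := by ring
      _ = _ := by rw [e4, e5]
  rw [hR] at hHad
  have h11 : (1 + |t|) ^ ((1 / 6 + δ) * (1 - θ)) ≤ (1 + |t|) ^ ((1 / 6 + δ) * (2 * (1 + η - σ))) := by
    refine Real.rpow_le_rpow_of_exponent_le ht1 ?_
    exact mul_le_mul_of_nonneg_left hθ2 (by positivity)
  have hp : 0 < 1 + |t| := by linarith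
  have h12 : (1 + |t|) / 2 * ‖riemannZeta s₀‖ ≤
      (1 + |t|) / 2 * (2 * K * (1 + |t|) ^ ((1 / 6 + δ) * (2 * (1 + η - σ)))) := by
    calc (1 + |t|) / 2 * ‖riemannZeta s₀‖ ≤ ‖s₀ - 1‖ * ‖riemannZeta s₀‖ := by gcongr
      _ ≤ K * ((1 + |t|) * (1 + |t|) ^ ((1 / 6 + δ) * (1 - θ))) := hHad
      _ ≤ K * ((1 + |t|) * (1 + |t|) ^ ((1 / 6 + δ) * (2 * (1 + η - σ)))) := by gcongr
      _ = _ := by ring
  exact le_of_mul_le_mul_left h12 (by positivity)

/-- the exponent -/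
def cx (σ : ℝ) : ℝ := max 0 ((1 - σ) / 3)

lemma cx_nonneg (σ : ℝ) : 0 ≤ cx σ := le_max_left _ _

/-- convexity bound -/
theorem conv {ε : ℝ} (hε : 0 < ε) : ∃ C : ℝ, 1 ≤ C ∧ ∀ σ t : ℝ, 1 / 2 ≤ σ → 1 ≤ |t| →
    ‖riemannZeta (σ + t * I)‖ ≤ C * |t| ^ (cx σ + ε) := by
  set η : ℝ := min (ε / 2) 1 with hη
  set δ : ℝ := min (ε / 8) (1 / 2) with hδ
  have hη0 : 0 < η := by rw [hη]; positivity
  have hη1 : η ≤ 1 := min_le_right _ _
  have hη2 : η ≤ ε / 2 := min_le_left _ _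
  have hδ0 : 0 < δ := by rw [hδ]; positivity
  have hδ1 : δ ≤ 1 / 2 := min_le_right _ _
  have hδ2 : δ ≤ ε / 8 := min_le_left _ _
  obtain ⟨C1, h1⟩ := Pool.Agent.TH809.MZ.growth_weyl δ hδ0
  obtain ⟨Z, hZ1, h2⟩ := zeta_bdd' hη0
  have h1' : ∀ t : ℝ, ‖riemannZeta ⟨1 / 2, t⟩‖ ≤ |C1| * (1 + |t|) ^ (1 / 6 + δ) := fun t =>
    (h1 t).trans (mul_le_mul_of_nonneg_right (le_abs_self _) (by positivity))
  set K : ℝ := 2 * ((|C1| + Z + 1) * (4 * Real.exp 4)) with hK
  have hK1 : 1 ≤ K := by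
    have he4 : 1 ≤ Real.exp 4 := Real.one_le_exp (by norm_num)
    rw [hK]
    nlinarith [abs_nonneg C1]
  refine ⟨K * 2 ^ (2 + ε) + Z, by
    have : (0:ℝ) < 2 ^ (2 + ε) := by positivity
    have : 0 ≤ K * 2 ^ (2 + ε) := by positivity
    linarith, fun σ t hσ ht => ?_⟩
  have hcx := cx_nonneg σ
  have htp : 1 ≤ |t| ^ (cx σ + ε) := Real.one_le_rpow ht (by linarith)
  have hpos : 0 ≤ K * 2 ^ (2 + ε) := by positivity
  rcases le_or_gt σ (1 + η) with h | h
  · have h3 := conv_pt hη0 hη1 hδ0 hδ1 (abs_nonneg C1) (by linarith) h1' h2 hσ h ht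
    refine h3.trans ?_
    have hexp : (1 / 6 + δ) * (2 * (1 + η - σ)) ≤ cx σ + ε := by
      rcases le_or_gt σ 1 with h4 | h4
      · have h5 : (1 - σ) / 3 ≤ cx σ := le_max_right _ _
        have h6 : 1 + η - σ ≤ 3 / 2 := by linarith
        nlinarith
      · have h6 : 1 + η - σ ≤ η := by linarith
        have h7 : 0 ≤ 1 + η - σ := by linarith
        nlinarith
    have hexp0 : 0 ≤ (1 / 6 + δ) * (2 * (1 + η - σ)) := by
      have h7 : 0 ≤ 1 + η - σ := by linarith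
      positivity
    have hcx2 : cx σ ≤ 1 := by
      unfold cx
      exact max_le (by norm_num) (by linarith)
    have h8 : (1 + |t|) ^ ((1 / 6 + δ) * (2 * (1 + η - σ))) ≤ 2 ^ (2 + ε) * |t| ^ (cx σ + ε) := by
      calc (1 + |t|) ^ ((1 / 6 + δ) * (2 * (1 + η - σ))) ≤ (2 * |t|) ^ ((1 / 6 + δ) * (2 * (1 + η - σ))) :=
            Real.rpow_le_rpow (by positivity) (by linarith) hexp0
        _ ≤ (2 * |t|) ^ (cx σ + ε) := Real.rpow_le_rpow_of_exponent_le (by linarith) hexp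
        _ = 2 ^ (cx σ + ε) * |t| ^ (cx σ + ε) := Real.mul_rpow (by norm_num) (abs_nonneg _)
        _ ≤ 2 ^ (2 + ε) * |t| ^ (cx σ + ε) := by
            refine mul_le_mul_of_nonneg_right ?_ (by positivity)
            exact Real.rpow_le_rpow_of_exponent_le (by norm_num) (by linarith)
    calc K * (1 + |t|) ^ ((1 / 6 + δ) * (2 * (1 + η - σ))) ≤ K * (2 ^ (2 + ε) * |t| ^ (cx σ + ε)) := by
          gcongr
      _ = K * 2 ^ (2 + ε) * |t| ^ (cx σ + ε) := by ring
      _ ≤ _ := by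
          gcongr
          linarith
  · have h3 := h2 ((σ : ℂ) + t * I) (by simp; linarith)
    refine h3.trans ?_
    nlinarith

end

end Pool.Agent.D0H82.FB
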