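import Pool.Agent.W479.BU.Msz
import Pool.Agent.W40.BU.TL
import Pool.Agent.W186.SD.MainD
import Pool.Agent.D0H82.FB.Conv

set_option autoImplicit false

/-! The mean square of zeta on the vertical lines to the right of the critical line. -/

namespace Pool.Agent.D0H82.FB

open Complex Filter Topology MeasureTheory Set

noncomputable section

lemma zc (σ : ℝ) {a b : ℝ} (ha : 0 < a) (hab : a ≤ b) :
    IntervalIntegrable (fun t : ℝ => ‖riemannZeta ((σ : ℂ) + t * I)‖ ^ 2) volume a b :=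
  Pool.Agent.W479.BU.zeta_ii ha hab

/-- the mean square from height one on -/
theorem msl0 : ∃ C : ℝ, 0 < C ∧ ∀ σ Y : ℝ, 1 / 2 ≤ σ → σ ≤ 2 → 1 ≤ Y →
    ∫ t in (1:ℝ)..Y, ‖riemannZeta ((σ : ℂ) + t * I)‖ ^ 2 ≤ C * (Y * (1 + Real.log Y)) := by
  obtain ⟨C, T0, hC, hT0, h⟩ := Pool.Agent.W479.BU.msz Pool.Agent.W40.BU.TL.tl Pool.Agent.W186.SD.san
  set K : ℝ := T0 * (6 * (2 + T0)) ^ 2 with hK
  have hK0 : 0 < K := by positivity
  have hsmall : ∀ σ Y : ℝ, 1 / 2 ≤ σ → σ ≤ 2 → 1 ≤ Y → Y ≤ T0 →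
      ∫ t in (1:ℝ)..Y, ‖riemannZeta ((σ : ℂ) + t * I)‖ ^ 2 ≤ K := by
    intro σ Y h1 h2 h3 h4
    have h5 : ∫ t in (1:ℝ)..Y, ‖riemannZeta ((σ : ℂ) + t * I)‖ ^ 2 ≤
        ∫ _t in (1:ℝ)..Y, (6 * (2 + T0)) ^ 2 := by
      refine intervalIntegral.integral_mono_on h3 (zc σ one_pos h3) (by simp) ?_
      intro t ht
      refine pow_le_pow_left₀ (norm_nonneg _) ?_ 2
      have h6 := Pool.Agent.H388LH.zeta_growth (s := (σ : ℂ) + t * I) (by simp; linarith)
        (by simpa using ht.1)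
      refine h6.trans ?_
      have h7 : ‖(σ : ℂ) + t * I‖ ≤ |((σ : ℂ) + t * I).re| + |((σ : ℂ) + t * I).im| :=
        Complex.norm_le_abs_re_add_abs_im _
      simp only [add_re, ofReal_re, mul_re, I_re, mul_zero, ofReal_im, I_im, mul_one, sub_self,
        add_zero, add_im, mul_im, zero_add] at h7
      rw [abs_of_nonneg (by linarith), abs_of_nonneg (by linarith [ht.1])] at h7
      have := ht.2
      linarith
    refine h5.trans ?_
    rw [intervalIntegral.integral_const, smul_eq_mul, hK]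
    have : 0 ≤ (6 * (2 + T0)) ^ 2 := by positivity
    nlinarith
  have key : ∀ n : ℕ, ∀ σ Y : ℝ, 1 / 2 ≤ σ → σ ≤ 2 → 1 ≤ Y → Y ≤ 2 ^ n →
      ∫ t in (1:ℝ)..Y, ‖riemannZeta ((σ : ℂ) + t * I)‖ ^ 2 ≤ K + 2 * C * (Y * Real.log Y) := by
    intro n
    induction n with
    | zero =>
      intro σ Y h1 h2 h3 h4
      have e : Y = 1 := by rw [pow_zero] at h4; linarith
      rw [e, intervalIntegral.integral_same, Real.log_one]
      linarith
    | succ n ih =>
      intro σ Y h1 h2 h3 h4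
      have hlog : 0 ≤ Real.log Y := Real.log_nonneg h3
      rcases le_or_gt Y T0 with h5 | h5
      · have h6 := hsmall σ Y h1 h2 h3 h5
        have : 0 ≤ 2 * C * (Y * Real.log Y) := by positivity
        linarith
      · have hY2 : 1 ≤ Y / 2 := by linarith
        have h6 := ih σ (Y / 2) h1 h2 hY2 (by rw [pow_succ] at h4; linarith)
        have h7 := h Y σ h5.le h1
        have h8 : ∫ t in (Y / 2)..Y, ‖riemannZeta ((σ : ℂ) + t * I)‖ ^ 2 ≤
            ∫ t in (Y / 2)..(3 * Y), ‖riemannZeta ((σ : ℂ) + t * I)‖ ^ 2 :=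
          intervalIntegral.integral_mono_interval le_rfl (by linarith) (by linarith)
            (Filter.Eventually.of_forall fun t => by positivity) (zc σ (by linarith) (by linarith))
        have h9 := intervalIntegral.integral_add_adjacent_intervals
          (zc σ one_pos hY2) (zc σ (by linarith : 0 < Y / 2) (by linarith : Y / 2 ≤ Y))
        have h10 : Real.log (Y / 2) ≤ Real.log Y := Real.log_le_log (by linarith) (by linarith)
        have h11 : 2 * C * (Y / 2 * Real.log (Y / 2)) ≤ C * (Y * Real.log Y) := by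
          have : Y / 2 * Real.log (Y / 2) ≤ Y / 2 * Real.log Y :=
            mul_le_mul_of_nonneg_left h10 (by linarith)
          nlinarith
        have e2 : C * Y * Real.log Y = C * (Y * Real.log Y) := by ring
        rw [e2] at h7
        rw [← h9]
        linarith
  refine ⟨K + 2 * C, by positivity, fun σ Y h1 h2 h3 => ?_⟩
  obtain ⟨n, hn⟩ := pow_unbounded_of_one_lt Y (by norm_num : (1:ℝ) < 2)
  refine (key n σ Y h1 h2 h3 hn.le).trans ?_
  have hlog : 0 ≤ Real.log Y := Real.log_nonneg h3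
  have h4 : K ≤ K * (Y * (1 + Real.log Y)) := by
    have : 1 ≤ Y * (1 + Real.log Y) := by nlinarith
    nlinarith
  have h5 : 2 * C * (Y * Real.log Y) ≤ 2 * C * (Y * (1 + Real.log Y)) := by
    have : Y * Real.log Y ≤ Y * (1 + Real.log Y) := by nlinarith
    nlinarith
  nlinarith

/-- the mean square over the shifts at a given height -/
theorem msl : ∃ C : ℝ, 0 < C ∧ ∀ σ T h : ℝ, 1 / 2 ≤ σ → σ ≤ 2 → 1 ≤ h → h ≤ T →
    ∫ x in (0:ℝ)..T, ‖riemannZeta ((σ : ℂ) + ((h + x : ℝ) : ℂ) * I)‖ ^ 2 ≤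
      C * (T * (1 + Real.log T)) := by
  obtain ⟨C, hC, h0⟩ := msl0
  refine ⟨4 * C, by positivity, fun σ T h h1 h2 h3 h4 => ?_⟩
  have hT1 : 1 ≤ T := h3.trans h4
  have e : ∫ x in (0:ℝ)..T, ‖riemannZeta ((σ : ℂ) + ((h + x : ℝ) : ℂ) * I)‖ ^ 2 =
      ∫ t in (h + 0)..(h + T), ‖riemannZeta ((σ : ℂ) + (t : ℂ) * I)‖ ^ 2 :=
    intervalIntegral.integral_comp_add_left (fun t => ‖riemannZeta ((σ : ℂ) + (t : ℂ) * I)‖ ^ 2) h
  rw [e, add_zero]
  have h5 : ∫ t in h..(h + T), ‖riemannZeta ((σ : ℂ) + (t : ℂ) * I)‖ ^ 2 ≤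
      ∫ t in (1:ℝ)..(2 * T), ‖riemannZeta ((σ : ℂ) + (t : ℂ) * I)‖ ^ 2 :=
    intervalIntegral.integral_mono_interval h3 (by linarith) (by linarith)
      (Filter.Eventually.of_forall fun t => by positivity) (zc σ one_pos (by linarith))
  refine h5.trans ((h0 σ (2 * T) h1 h2 (by linarith)).trans ?_)
  have h6 : Real.log (2 * T) ≤ 1 + Real.log T := by
    rw [Real.log_mul (by norm_num) (by linarith)]
    linarith [Real.log_two_lt_d9]
  have hlog : 0 ≤ Real.log T := Real.log_nonneg hT1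
  have h7 : 2 * T * (1 + Real.log (2 * T)) ≤ 4 * (T * (1 + Real.log T)) := by nlinarith
  calc C * (2 * T * (1 + Real.log (2 * T))) ≤ C * (4 * (T * (1 + Real.log T))) := by gcongr
    _ = _ := by ring

end

end Pool.Agent.D0H82.FB
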