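import Pool.Agent.D0H82.FB.PA
import Pool.Agent.D0H82.FB.FM
import Pool.Agent.D0H82.FB.MSL
import Pool.Agent.TH521.GS.Rep

set_option autoImplicit false

/-! Averages over the generic shifts of the partly fixed block. -/

namespace Pool.Agent.D0H82.FB

open Complex Filter Topology MeasureTheory Set
open Pool.Agent.TH612.CF
open Pool.Agent.TH612.GS
open Pool.Agent.TH521.GS (tonelli pt mor)

noncomputable section

variable {r l : ℕ}

lemma AA_append (a : Fin r → ℝ) (x : Fin l → ℝ) (t : ℝ) :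
    AA (Fin.append a x) t = AA a t * ∏ j, z (t + x j) := by
  unfold AA
  rw [Fin.prod_univ_add]
  simp only [Fin.append_left, Fin.append_right]

lemma AA_append_sq (a : Fin r → ℝ) (x : Fin l → ℝ) (t : ℝ) :
    ‖AA (Fin.append a x) t‖ ^ 2 = ‖AA a t‖ ^ 2 * ∏ j, ‖z (t + x j)‖ ^ 2 := by
  rw [AA_append, norm_mul, mul_pow, norm_prod, Finset.prod_pow]

lemma AAx_cont (a : Fin r → ℝ) :
    Continuous fun p : (Fin l → ℝ) × ℝ => AA (Fin.append a p.1) p.2 := by
  simp only [AA_append]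
  refine ((Pool.Agent.TH612.GS.AA_cont a).comp continuous_snd).mul ?_
  exact continuous_finsetProd _ fun j _ => z_cont.comp (by fun_prop)

lemma Jx_cont (a : Fin r → ℝ) (S : ℝ) :
    Continuous fun x : Fin l → ℝ => ∫ t in (0:ℝ)..S, ‖AA (Fin.append a x) t‖ ^ 2 := by
  refine intervalIntegral.continuous_parametric_intervalIntegral_of_continuous'
    (f := fun (x : Fin l → ℝ) (t : ℝ) => ‖AA (Fin.append a x) t‖ ^ 2) ?_ 0 S
  exact (AAx_cont a).norm.pow 2

lemma Ax_cont (a : Fin r → ℝ) (S : ℝ) :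
    Continuous fun x : Fin l → ℝ => ∫ t in (0:ℝ)..S, ‖AA (Fin.append a x) t‖ := by
  refine intervalIntegral.continuous_parametric_intervalIntegral_of_continuous'
    (f := fun (x : Fin l → ℝ) (t : ℝ) => ‖AA (Fin.append a x) t‖) ?_ 0 S
  exact (AAx_cont a).norm

/-- average of the second moment of the block -/
lemma avJ (hSM : S_SM) (l : ℕ) : ∃ C T₀ : ℝ, 0 < C ∧ 3 ≤ T₀ ∧ ∀ (r : ℕ) (a : Fin r → ℝ) (T S : ℝ), T₀ ≤ T →
    0 ≤ S → S ≤ T →
    ∫⁻ x, ENNReal.ofReal (∫ t in (0:ℝ)..S, ‖AA (Fin.append a x) t‖ ^ 2) ∂(mP (Fin l) T) ≤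
      ENNReal.ofReal ((C * T * Real.log T) ^ l * ∫ t in (0:ℝ)..S, ‖AA a t‖ ^ 2) := by
  obtain ⟨C, T₀, hC, hT₀, h⟩ := hSM
  refine ⟨C, max 3 T₀, hC, le_max_left _ _, fun r a T S hT hS hST => ?_⟩
  have hT3 : 3 ≤ T := (le_max_left _ _).trans hT
  have hTT : T₀ ≤ T := (le_max_right _ _).trans hT
  have hT0 : 0 ≤ T := by linarith
  have hlog : 0 ≤ Real.log T := Real.log_nonneg (by linarith)
  simp only [AA_append_sq]
  have hG : Continuous (Function.uncurry fun (t : ℝ) (x : Fin l → ℝ) => ∏ j, ‖z (t + x j)‖ ^ 2) := by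
    unfold Function.uncurry
    exact continuous_finsetProd _ fun j _ => (z_cont.comp (by fun_prop)).norm.pow 2
  have hpt : ∀ t ∈ Icc 0 S, ∫⁻ x : Fin l → ℝ, ENNReal.ofReal (∏ j, ‖z (t + x j)‖ ^ 2) ∂(mP (Fin l) T) ≤
      ENNReal.ofReal ((C * T * Real.log T) ^ l) := by
    intro t ht
    refine pt hT0 (by positivity) t l (fun _ => z) (fun _ => z_cont) fun _ => ?_
    exact (shift_le z_cont ht.1 (ht.2.trans hST)).trans (h T hTT)
  exact tonelli (mP (Fin l) T) (w := fun t => ‖AA a t‖ ^ 2)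
    ((Pool.Agent.TH612.GS.AA_cont a).norm.pow 2) (fun _ => by positivity) hG
    (fun t x => Finset.prod_nonneg fun _ _ => by positivity) hS (by positivity) hpt

/-- average of the initial part -/
lemma avA (hSM : S_SM) (l : ℕ) : ∃ C T₀ : ℝ, 0 < C ∧ 3 ≤ T₀ ∧ ∀ (r : ℕ) (a : Fin r → ℝ) (T h₀ : ℝ),
    T₀ ≤ T → 0 < h₀ → h₀ ≤ T →
    ∫⁻ x, ENNReal.ofReal ((∫ t in (0:ℝ)..h₀, ‖AA (Fin.append a x) t‖) ^ 2) ∂(mP (Fin l) T) ≤
      ENNReal.ofReal (h₀ * ((C * T * Real.log T) ^ l * ∫ t in (0:ℝ)..h₀, ‖AA a t‖ ^ 2)) := by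
  obtain ⟨C, T₀, hC, hT₀, h⟩ := avJ hSM l
  refine ⟨C, T₀, hC, hT₀, fun r a T h₀ hT hh hhT => ?_⟩
  have h1 := h r a T h₀ hT hh.le hhT
  rw [ENNReal.ofReal_mul hh.le]
  refine le_trans ?_ (mul_le_mul' le_rfl h1)
  rw [← lintegral_const_mul' _ _ ENNReal.ofReal_ne_top]
  refine lintegral_mono fun x => ?_
  rw [← ENNReal.ofReal_mul hh.le]
  refine ENNReal.ofReal_le_ofReal ?_
  have hc : Continuous fun t : ℝ => ‖AA (Fin.append a x) t‖ := (Pool.Agent.TH612.GS.AA_cont _).norm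
  have h2 := csq (a := 0) (b := h₀) hh (hc.intervalIntegrable _ _) ((hc.pow 2).intervalIntegrable _ _)
  rwa [sub_zero] at h2

/-- the mean square over a horizontal segment, continuous version -/
def KHc (a : Fin r → ℝ) (x : Fin l → ℝ) (S η h : ℝ) : ℝ :=
  ∫ σ in (1 / 2 : ℝ)..(1 + η), ((∏ j, ‖riemannZeta (σ + I * ((h + a j : ℝ) : ℂ))‖ ^ 2) *
    S ^ (2 * σ - 1)) * ∏ j, ‖riemannZeta (σ + I * ((h + max (x j) 0 : ℝ) : ℂ))‖ ^ 2

lemma KHc_eq (a : Fin r → ℝ) (x : Fin l → ℝ) (S η h : ℝ) (hx : ∀ j, 0 ≤ x j) :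
    KH (Fin.append a x) S η h = KHc a x S η h := by
  unfold KH KHc
  refine intervalIntegral.integral_congr fun σ _ => ?_
  show (∏ j : Fin (r + l), ‖riemannZeta (σ + I * ((h + Fin.append a x j : ℝ) : ℂ))‖ ^ 2) *
    S ^ (2 * σ - 1) = _
  rw [Fin.prod_univ_add]
  simp only [Fin.append_left, Fin.append_right]
  have : ∀ j, max (x j) 0 = x j := fun j => max_eq_left (hx j)
  simp only [this]
  ring

lemma G_cont {h : ℝ} (hh : 0 < h) : Continuous (Function.uncurry fun (σ : ℝ) (x : Fin l → ℝ) =>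
    ∏ j, ‖riemannZeta (σ + I * ((h + max (x j) 0 : ℝ) : ℂ))‖ ^ 2) := by
  unfold Function.uncurry
  refine continuous_finsetProd _ fun j _ => Continuous.pow (Continuous.norm ?_) 2
  rw [continuous_iff_continuousAt]
  intro p
  have h1 : ContinuousAt riemannZeta ((p.1 : ℂ) + I * ((h + max (p.2 j) 0 : ℝ) : ℂ)) := by
    refine (differentiableAt_riemannZeta ?_).continuousAt
    intro h'
    have h2 := congrArg Complex.im h'
    simp at h2
    have := le_max_right (p.2 j) 0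
    linarith
  have h2 : ContinuousAt (fun p : ℝ × (Fin l → ℝ) => (p.1 : ℂ) + I * ((h + max (p.2 j) 0 : ℝ) : ℂ)) p := by
    have : Continuous fun p : ℝ × (Fin l → ℝ) => (p.1 : ℂ) + I * ((h + max (p.2 j) 0 : ℝ) : ℂ) := by
      fun_prop
    exact this.continuousAt
  exact ContinuousAt.comp (f := fun p : ℝ × (Fin l → ℝ) => (p.1 : ℂ) + I * ((h + max (p.2 j) 0 : ℝ) : ℂ))
    (g := riemannZeta) h1 h2

lemma KHc_cont (a : Fin r → ℝ) {S η h : ℝ} (hS : 0 < S) (hh : 0 < h) (ha : ∀ j, 0 < h + a j) :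
    Continuous fun x : Fin l → ℝ => KHc a x S η h := by
  unfold KHc
  refine intervalIntegral.continuous_parametric_intervalIntegral_of_continuous'
    (f := fun (x : Fin l → ℝ) (σ : ℝ) => ((∏ j, ‖riemannZeta (σ + I * ((h + a j : ℝ) : ℂ))‖ ^ 2) *
    S ^ (2 * σ - 1)) * ∏ j, ‖riemannZeta (σ + I * ((h + max (x j) 0 : ℝ) : ℂ))‖ ^ 2) ?_ _ _
  have h1 := (KH_contX a hS ha).comp (continuous_snd : Continuous fun p : (Fin l → ℝ) × ℝ => p.2)
  have h2 := (G_cont (l := l) hh).comp (by fun_prop : Continuous fun p : (Fin l → ℝ) × ℝ => (p.2, p.1))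
  exact h1.mul h2

/-- average of the mean square over a horizontal segment -/
lemma avK (l : ℕ) : ∃ C : ℝ, 0 < C ∧ ∀ (r : ℕ) (a : Fin r → ℝ) (T S η h : ℝ),
    0 < S → 0 < η → η ≤ 1 → 1 ≤ h → h ≤ T → (∀ j, 0 < h + a j) →
    ∫⁻ x, ENNReal.ofReal (KHc a x S η h) ∂(mP (Fin l) T) ≤
      ENNReal.ofReal ((C * (T * (1 + Real.log T))) ^ l * KH a S η h) := by
  obtain ⟨C, hC, h0⟩ := msl
  refine ⟨C, hC, fun r a T S η h hS hη hη1 hh hhT ha => ?_⟩
  have hT1 : 1 ≤ T := hh.trans hhT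
  have hT0 : 0 ≤ T := by linarith
  have hlog : 0 ≤ Real.log T := Real.log_nonneg hT1
  have hh0 : 0 < h := by linarith
  have hV : 0 ≤ C * (T * (1 + Real.log T)) := by positivity
  have hpt : ∀ σ ∈ Icc (1 / 2 : ℝ) (1 + η), ∫⁻ x : Fin l → ℝ, ENNReal.ofReal
      (∏ j, ‖riemannZeta (σ + I * ((h + max (x j) 0 : ℝ) : ℂ))‖ ^ 2) ∂(mP (Fin l) T) ≤
      ENNReal.ofReal ((C * (T * (1 + Real.log T))) ^ l) := by
    intro σ hσ
    set f : ℝ → ℂ := fun y => riemannZeta (σ + I * ((h + max y 0 : ℝ) : ℂ)) with hf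
    have hfc : Continuous f := by
      rw [continuous_iff_continuousAt]
      intro y
      have h1 : ContinuousAt riemannZeta ((σ : ℂ) + I * ((h + max y 0 : ℝ) : ℂ)) := by
        refine (differentiableAt_riemannZeta ?_).continuousAt
        intro h'
        have h2 := congrArg Complex.im h'
        simp at h2
        have := le_max_right y 0
        linarith
      have h2 : Continuous fun y : ℝ => (σ : ℂ) + I * ((h + max y 0 : ℝ) : ℂ) := by fun_prop
      exact ContinuousAt.comp (f := fun y : ℝ => (σ : ℂ) + I * ((h + max y 0 : ℝ) : ℂ))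
        (g := riemannZeta) h1 h2.continuousAt
    have h1 := pt hT0 hV 0 l (fun _ => f) (fun _ => hfc) (fun _ => by
      have h2 := h0 σ T h hσ.1 (by linarith [hσ.2]) hh hhT
      refine le_trans (le_of_eq ?_) h2
      refine intervalIntegral.integral_congr fun y hy => ?_
      rw [uIcc_of_le hT0] at hy
      simp only [hf, zero_add]
      rw [max_eq_left hy.1, mul_comm I])
    simp only [zero_add] at h1
    exact h1
  unfold KHc KH
  exact tonelli (mP (Fin l) T) (w := fun σ => (∏ j, ‖riemannZeta (σ + I * ((h + a j : ℝ) : ℂ))‖ ^ 2) *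
    S ^ (2 * σ - 1)) (KH_contX a hS ha)
    (fun σ => mul_nonneg (Finset.prod_nonneg fun _ _ => by positivity) (by positivity)) (G_cont hh0)
    (fun t x => Finset.prod_nonneg fun _ _ => by positivity) (by linarith) (by positivity) hpt

end

end Pool.Agent.D0H82.FB
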