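import Pool.Agent.D0H82.FB.FN
import Pool.Agent.D0H82.SR.All
import Pool.Agent.TH612.GS.AllF

set_option autoImplicit false

/-! Project FB: all parts together. -/

namespace Pool.Agent.D0H82.FB

open MeasureTheory Pool.Agent.TH612.GS

theorem all_main (l : ℕ) {r : ℕ} (hr0 : 1 ≤ r) (hr : r ≤ 4) (a : Fin r → ℝ) {ε : ℝ} (hε : 0 < ε)
    (hε1 : ε < 1 / 2) : ∃ T₀ : ℝ, ∀ T : ℝ, T₀ ≤ T → ∀ S : ℝ, 1 ≤ S → S ≤ T →
      (volume : Measure ((Fin l → ℝ) × (Fin (r + l) → ℝ))) (BadF a T S ε) ≤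
        ENNReal.ofReal (T ^ ((r : ℝ) + 2 * l - ε)) := by
  have hMV := Pool.Agent.TH928.GS.t_MV
  have hTMV := Pool.Agent.TH738.GF.t_TMV hMV
  have hOQ := Pool.Agent.TH236.GF.t_OQ Pool.Agent.TH321.GF.t_AQ
  have hVQ := Pool.Agent.TH740.GF.t_VQ hMV
  have hSM := Pool.Agent.TH570.GS.t_SM
  exact FIN Pool.Agent.TH406.GF.t_REPA hOQ hSM hVQ hTMV Pool.Agent.TH751.GF.t_MVB
    Pool.Agent.TH445.GF.t_DS l hr0 hr a hε hε1

end Pool.Agent.D0H82.FB
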