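import Pool.Agent.D0H82.FB.DC1

set_option autoImplicit false

/-! The diagonal sum against the product of zeta values, one block fixed: conclusion. -/

namespace Pool.Agent.D0H82.FB

open Complex Filter Topology MeasureTheory Set
open Pool.Agent.TH612.CF
open Pool.Agent.TH612.GS
open Pool.Agent.W182.KO
open Pool.Agent.D0H82.SR

noncomputable section

variable {k : ℕ}

/-- the smoothed diagonal sum against the arithmetic factor times the row products -/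
theorem DFb (hT : S_TMV) (k : ℕ) {ε : ℝ} (hε : 0 < ε) (hε1 : ε < 1) : ∃ C : ℝ, 0 < C ∧
    ∀ (T : ℝ) (X : ℕ) (β : Fin k → ℝ), 4 ≤ T → T ≤ X → (X : ℝ) ≤ 4 * T →
    ∫⁻ α, ENNReal.ofReal (‖(∑ n ∈ Finset.Icc 1 X, dr (Sum.elim α β : Fin k ⊕ Fin k → ℝ) n) -
      FH (fun j => (α j : ℂ)) (fun j => (β j : ℂ)) * ∏ j, Pp X α β j‖ ^ 2)
      ∂(mP (Fin k) T) ≤ ENNReal.ofReal (C * T ^ ε * T ^ k * T⁻¹) := by
  set η : ℝ := ε / 5 with hη
  have hη0 : 0 < η := by positivity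
  have hη1 : η < 1 / 5 := by rw [hη]; linarith
  obtain ⟨C0, hC0, h0⟩ := Gq_bd k (ε := η / 2) (by positivity)
  obtain ⟨K, hK0, hK⟩ := gm_sum (C := C0) (ε := η / 2) (s := 1 / 2 + η) hC0.le (by linarith)
  obtain ⟨C1, hC1, h1⟩ := PWb hT k hη0 (by linarith)
  obtain ⟨C2, hC2, h2⟩ := FH_tail k hη0 (by linarith)
  obtain ⟨C3, hC3, h3⟩ := logpow (k * k * 2) hη0
  refine ⟨2 * (K * (K * (C1 * 2) * 4)) + 2 * (C2 ^ 2 * C3 * 4), by positivity,
    fun T X β hT4 hX1 hX2 => ?_⟩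
  have hT0 : 0 < T := by linarith
  have hX : 1 ≤ X := by
    have : (0:ℝ) < X := by linarith
    exact_mod_cast this
  have hXr : (1:ℝ) ≤ X := by exact_mod_cast hX
  have hX0 : (0:ℝ) < X := by linarith
  have hlog : 0 ≤ Real.log X := Real.log_nonneg hXr
  -- exponents
  have hexp : ∀ a : ℝ, a ≤ 3 * η → (X : ℝ) ^ (-1 + a) ≤ 4 * T ^ (3 * η) * T⁻¹ := by
    intro a ha
    calc (X : ℝ) ^ (-1 + a) ≤ (X : ℝ) ^ (-1 + 3 * η) :=
          Real.rpow_le_rpow_of_exponent_le hXr (by linarith)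
      _ = (X : ℝ) ^ (3 * η) * (X : ℝ)⁻¹ := by
          rw [Real.rpow_add hX0, Real.rpow_neg_one]; ring
      _ ≤ (4 * T) ^ (3 * η) * T⁻¹ := by gcongr
      _ = 4 ^ (3 * η) * T ^ (3 * η) * T⁻¹ := by rw [Real.mul_rpow (by norm_num) hT0.le]
      _ ≤ 4 ^ (1 : ℝ) * T ^ (3 * η) * T⁻¹ := by
          gcongr
          · norm_num
          · linarith
      _ = _ := by rw [Real.rpow_one]
  have hTη : T ^ (2 * η) * T ^ (3 * η) = T ^ ε := by
    rw [← Real.rpow_add hT0]; congr 1; rw [hη]; ring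
  have hTη1 : 1 ≤ T ^ (2 * η) := Real.one_le_rpow (by linarith) (by positivity)
  set P : (Fin k → ℝ) → ℂ := fun α => ∏ j, Pp X α β j with hP
  set s : ℝ := 1 / 2 + η with hs
  have hPle : ∀ α : Fin k → ℝ, ‖P α‖ ^ 2 ≤ C3 * (X : ℝ) ^ η := by
    intro γ
    rw [hP]
    simp only
    rw [norm_prod]
    have h4 : ∏ j, ‖Pp X γ β j‖ ≤ ∏ _j : Fin k, (1 + Real.log X) ^ k :=
      Finset.prod_le_prod (fun _ _ => norm_nonneg _) fun j _ => Pp_le X _ _ j
    rw [Finset.prod_const, Finset.card_univ, Fintype.card_fin] at h4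
    calc _ ≤ (((1 + Real.log X) ^ k) ^ k) ^ 2 :=
          pow_le_pow_left₀ (Finset.prod_nonneg fun _ _ => norm_nonneg _) h4 2
      _ = (1 + Real.log X) ^ (k * k * 2) := by rw [← pow_mul, ← pow_mul]; congr 1; ring
      _ ≤ _ := h3 _ hXr
  -- pointwise bound
  have hpt : ∀ α : Fin k → ℝ, ENNReal.ofReal (‖(∑ n ∈ Finset.Icc 1 X,
      dr (Sum.elim α β : Fin k ⊕ Fin k → ℝ) n) -
      FH (fun j => (α j : ℂ)) (fun j => (β j : ℂ)) * P α‖ ^ 2) ≤
      (∑ d ∈ Finset.Icc 1 X, ENNReal.ofReal (2 * (K * (gm C0 (η / 2) d * (d : ℝ) ^ (s - 2)))) *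
        ENNReal.ofReal (‖WW (X / d) α β - P α‖ ^ 2)) +
      ENNReal.ofReal (2 * (C2 ^ 2 * C3 * (X : ℝ) ^ (-1 + 3 * η))) := by
    intro α
    have e0 := dr_sum (Sum.elim α β : Fin k ⊕ Fin k → ℝ) X
    rw [fs_elim, sd_elim] at e0
    have e1 : (∑ n ∈ Finset.Icc 1 X, dr (Sum.elim α β : Fin k ⊕ Fin k → ℝ) n) -
        FH (fun j => (α j : ℂ)) (fun j => (β j : ℂ)) * P α =
        (∑ d ∈ Finset.Icc 1 X, Gq α β d * (d : ℂ)⁻¹ * (WW (X / d) α β - P α)) +
        -((FH (fun j => (α j : ℂ)) (fun j => (β j : ℂ)) -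
          ∑ n ∈ Finset.Icc 1 X, Gq α β n * (n : ℂ)⁻¹) * P α) := by
      rw [e0]
      simp only [mul_sub, Finset.sum_sub_distrib]
      rw [← Finset.sum_mul]
      ring
    have h4 := sq_add_two
      (∑ d ∈ Finset.Icc 1 X, Gq α β d * (d : ℂ)⁻¹ * (WW (X / d) α β - P α))
      (-((FH (fun j => (α j : ℂ)) (fun j => (β j : ℂ)) -
          ∑ n ∈ Finset.Icc 1 X, Gq α β n * (n : ℂ)⁻¹) * P α))
    rw [← e1, norm_neg] at h4
    have h5 := cs_bd hC0.le (hK X) (fun d => Gq α β d)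
      (fun d => WW (X / d) α β - P α) (fun n => h0 α β n)
    have h6 : ‖(FH (fun j => (α j : ℂ)) (fun j => (β j : ℂ)) -
          ∑ n ∈ Finset.Icc 1 X, Gq α β n * (n : ℂ)⁻¹) * P α‖ ^ 2 ≤
        C2 ^ 2 * C3 * (X : ℝ) ^ (-1 + 3 * η) := by
      rw [norm_mul, mul_pow]
      calc _ ≤ (C2 * (X : ℝ) ^ (-(1 / 2) + η)) ^ 2 * (C3 * (X : ℝ) ^ η) := by
            gcongr
            · exact h2 α β X hX
            · exact hPle α
        _ = C2 ^ 2 * C3 * ((X : ℝ) ^ (-(1 / 2) + η) * (X : ℝ) ^ (-(1 / 2) + η) * (X : ℝ) ^ η) := by ring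
        _ = _ := by
            rw [← Real.rpow_add hX0, ← Real.rpow_add hX0]
            congr 2
            ring
    have h7 : (∑ d ∈ Finset.Icc 1 X, ENNReal.ofReal (2 * (K * (gm C0 (η / 2) d * (d : ℝ) ^ (s - 2)))) *
        ENNReal.ofReal (‖WW (X / d) α β - P α‖ ^ 2)) =
        ENNReal.ofReal (2 * (K * ∑ d ∈ Finset.Icc 1 X, gm C0 (η / 2) d * (d : ℝ) ^ (s - 2) *
          ‖WW (X / d) α β - P α‖ ^ 2)) := by
      rw [Finset.mul_sum, Finset.mul_sum, ENNReal.ofReal_sum_of_nonneg fun d _ => ?_]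
      · refine Finset.sum_congr rfl fun d _ => ?_
        have := gm_nonneg (ε := η / 2) hC0.le d
        rw [← ENNReal.ofReal_mul (by positivity)]
        congr 1
        ring
      · have := gm_nonneg (ε := η / 2) hC0.le d
        positivity
    rw [h7, ← ENNReal.ofReal_add ?_ (by positivity)]
    · exact ENNReal.ofReal_le_ofReal (by linarith)
    · refine mul_nonneg (by norm_num) (mul_nonneg hK0.le (Finset.sum_nonneg fun d _ => ?_))
      have := gm_nonneg (ε := η / 2) hC0.le d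
      positivity
  have hm : ∀ d : ℕ, Measurable fun α : Fin k → ℝ =>
      ENNReal.ofReal (‖WW (X / d) α β - P α‖ ^ 2) := fun d =>
    meas_sq' ((WW_cont1 (X / d) β).sub (continuous_finsetProd _ fun j _ => Pp_cont1 X β j))
  refine (lintegral_mono hpt).trans ?_
  rw [lintegral_add_right _ measurable_const, lintegral_const, mP_univ k hT0.le,
    lintegral_finsetSum _ fun d _ => (hm d).const_mul _]
  simp_rw [lintegral_const_mul _ (hm _)]
  have hA : ∀ d ∈ Finset.Icc 1 X, ENNReal.ofReal (2 * (K * (gm C0 (η / 2) d * (d : ℝ) ^ (s - 2)))) *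
      ∫⁻ α, ENNReal.ofReal (‖WW (X / d) α β - P α‖ ^ 2) ∂(mP (Fin k) T) ≤
      ENNReal.ofReal (2 * (K * (C1 * T ^ (2 * η) * T ^ k * (2 * (X : ℝ) ^ (-1 + 3 * η)))) *
        (gm C0 (η / 2) d * (d : ℝ) ^ (-s))) := by
    intro d hd
    obtain ⟨hd1, hd2⟩ := Finset.mem_Icc.1 hd
    obtain ⟨h4, h5⟩ := floor_ge hd1 hd2
    have hd0 : (0:ℝ) < d := by exact_mod_cast hd1
    have hg := gm_nonneg (ε := η / 2) hC0.le d
    have h6 := h1 T X (X / d) β hT4 hX1 h4 (Nat.div_le_self X d) hX2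
    have hy0 : (0:ℝ) < ((X / d : ℕ) : ℝ) := by exact_mod_cast h4
    have h7 : ((X / d : ℕ) : ℝ) ^ (-1 + η) ≤ 2 * d * (X : ℝ) ^ (-1 + η) := by
      have h8 : ((2 * d : ℝ) * ((X / d : ℕ) : ℝ)) ^ (-1 + η) ≤ (X : ℝ) ^ (-1 + η) :=
        Real.rpow_le_rpow_of_nonpos hX0 h5 (by linarith)
      rw [Real.mul_rpow (by positivity) hy0.le] at h8
      have h9 : 1 ≤ 2 * d * (2 * d : ℝ) ^ (-1 + η) := by
        have e : 2 * d * (2 * d : ℝ) ^ (-1 + η) = (2 * d : ℝ) ^ η := by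
          rw [Real.rpow_add (by positivity), Real.rpow_neg_one]
          field_simp
        rw [e]
        have hd1' : (1:ℝ) ≤ d := by exact_mod_cast hd1
        exact Real.one_le_rpow (by linarith) hη0.le
      calc ((X / d : ℕ) : ℝ) ^ (-1 + η) ≤ (2 * d * (2 * d : ℝ) ^ (-1 + η)) * ((X / d : ℕ) : ℝ) ^ (-1 + η) :=
            le_mul_of_one_le_left (by positivity) h9
        _ = 2 * d * ((2 * d : ℝ) ^ (-1 + η) * ((X / d : ℕ) : ℝ) ^ (-1 + η)) := by ring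
        _ ≤ _ := by gcongr
    have h10 : (d : ℝ) ^ (s - 2) * d ≤ (X : ℝ) ^ (2 * η) * (d : ℝ) ^ (-s) := by
      have e : (d : ℝ) ^ (s - 2) * d = (d : ℝ) ^ (2 * η) * (d : ℝ) ^ (-s) := by
        nth_rw 2 [← Real.rpow_one (d : ℝ)]
        rw [← Real.rpow_add hd0, ← Real.rpow_add hd0]
        congr 1
        rw [hs]; ring
      rw [e]
      have : (d : ℝ) ≤ X := by exact_mod_cast hd2
      gcongr
    calc _ ≤ ENNReal.ofReal (2 * (K * (gm C0 (η / 2) d * (d : ℝ) ^ (s - 2)))) *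
          ENNReal.ofReal (C1 * T ^ (2 * η) * T ^ k * ((X / d : ℕ) : ℝ) ^ (-1 + η)) := by gcongr
      _ = ENNReal.ofReal (2 * (K * (gm C0 (η / 2) d * (d : ℝ) ^ (s - 2))) *
          (C1 * T ^ (2 * η) * T ^ k * ((X / d : ℕ) : ℝ) ^ (-1 + η))) := by
          rw [← ENNReal.ofReal_mul (by positivity)]
      _ ≤ _ := by
          refine ENNReal.ofReal_le_ofReal ?_
          calc _ ≤ 2 * (K * (gm C0 (η / 2) d * (d : ℝ) ^ (s - 2))) *
                (C1 * T ^ (2 * η) * T ^ k * (2 * d * (X : ℝ) ^ (-1 + η))) := by gcongr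
            _ = 2 * (K * (C1 * T ^ (2 * η) * T ^ k * (2 * (X : ℝ) ^ (-1 + η)))) *
                (gm C0 (η / 2) d * ((d : ℝ) ^ (s - 2) * d)) := by ring
            _ ≤ 2 * (K * (C1 * T ^ (2 * η) * T ^ k * (2 * (X : ℝ) ^ (-1 + η)))) *
                (gm C0 (η / 2) d * ((X : ℝ) ^ (2 * η) * (d : ℝ) ^ (-s))) := by gcongr
            _ = 2 * (K * (C1 * T ^ (2 * η) * T ^ k * (2 * ((X : ℝ) ^ (-1 + η) * (X : ℝ) ^ (2 * η))))) *
                (gm C0 (η / 2) d * (d : ℝ) ^ (-s)) := by ring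
            _ = _ := by
                rw [← Real.rpow_add hX0]
                congr 6
                ring
  refine (add_le_add (Finset.sum_le_sum hA) le_rfl).trans ?_
  rw [← ENNReal.ofReal_sum_of_nonneg (fun d _ => by
      have := gm_nonneg (ε := η / 2) hC0.le d
      positivity), ← Finset.mul_sum, ← ENNReal.ofReal_mul (by positivity),
    ← ENNReal.ofReal_add (mul_nonneg (by positivity) (Finset.sum_nonneg fun d _ =>
      mul_nonneg (gm_nonneg hC0.le d) (by positivity))) (by positivity)]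
  refine ENNReal.ofReal_le_ofReal ?_
  have h5 := hexp (3 * η) le_rfl
  calc _ ≤ 2 * (K * (C1 * T ^ (2 * η) * T ^ k * (2 * (4 * T ^ (3 * η) * T⁻¹)))) * K +
        2 * (C2 ^ 2 * C3 * (4 * T ^ (3 * η) * T⁻¹)) * T ^ k := by
        gcongr
        · exact Finset.sum_nonneg fun d _ => mul_nonneg (gm_nonneg hC0.le d) (by positivity)
        · exact hK X
    _ ≤ 2 * (K * (C1 * T ^ (2 * η) * T ^ k * (2 * (4 * T ^ (3 * η) * T⁻¹)))) * K +
        T ^ (2 * η) * (2 * (C2 ^ 2 * C3 * (4 * T ^ (3 * η) * T⁻¹)) * T ^ k) :=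
        add_le_add le_rfl (le_mul_of_one_le_left (by positivity) hTη1)
    _ = (2 * (K * (K * (C1 * 2) * 4)) + 2 * (C2 ^ 2 * C3 * 4)) * (T ^ (2 * η) * T ^ (3 * η)) * T ^ k * T⁻¹ := by
        ring
    _ = _ := by rw [hTη]

/-- the blocks are separated from each other -/
def CS (k : ℕ) (T : ℝ) (α β : Fin k → ℝ) : Prop :=
  ∀ j l, T ^ (1 / 2 : ℝ) ≤ |α j - β l| ∧ |α j - β l| ≤ 5 / 4 * T

/-- the row products against the product of zeta values, pointwise -/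
theorem PZb (k : ℕ) {ε : ℝ} (hε : 0 < ε) : ∃ C T₀ : ℝ, 0 < C ∧ 4 ≤ T₀ ∧
    ∀ (T : ℝ) (X : ℕ), T₀ ≤ T → 5 / 2 * T ≤ X → (X : ℝ) ≤ 4 * T → ∀ α β : Fin k → ℝ, CS k T α β →
    ‖FH (fun j => (α j : ℂ)) (fun j => (β j : ℂ)) * ∏ j, Pp X α β j -
      zab (fun j => (α j : ℂ)) (fun j => (β j : ℂ))‖ ^ 2 ≤ C * T ^ ε * T⁻¹ := by
  obtain ⟨C1, T1, hC1, hT1, h1⟩ := one_approx
  obtain ⟨C2, hC2, h2⟩ := logpow (k * k * 2 + 2) hε
  refine ⟨BF k (1 / 8) ^ 2 * ((1 + C1) ^ (k * k * 2) * ((k : ℝ) * k) ^ 2 * C1 ^ 2 * (C2 * 4 ^ ε)) + 1,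
    max 4 T1, by positivity, le_max_left _ _, fun T X hT hX1 hX2 α β hγ => ?_⟩
  have hT4 : 4 ≤ T := (le_max_left _ _).trans hT
  have hTT1 : T1 ≤ T := (le_max_right _ _).trans hT
  have hT0 : 0 < T := by linarith
  have hX0 : (0:ℝ) < X := by linarith
  have hXr : (1:ℝ) ≤ X := by linarith
  have hlogT : 0 ≤ Real.log T := Real.log_nonneg (by linarith)
  have hlogX : Real.log T ≤ Real.log X := Real.log_le_log hT0 (by linarith)
  set L : ℝ := 1 + Real.log X with hL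
  have hL1 : 1 ≤ L := by rw [hL]; linarith
  have hTL : Real.log (5 / 4 * T) ≤ L := by
    have : Real.log (5 / 4 * T) ≤ Real.log X := Real.log_le_log (by positivity) (by linarith)
    rw [hL]; linarith
  set v : Fin k × Fin k → ℝ := fun x => α x.1 - β x.2 with hv
  have hsep : ∀ x, T ^ (1 / 2 : ℝ) ≤ |v x| ∧ |v x| ≤ 5 / 4 * T := fun x => hγ x.1 x.2
  have hT12 : 1 ≤ T ^ (1 / 2 : ℝ) := Real.one_le_rpow (by linarith) (by norm_num)
  have hap : ∀ x, ‖zN X (1 + I * (v x : ℝ)) - riemannZeta (1 + I * (v x : ℝ))‖ ≤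
      C1 * L * (T ^ (1 / 2 : ℝ))⁻¹ := by
    intro x
    have h3 := h1 (5 / 4 * T) X (v x) (by linarith) (by linarith) (by linarith)
      (hT12.trans (hsep x).1) (hsep x).2
    rw [norm_sub_rev]
    refine h3.trans ?_
    rw [div_eq_mul_inv]
    gcongr
    exact (hsep x).1
  have hzN : ∀ x, ‖zN X (1 + I * (v x : ℝ))‖ ≤ (1 + C1) * L := by
    intro x
    have h3 := Pool.Agent.TH811.GS.norm_zN_le X (v x)
    have : 0 ≤ C1 * L := by positivity
    have e : (1 + C1) * L = L + C1 * L := by ring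
    rw [e]
    linarith
  have hzt : ∀ x, ‖riemannZeta (1 + I * (v x : ℝ))‖ ≤ (1 + C1) * L := by
    intro x
    have h3 := Pool.Agent.TH811.GS.norm_zN_le X (v x)
    have h4 := hap x
    have h5 : C1 * L * (T ^ (1 / 2 : ℝ))⁻¹ ≤ C1 * L := by
      have : (T ^ (1 / 2 : ℝ))⁻¹ ≤ 1 := inv_le_one_of_one_le₀ hT12
      have h0 : 0 ≤ C1 * L := by positivity
      nlinarith
    have h6 : ‖riemannZeta (1 + I * (v x : ℝ))‖ ≤ ‖zN X (1 + I * (v x : ℝ))‖ +
        ‖zN X (1 + I * (v x : ℝ)) - riemannZeta (1 + I * (v x : ℝ))‖ := by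
      have := norm_sub_le (zN X (1 + I * (v x : ℝ)))
        (zN X (1 + I * (v x : ℝ)) - riemannZeta (1 + I * (v x : ℝ)))
      rwa [sub_sub_cancel] at this
    have e : (1 + C1) * L = L + C1 * L := by ring
    rw [e]
    linarith
  have hB1 : 1 ≤ (1 + C1) * L := by nlinarith
  have hd := prod_diff Finset.univ (fun x : Fin k × Fin k => zN X (1 + I * (v x : ℝ)))
    (fun x => riemannZeta (1 + I * (v x : ℝ))) hB1 hzN hzt
  rw [Finset.card_univ, Fintype.card_prod, Fintype.card_fin] at hd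
  have hd2 : ‖∏ x : Fin k × Fin k, zN X (1 + I * (v x : ℝ)) -
      ∏ x : Fin k × Fin k, riemannZeta (1 + I * (v x : ℝ))‖ ≤
      ((1 + C1) * L) ^ (k * k) * ((k : ℝ) * k * (C1 * L * (T ^ (1 / 2 : ℝ))⁻¹)) := by
    refine hd.trans ?_
    refine mul_le_mul_of_nonneg_left ?_ (by positivity)
    refine (Finset.sum_le_sum fun x _ => hap x).trans (le_of_eq ?_)
    rw [Finset.sum_const, Finset.card_univ, Fintype.card_prod, Fintype.card_fin, nsmul_eq_mul]
    push_cast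
    ring
  have e1 : ∏ j, Pp X α β j = ∏ x : Fin k × Fin k, zN X (1 + I * (v x : ℝ)) := by
    rw [Fintype.prod_prod_type]
    unfold Pp
    refine Finset.prod_congr rfl fun j _ => Finset.prod_congr rfl fun l _ => ?_
    rw [hv]
    push_cast
    rfl
  have e2 : zab (fun j => (α j : ℂ)) (fun j => (β j : ℂ)) =
      FH (fun j => (α j : ℂ)) (fun j => (β j : ℂ)) *
      ∏ x : Fin k × Fin k, riemannZeta (1 + I * (v x : ℝ)) := by
    unfold zab
    rw [Fintype.prod_prod_type]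
    congr 1
    refine Finset.prod_congr rfl fun j _ => Finset.prod_congr rfl fun l _ => ?_
    rw [hv]
    congr 1
    push_cast
    ring
  rw [e1, e2, ← mul_sub, norm_mul, mul_pow]
  have hF : ‖FH (fun j => (α j : ℂ)) (fun j => (β j : ℂ))‖ ≤ BF k (1 / 8) := by
    refine FH_le (by norm_num) fun j => ?_
    rw [Complex.ofReal_im, Complex.ofReal_im, abs_zero]
    norm_num
  have hTT : ((T ^ (1 / 2 : ℝ))⁻¹) ^ 2 = T⁻¹ := by
    rw [inv_pow, ← Real.rpow_natCast, ← Real.rpow_mul hT0.le]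
    norm_num
  have hLL : L ^ (k * k * 2 + 2) ≤ C2 * 4 ^ ε * T ^ ε := by
    calc L ^ (k * k * 2 + 2) ≤ C2 * (X : ℝ) ^ ε := h2 _ hXr
      _ ≤ C2 * (4 * T) ^ ε := by gcongr
      _ = _ := by rw [Real.mul_rpow (by norm_num) hT0.le]; ring
  calc _ ≤ BF k (1 / 8) ^ 2 * (((1 + C1) * L) ^ (k * k) *
        ((k : ℝ) * k * (C1 * L * (T ^ (1 / 2 : ℝ))⁻¹))) ^ 2 := by gcongr
    _ = BF k (1 / 8) ^ 2 * ((1 + C1) ^ (k * k * 2) * ((k : ℝ) * k) ^ 2 * C1 ^ 2 *
        L ^ (k * k * 2 + 2)) * T⁻¹ := by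
        rw [← hTT]
        have e3 : ((1 + C1) * L) ^ (k * k) = (1 + C1) ^ (k * k) * L ^ (k * k) := mul_pow _ _ _
        have e4 : (1 + C1) ^ (k * k * 2) = ((1 + C1) ^ (k * k)) ^ 2 := by rw [pow_mul]
        have e5 : L ^ (k * k * 2 + 2) = (L ^ (k * k)) ^ 2 * L ^ 2 := by rw [pow_add, pow_mul]
        rw [e3, e4, e5]
        ring
    _ ≤ BF k (1 / 8) ^ 2 * ((1 + C1) ^ (k * k * 2) * ((k : ℝ) * k) ^ 2 * C1 ^ 2 *
        (C2 * 4 ^ ε * T ^ ε)) * T⁻¹ := by gcongr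
    _ = (BF k (1 / 8) ^ 2 * ((1 + C1) ^ (k * k * 2) * ((k : ℝ) * k) ^ 2 * C1 ^ 2 *
        (C2 * 4 ^ ε))) * T ^ ε * T⁻¹ := by ring
    _ ≤ _ := by
        gcongr
        linarith

/-- the set of the first blocks separated from a given second block is closed -/
lemma CS_closed (k : ℕ) (T : ℝ) (β : Fin k → ℝ) : IsClosed {α : Fin k → ℝ | CS k T α β} := by
  have : {α : Fin k → ℝ | CS k T α β} =
      ⋂ j, ⋂ l, {α : Fin k → ℝ | T ^ (1 / 2 : ℝ) ≤ |α j - β l| ∧ |α j - β l| ≤ 5 / 4 * T} := by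
    ext α
    simp [CS]
  rw [this]
  refine isClosed_iInter fun j => isClosed_iInter fun l => ?_
  have hc : Continuous fun α : Fin k → ℝ => |α j - β l| := by fun_prop
  exact (isClosed_le continuous_const hc).inter (isClosed_le hc continuous_const)

/-- the diagonal sum against the product of zeta values, second block fixed -/
theorem DCb (hT : S_TMV) (k : ℕ) {ε : ℝ} (hε : 0 < ε) (hε1 : ε < 1) : ∃ C T₀ : ℝ, 0 < C ∧ 4 ≤ T₀ ∧
    ∀ (T : ℝ) (X : ℕ) (β : Fin k → ℝ), T₀ ≤ T → 5 / 2 * T ≤ X → (X : ℝ) ≤ 4 * T →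
    ∫⁻ α in {α : Fin k → ℝ | CS k T α β}, ENNReal.ofReal (‖SB X α β -
      zab (fun j => (α j : ℂ)) (fun j => (β j : ℂ))‖ ^ 2) ∂(mP (Fin k) T) ≤
      ENNReal.ofReal (C * T ^ ε * T ^ k * T⁻¹) := by
  obtain ⟨C1, hC1, h1⟩ := SDb_L2 hT k hε hε1
  obtain ⟨C2, hC2, h2⟩ := DFb hT k hε hε1
  obtain ⟨C3, T₀, hC3, hT₀, h3⟩ := PZb k hε
  refine ⟨3 * C1 + 3 * C2 + 3 * C3, T₀, by positivity, hT₀, fun T X β hT' hX1 hX2 => ?_⟩
  have hT4 : 4 ≤ T := hT₀.trans hT'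
  have hT0 : 0 < T := by linarith
  have hTX : T ≤ X := by linarith
  have hm1 : Measurable fun α : Fin k → ℝ =>
      ENNReal.ofReal (‖SB X α β - ∑ n ∈ Finset.Icc 1 X, dr (Sum.elim α β : Fin k ⊕ Fin k → ℝ) n‖ ^ 2) :=
    meas_sq' ((SB_cont X β).sub (continuous_finsetSum _ fun n _ => (dr_cont' n).comp (elim_cont β)))
  have hpt : ∀ α ∈ {α : Fin k → ℝ | CS k T α β}, ENNReal.ofReal (‖SB X α β -
      zab (fun j => (α j : ℂ)) (fun j => (β j : ℂ))‖ ^ 2) ≤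
      ENNReal.ofReal 3 * ENNReal.ofReal (‖SB X α β - ∑ n ∈ Finset.Icc 1 X,
        dr (Sum.elim α β : Fin k ⊕ Fin k → ℝ) n‖ ^ 2) +
      (ENNReal.ofReal 3 * ENNReal.ofReal (‖(∑ n ∈ Finset.Icc 1 X,
        dr (Sum.elim α β : Fin k ⊕ Fin k → ℝ) n) -
        FH (fun j => (α j : ℂ)) (fun j => (β j : ℂ)) * ∏ j, Pp X α β j‖ ^ 2) +
      ENNReal.ofReal (3 * (C3 * T ^ ε * T⁻¹))) := by
    intro α hα
    have h4 := sq_add_three (SB X α β - ∑ n ∈ Finset.Icc 1 X, dr (Sum.elim α β : Fin k ⊕ Fin k → ℝ) n)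
      ((∑ n ∈ Finset.Icc 1 X, dr (Sum.elim α β : Fin k ⊕ Fin k → ℝ) n) -
        FH (fun j => (α j : ℂ)) (fun j => (β j : ℂ)) * ∏ j, Pp X α β j)
      (FH (fun j => (α j : ℂ)) (fun j => (β j : ℂ)) * ∏ j, Pp X α β j -
        zab (fun j => (α j : ℂ)) (fun j => (β j : ℂ)))
    have e1 : SB X α β - ∑ n ∈ Finset.Icc 1 X, dr (Sum.elim α β : Fin k ⊕ Fin k → ℝ) n +
        ((∑ n ∈ Finset.Icc 1 X, dr (Sum.elim α β : Fin k ⊕ Fin k → ℝ) n) -
        FH (fun j => (α j : ℂ)) (fun j => (β j : ℂ)) * ∏ j, Pp X α β j) +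
      (FH (fun j => (α j : ℂ)) (fun j => (β j : ℂ)) * ∏ j, Pp X α β j -
        zab (fun j => (α j : ℂ)) (fun j => (β j : ℂ))) =
      SB X α β - zab (fun j => (α j : ℂ)) (fun j => (β j : ℂ)) := by ring
    rw [e1] at h4
    have h5 := h3 T X hT' hX1 hX2 α β hα
    rw [← ENNReal.ofReal_mul (by norm_num), ← ENNReal.ofReal_mul (by norm_num),
      ← ENNReal.ofReal_add (by positivity) (by positivity),
      ← ENNReal.ofReal_add (by positivity) (by positivity)]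
    exact ENNReal.ofReal_le_ofReal (by linarith)
  have hSm : MeasurableSet {α : Fin k → ℝ | CS k T α β} := (CS_closed k T β).measurableSet
  refine (setLIntegral_mono' hSm hpt).trans ?_
  refine (setLIntegral_le_lintegral _ _).trans ?_
  rw [lintegral_add_left (hm1.const_mul _), lintegral_add_right _ measurable_const,
    lintegral_const, mP_univ k hT0.le, lintegral_const_mul _ hm1,
    lintegral_const_mul' _ _ ENNReal.ofReal_ne_top, ← ENNReal.ofReal_mul (by positivity)]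
  calc _ ≤ ENNReal.ofReal 3 * ENNReal.ofReal (C1 * T ^ ε * T ^ k * T⁻¹) +
        (ENNReal.ofReal 3 * ENNReal.ofReal (C2 * T ^ ε * T ^ k * T⁻¹) +
          ENNReal.ofReal (3 * (C3 * T ^ ε * T⁻¹) * T ^ k)) := by
        gcongr
        · exact h1 T X β hT4 hTX hX2
        · exact h2 T X β hT4 hTX hX2
    _ = _ := by
        rw [← ENNReal.ofReal_mul (by norm_num), ← ENNReal.ofReal_mul (by norm_num),
          ← ENNReal.ofReal_add (by positivity) (by positivity),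
          ← ENNReal.ofReal_add (by positivity) (by positivity)]
        congr 1
        ring

end

end Pool.Agent.D0H82.FB
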