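import Pool.Agent.D0H82.FB.LM
import Pool.Agent.D0H82.FB.DC2

set_option autoImplicit false

/-! Complex conjugation: exchange of the two blocks. -/

namespace Pool.Agent.D0H82.FB

open Complex Filter Topology MeasureTheory Set
open Pool.Agent.TH612.CF
open Pool.Agent.TH612.GS
open Pool.Agent.W182.KO
open Pool.Agent.D0H82.SR

noncomputable section

variable {k : ℕ}

lemma tau_conj (l : Fin k → ℂ) (n : ℕ) :
    (starRingEnd ℂ) (tau l n) = tau (fun j => (starRingEnd ℂ) (l j)) n := by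
  unfold tau
  rw [map_sum]
  refine Finset.sum_congr rfl fun f _ => ?_
  rw [map_prod]
  exact Finset.prod_congr rfl fun j _ => conj_cpow_nat _ _

lemma tau_conj_pos (α : Fin k → ℝ) (n : ℕ) :
    (starRingEnd ℂ) (tau (fun l => I * (α l : ℂ)) n) = tau (fun l => -(I * (α l : ℂ))) n := by
  rw [tau_conj]
  congr 1
  funext l
  simp

lemma tau_conj_neg (α : Fin k → ℝ) (n : ℕ) :
    (starRingEnd ℂ) (tau (fun l => -(I * (α l : ℂ))) n) = tau (fun l => I * (α l : ℂ)) n := by
  rw [tau_conj]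
  congr 1
  funext l
  simp

lemma SA_conj (X : ℕ) (α β : Fin k → ℝ) : SA X α β = (starRingEnd ℂ) (SB X β α) := by
  unfold SA SB
  rw [map_sum]
  refine Finset.sum_congr rfl fun n _ => ?_
  rw [map_mul, map_mul, tau_conj_pos, map_inv₀, Complex.conj_natCast, map_prod]
  congr 1
  · ring
  · refine Finset.prod_congr rfl fun l _ => ?_
    rw [conj_cpow_nat]
    congr 1
    simp

lemma lt_conj (α β : Fin k → ℝ) (p m : ℕ) :
    (starRingEnd ℂ) (lt (fun j => (α j : ℂ)) (fun j => (β j : ℂ)) p m) =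
      lt (fun j => (β j : ℂ)) (fun j => (α j : ℂ)) p m := by
  unfold lt
  rw [map_mul, map_mul, tau_conj_pos, tau_conj_neg, map_inv₀, map_pow, Complex.conj_natCast]
  ring

lemma lh_conj (α β : Fin k → ℝ) (p : ℕ) :
    (starRingEnd ℂ) (lh (fun j => (α j : ℂ)) (fun j => (β j : ℂ)) p) =
      lh (fun j => (β j : ℂ)) (fun j => (α j : ℂ)) p := by
  unfold lh
  rw [map_mul, Function.LeftInverse.map_tsum (g := starRingEnd ℂ) (g' := starRingEnd ℂ) _
    Complex.continuous_conj Complex.continuous_conj (fun x => Complex.conj_conj x)]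
  simp only [lt_conj]
  congr 1
  rw [Finset.prod_comm, map_prod]
  refine Finset.prod_congr rfl fun j _ => ?_
  rw [map_prod]
  refine Finset.prod_congr rfl fun l _ => ?_
  rw [map_sub, map_one, conj_cpow_nat]
  congr 2
  simp only [map_neg, map_add, map_sub, map_mul, map_one, Complex.conj_I, Complex.conj_ofReal]
  ring

lemma FH_conj (α β : Fin k → ℝ) :
    (starRingEnd ℂ) (FH (fun j => (α j : ℂ)) (fun j => (β j : ℂ))) =
      FH (fun j => (β j : ℂ)) (fun j => (α j : ℂ)) := by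
  unfold FH
  rw [Function.LeftInverse.map_tprod (g := starRingEnd ℂ) (g' := starRingEnd ℂ) _
    Complex.continuous_conj Complex.continuous_conj (fun x => Complex.conj_conj x)]
  exact tprod_congr fun p => lh_conj α β p

lemma zab_conj (α β : Fin k → ℝ) :
    (starRingEnd ℂ) (zab (fun j => (α j : ℂ)) (fun j => (β j : ℂ))) =
      zab (fun j => (β j : ℂ)) (fun j => (α j : ℂ)) := by
  unfold zab
  rw [map_mul, FH_conj]
  congr 1
  rw [Finset.prod_comm, map_prod]
  refine Finset.prod_congr rfl fun j _ => ?_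
  rw [map_prod]
  refine Finset.prod_congr rfl fun l _ => ?_
  rw [← riemannZeta_conj]
  congr 1
  simp only [map_add, map_sub, map_mul, map_one, Complex.conj_I, Complex.conj_ofReal]
  ring

/-- the diagonal sum against the product of zeta values, first block fixed -/
theorem DCc (hT : S_TMV) (k : ℕ) {ε : ℝ} (hε : 0 < ε) (hε1 : ε < 1) : ∃ C T₀ : ℝ, 0 < C ∧ 4 ≤ T₀ ∧
    ∀ (T : ℝ) (X : ℕ) (α : Fin k → ℝ), T₀ ≤ T → 5 / 2 * T ≤ X → (X : ℝ) ≤ 4 * T →
    ∫⁻ β in {β : Fin k → ℝ | CS k T β α}, ENNReal.ofReal (‖SA X α β -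
      zab (fun j => (α j : ℂ)) (fun j => (β j : ℂ))‖ ^ 2) ∂(mP (Fin k) T) ≤
      ENNReal.ofReal (C * T ^ ε * T ^ k * T⁻¹) := by
  obtain ⟨C, T₀, hC, hT₀, h⟩ := DCb hT k hε hε1
  refine ⟨C, T₀, hC, hT₀, fun T X α hT' hX1 hX2 => ?_⟩
  have h1 := h T X α hT' hX1 hX2
  refine le_trans (le_of_eq ?_) h1
  refine lintegral_congr fun β => ?_
  congr 2
  rw [← Complex.norm_conj (SB X β α - _), map_sub, zab_conj, SA_conj]

end

end Pool.Agent.D0H82.FB
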