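import Pool.Agent.TH914.GF.TW
import Pool.Agent.D0H82.SR.C

set_option autoImplicit false

/-! The twisted integrals of a block: contour shift with horizontal integrals in mean square. -/

namespace Pool.Agent.D0H82.FB

open Complex Filter Topology MeasureTheory Set
open Pool.Agent.TH612.CF Pool.Agent.TH612.GS
open Pool.Agent.W182.KO hiding ee SS_summable
open Pool.Agent.TH914.GF (Fm Fm_half Fm_right Fm_norm Fm_diff zeta_bdd Fm_cont)
open Pool.Agent.D0H82.SR (sum_inv_bx prod_pos)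

noncomputable section

variable {k : ℕ}

/-- Cauchy-Schwarz -/
lemma csq {f : ℝ → ℝ} {a b : ℝ} (hab : a < b) (hf : IntervalIntegrable f volume a b)
    (hf2 : IntervalIntegrable (fun x => f x ^ 2) volume a b) :
    (∫ x in a..b, f x) ^ 2 ≤ (b - a) * ∫ x in a..b, f x ^ 2 := by
  set J : ℝ := ∫ x in a..b, f x with hJ
  set c : ℝ := J / (b - a) with hc
  have hba : 0 < b - a := by linarith
  have h1 : 0 ≤ ∫ x in a..b, (f x - c) ^ 2 :=
    intervalIntegral.integral_nonneg hab.le fun x _ => sq_nonneg _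
  have h2 : ∫ x in a..b, (f x - c) ^ 2 = (∫ x in a..b, f x ^ 2) - 2 * c * J + c ^ 2 * (b - a) := by
    have e : (fun x => (f x - c) ^ 2) = fun x => (f x ^ 2 - 2 * c * f x) + c ^ 2 := by
      funext x; ring
    rw [e, intervalIntegral.integral_add (hf2.sub (hf.const_mul _)) (by simp),
      intervalIntegral.integral_sub hf2 (hf.const_mul _), intervalIntegral.integral_const_mul,
      intervalIntegral.integral_const, smul_eq_mul]
    ring
  rw [h2] at h1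
  have h3 : c * (b - a) = J := by rw [hc]; field_simp
  have h4 : 0 ≤ (b - a) * ((∫ x in a..b, f x ^ 2) - 2 * c * J + c ^ 2 * (b - a)) :=
    mul_nonneg hba.le h1
  have h5 : (b - a) * ((∫ x in a..b, f x ^ 2) - 2 * c * J + c ^ 2 * (b - a)) =
      (b - a) * (∫ x in a..b, f x ^ 2) - 2 * (c * (b - a)) * J + (c * (b - a)) ^ 2 := by ring
  rw [h5, h3] at h4
  nlinarith

/-- the horizontal integrals -/
def HI (α : Fin k → ℝ) (m : ℕ) (η h : ℝ) : ℝ :=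
  ∫ x in (1 / 2 : ℝ)..(1 + η), ‖Fm α m ((x : ℂ) + (h : ℂ) * I)‖

lemma HI_nonneg (α : Fin k → ℝ) (m : ℕ) {η : ℝ} (hη : 0 < η) (h : ℝ) : 0 ≤ HI α m η h :=
  intervalIntegral.integral_nonneg (by linarith) fun x _ => norm_nonneg _

lemma Fm_contX (α : Fin k → ℝ) {m : ℕ} (hm : 1 ≤ m) {h : ℝ} (hh : ∀ j, 0 < h + α j) :
    Continuous fun x : ℝ => Fm α m ((x : ℂ) + (h : ℂ) * I) := by
  rw [continuous_iff_continuousAt]
  intro x
  have h1 : ContinuousAt (Fm α m) ((x : ℂ) + (h : ℂ) * I) :=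
    (Fm_diff α hm (fun j => by simpa using hh j)).continuousAt
  have h2 : ContinuousAt (fun x : ℝ => (x : ℂ) + (h : ℂ) * I) x := by fun_prop
  exact ContinuousAt.comp (f := fun x : ℝ => (x : ℂ) + (h : ℂ) * I) (g := Fm α m) h1 h2

lemma shiftH (α : Fin k → ℝ) {m : ℕ} (hm : 1 ≤ m) {η a S : ℝ} (hη : 0 < η) (haS : a ≤ S)
    (ha : ∀ j, 0 < a + α j) :
    ‖(∫ t in a..S, Fm α m (((1 / 2 : ℝ) : ℂ) + t * I)) -
      ∫ t in a..S, Fm α m (((1 + η : ℝ) : ℂ) + t * I)‖ ≤ HI α m η a + HI α m η S := by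
  have H := Complex.integral_boundary_rect_eq_zero_of_differentiableOn (Fm α m)
    (⟨1 / 2, a⟩ : ℂ) (⟨1 + η, S⟩ : ℂ) (by
      intro s hs
      refine (Fm_diff α hm ?_).differentiableWithinAt
      intro j
      have h2 : s.im ∈ Set.uIcc a S := hs.2
      rw [uIcc_of_le haS] at h2
      linarith [h2.1, ha j])
  simp only [smul_eq_mul] at H
  have hx : ∀ h : ℝ, ‖∫ x in (1 / 2 : ℝ)..(1 + η), Fm α m ((x : ℂ) + (h : ℂ) * I)‖ ≤ HI α m η h :=
    fun h => intervalIntegral.norm_integral_le_integral_norm (by linarith)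
  have h1 := hx a
  have h2 := hx S
  generalize (∫ x in (1 / 2 : ℝ)..(1 + η), Fm α m ((x : ℂ) + (a : ℂ) * I)) = X1 at H h1
  generalize (∫ x in (1 / 2 : ℝ)..(1 + η), Fm α m ((x : ℂ) + (S : ℂ) * I)) = X2 at H h2
  generalize (∫ t in a..S, Fm α m (((1 / 2 : ℝ) : ℂ) + t * I)) = P at H ⊢
  generalize (∫ t in a..S, Fm α m (((1 + η : ℝ) : ℂ) + t * I)) = Q at H ⊢
  have h3 : I * (P - Q) = X1 - X2 := by linear_combination -H
  have h4 : ‖P - Q‖ = ‖X1 - X2‖ := by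
    rw [← h3, norm_mul, Complex.norm_I, one_mul]
  rw [h4]
  calc ‖X1 - X2‖ ≤ ‖X1‖ + ‖X2‖ := norm_sub_le _ _
    _ ≤ _ := add_le_add h1 h2

theorem CT (hDS : S_DS) (k : ℕ) {η : ℝ} (hη : 0 < η) (hη1 : η ≤ 1) : ∃ C : ℝ, 0 < C ∧
    ∀ (α : Fin k → ℝ) (h₀ S : ℝ) (m : ℕ), 0 ≤ h₀ → (∀ j, 0 < h₀ + α j) → 0 ≤ S → 1 ≤ m →
    ‖cI α S m - S * (tau (fun j => -(I * (α j : ℂ))) m * (m : ℂ) ^ (-(1 / 2) : ℂ))‖ ≤
      (∫ t in (0:ℝ)..h₀, ‖AA α t‖) + (HI α m η h₀ + HI α m η (max h₀ S)) +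
        C * (1 + h₀) * (m : ℝ) ^ (1 / 2 + 2 * η) := by
  obtain ⟨C2, hC2, hds⟩ := hDS k η hη hη1
  obtain ⟨Z, hZ1, hZ⟩ := zeta_bdd (η := η) hη
  refine ⟨Z ^ k + C2, by positivity, fun α h₀ S m hh₀ hα hS0 hm => ?_⟩
  have hm1 : (1 : ℝ) ≤ m := by exact_mod_cast hm
  obtain ⟨c, hc⟩ : ∃ c : ℝ, c = min h₀ S := ⟨_, rfl⟩
  have hc0 : 0 ≤ c := by
    rw [hc]
    exact le_min hh₀ hS0
  have hca : c ≤ h₀ := by
    rw [hc]
    exact min_le_left _ _
  have hP : Continuous fun t : ℝ => Fm α m (((1 / 2 : ℝ) : ℂ) + t * I) :=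
    Fm_cont α hm (by norm_num)
  have hG : Continuous fun t : ℝ => Fm α m (((1 + η : ℝ) : ℂ) + t * I) :=
    Fm_cont α hm (by linarith)
  have hcI : cI α S m = ∫ t in (0 : ℝ)..S, Fm α m (((1 / 2 : ℝ) : ℂ) + t * I) := by
    unfold cI
    exact intervalIntegral.integral_congr fun t _ => (Fm_half α m t).symm
  -- the first part
  have E1 : ‖∫ t in (0 : ℝ)..c, Fm α m (((1 / 2 : ℝ) : ℂ) + t * I)‖ ≤
      ∫ t in (0:ℝ)..h₀, ‖AA α t‖ := by
    refine (intervalIntegral.norm_integral_le_integral_norm hc0).trans ?_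
    have e : ∀ t : ℝ, ‖Fm α m (((1 / 2 : ℝ) : ℂ) + t * I)‖ = ‖AA α t‖ := by
      intro t
      rw [Fm_half, norm_mul, Complex.norm_natCast_cpow_of_pos (by omega)]
      have : (I * (t : ℂ)).re = 0 := by simp
      rw [this, Real.rpow_zero, mul_one]
    simp only [e]
    exact intervalIntegral.integral_mono_interval le_rfl hc0 hca
      (Eventually.of_forall fun t => norm_nonneg _) ((AA_cont α).norm.intervalIntegrable _ _)
  -- the contour shift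
  have E2 : ‖(∫ t in c..S, Fm α m (((1 / 2 : ℝ) : ℂ) + t * I)) -
      ∫ t in c..S, Fm α m (((1 + η : ℝ) : ℂ) + t * I)‖ ≤
      HI α m η h₀ + HI α m η (max h₀ S) := by
    rcases le_or_gt S h₀ with h | h
    · have h1 : c = S := by rw [hc, min_eq_right h]
      rw [h1, intervalIntegral.integral_same, intervalIntegral.integral_same, sub_zero, norm_zero]
      exact add_nonneg (HI_nonneg α m hη _) (HI_nonneg α m hη _)
    · have h1 : c = h₀ := by rw [hc, min_eq_left h.le]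
      rw [h1, max_eq_right h.le]
      exact shiftH α hm hη h.le hα
  have hpow : (m : ℝ) ^ (1 / 2 + η) ≤ (m : ℝ) ^ (1 / 2 + 2 * η) :=
    Real.rpow_le_rpow_of_exponent_le hm1 (by linarith)
  -- the beginning of the other line
  have E3 : ‖∫ t in (0 : ℝ)..c, Fm α m (((1 + η : ℝ) : ℂ) + t * I)‖ ≤
      Z ^ k * h₀ * (m : ℝ) ^ (1 / 2 + 2 * η) := by
    have h1 := intervalIntegral.norm_integral_le_of_norm_le_const (a := (0 : ℝ)) (b := c)
      (f := fun t : ℝ => Fm α m (((1 + η : ℝ) : ℂ) + t * I))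
      (C := Z ^ k * (m : ℝ) ^ (1 / 2 + 2 * η))
      (fun t _ => by
        rw [Fm_norm α hm]
        have e : (1 + η - 1 / 2 : ℝ) = 1 / 2 + η := by ring
        rw [e]
        have h2 : ∏ j, ‖riemannZeta (((1 + η : ℝ) : ℂ) + I * ((t + α j : ℝ) : ℂ))‖ ≤ Z ^ k := by
          calc _ ≤ ∏ _j : Fin k, Z := Finset.prod_le_prod (fun _ _ => norm_nonneg _)
                fun j _ => hZ _ (by simp)
            _ = _ := by simp
        exact mul_le_mul h2 hpow (by positivity) (by positivity))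
    rw [sub_zero, abs_of_nonneg hc0] at h1
    calc ‖∫ t in (0 : ℝ)..c, Fm α m (((1 + η : ℝ) : ℂ) + t * I)‖
        ≤ Z ^ k * (m : ℝ) ^ (1 / 2 + 2 * η) * c := h1
      _ ≤ Z ^ k * (m : ℝ) ^ (1 / 2 + 2 * η) * h₀ := by gcongr
      _ = _ := by ring
  -- the main term
  have E4 : ‖(∫ t in (0 : ℝ)..S, Fm α m (((1 + η : ℝ) : ℂ) + t * I)) -
      S * (tau (fun j => -(I * (α j : ℂ))) m * (m : ℂ) ^ (-(1 / 2) : ℂ))‖ ≤
      C2 * (m : ℝ) ^ (1 / 2 + 2 * η) := by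
    have h1 := hds α 0 S m hS0 hm
    have h2 : (∫ t in (0 : ℝ)..S, Fm α m (((1 + η : ℝ) : ℂ) + t * I)) =
        ∫ t in (0 : ℝ)..S, (∏ j, riemannZeta (1 + (η : ℂ) + I * (t + α j))) *
          (m : ℂ) ^ (1 / 2 + (η : ℂ) + I * t : ℂ) :=
      intervalIntegral.integral_congr fun t _ => Fm_right α m η t
    rw [h2]
    simpa using h1
  rw [hcI]
  have e1 := intervalIntegral.integral_add_adjacent_intervals (hP.intervalIntegrable 0 c)
    (hP.intervalIntegrable (μ := volume) c S)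
  have e2 := intervalIntegral.integral_add_adjacent_intervals (hG.intervalIntegrable 0 c)
    (hG.intervalIntegrable (μ := volume) c S)
  rw [← e1]
  rw [← e2] at E4
  generalize (∫ t in (0 : ℝ)..c, Fm α m (((1 / 2 : ℝ) : ℂ) + t * I)) = P1 at E1 ⊢
  generalize (∫ t in c..S, Fm α m (((1 / 2 : ℝ) : ℂ) + t * I)) = P2 at E2 ⊢
  generalize (∫ t in (0 : ℝ)..c, Fm α m (((1 + η : ℝ) : ℂ) + t * I)) = G1 at E3 E4
  generalize (∫ t in c..S, Fm α m (((1 + η : ℝ) : ℂ) + t * I)) = G2 at E2 E4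
  generalize (S * (tau (fun j => -(I * (α j : ℂ))) m * (m : ℂ) ^ (-(1 / 2) : ℂ)) : ℂ) = X at E4 ⊢
  generalize HI α m η h₀ + HI α m η (max h₀ S) = Y at E2 ⊢
  generalize (∫ t in (0:ℝ)..h₀, ‖AA α t‖) = W at E1 ⊢
  have hW0 : 0 ≤ (m : ℝ) ^ (1 / 2 + 2 * η) := by positivity
  calc ‖P1 + P2 - X‖ = ‖P1 + (P2 - G2) - G1 + (G1 + G2 - X)‖ := by
        congr 1
        ring
    _ ≤ ‖P1 + (P2 - G2) - G1‖ + ‖G1 + G2 - X‖ := norm_add_le _ _
    _ ≤ ‖P1 + (P2 - G2)‖ + ‖G1‖ + ‖G1 + G2 - X‖ := by gcongr; exact norm_sub_le _ _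
    _ ≤ ‖P1‖ + ‖P2 - G2‖ + ‖G1‖ + ‖G1 + G2 - X‖ := by gcongr; exact norm_add_le _ _
    _ ≤ W + Y + Z ^ k * h₀ * (m : ℝ) ^ (1 / 2 + 2 * η) + C2 * (m : ℝ) ^ (1 / 2 + 2 * η) := by gcongr
    _ ≤ W + Y + Z ^ k * h₀ * (m : ℝ) ^ (1 / 2 + 2 * η) + C2 * (m : ℝ) ^ (1 / 2 + 2 * η) +
        (Z ^ k + C2 * h₀) * (m : ℝ) ^ (1 / 2 + 2 * η) := by
        have : 0 ≤ (Z ^ k + C2 * h₀) * (m : ℝ) ^ (1 / 2 + 2 * η) := by positivity
        linarith
    _ = _ := by ring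

/-- the mean square over a horizontal segment -/
def KH (α : Fin k → ℝ) (S η h : ℝ) : ℝ :=
  ∫ x in (1 / 2 : ℝ)..(1 + η), (∏ j, ‖riemannZeta (x + I * ((h + α j : ℝ) : ℂ))‖ ^ 2) * S ^ (2 * x - 1)

lemma z_contX {y : ℝ} (hy : 0 < y) : Continuous fun x : ℝ => riemannZeta (x + I * (y : ℂ)) := by
  rw [continuous_iff_continuousAt]
  intro x
  have h1 : ContinuousAt riemannZeta (x + I * (y : ℂ)) := by
    refine (differentiableAt_riemannZeta ?_).continuousAt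
    intro h
    have := congrArg Complex.im h
    simp at this
    linarith
  have h2 : ContinuousAt (fun x : ℝ => (x : ℂ) + I * (y : ℂ)) x := by fun_prop
  exact ContinuousAt.comp (f := fun x : ℝ => (x : ℂ) + I * (y : ℂ)) (g := riemannZeta) h1 h2

lemma KH_contX (α : Fin k → ℝ) {S h : ℝ} (hS : 0 < S) (hh : ∀ j, 0 < h + α j) :
    Continuous fun x : ℝ => (∏ j, ‖riemannZeta (x + I * ((h + α j : ℝ) : ℂ))‖ ^ 2) * S ^ (2 * x - 1) := by
  refine Continuous.mul ?_ ?_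
  · exact continuous_finsetProd _ fun j _ => (z_contX (hh j)).norm.pow 2
  · exact continuous_const.rpow (by fun_prop) (fun x => Or.inl hS.ne')

lemma HI_sq_le (α : Fin k → ℝ) {m : ℕ} {S η h : ℝ} (hm : 1 ≤ m) (hmS : (m : ℝ) ≤ S) (hη : 0 < η)
    (hh : ∀ j, 0 < h + α j) : HI α m η h ^ 2 ≤ (1 / 2 + η) * KH α S η h := by
  have hm1 : (1 : ℝ) ≤ m := by exact_mod_cast hm
  have hm0 : (0 : ℝ) < m := by linarith
  have hS : 0 < S := by linarith
  have hc := (Fm_contX α hm hh).norm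
  have h1 := csq (a := 1 / 2) (b := 1 + η) (by linarith) (hc.intervalIntegrable _ _)
    ((hc.pow 2).intervalIntegrable _ _)
  have e : 1 + η - 1 / 2 = 1 / 2 + η := by ring
  rw [e] at h1
  refine h1.trans (mul_le_mul_of_nonneg_left ?_ (by linarith))
  unfold KH
  refine intervalIntegral.integral_mono_on (by linarith) ((hc.pow 2).intervalIntegrable _ _)
    ((KH_contX α hS hh).intervalIntegrable _ _) fun x hx => ?_
  rw [Fm_norm α hm, mul_pow, ← Finset.prod_pow]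
  refine mul_le_mul_of_nonneg_left ?_ (Finset.prod_nonneg fun _ _ => by positivity)
  have h2 : ((m : ℝ) ^ (x - 1 / 2)) ^ 2 = (m : ℝ) ^ (2 * x - 1) := by
    rw [← Real.rpow_natCast, ← Real.rpow_mul hm0.le]
    congr 1
    push_cast
    ring
  rw [h2]
  exact Real.rpow_le_rpow hm0.le hmS (by linarith [hx.1])

lemma four_sq' (a b c d : ℝ) : (a + (b + c) + d) ^ 2 ≤ 4 * a ^ 2 + 4 * b ^ 2 + 4 * c ^ 2 + 4 * d ^ 2 := by
  nlinarith [sq_nonneg (a - b), sq_nonneg (a - c), sq_nonneg (a - d), sq_nonneg (b - c),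
    sq_nonneg (b - d), sq_nonneg (c - d)]

/-- the difference of the twisted integral and its main term -/
def gE (α : Fin k → ℝ) (S : ℝ) (m : ℕ) : ℂ :=
  cI α S m - S * (tau (fun j => -(I * (α j : ℂ))) m * (m : ℂ) ^ (-(1 / 2) : ℂ))

/-- the tuples with a small product -/
theorem SMs (hDS : S_DS) (k : ℕ) {η : ℝ} (hη : 0 < η) (hη1 : η ≤ 1) : ∃ C : ℝ, 0 < C ∧
    ∀ (α : Fin k → ℝ) (h₀ S : ℝ) (X : ℕ), 0 ≤ h₀ → (∀ j, 0 < h₀ + α j) → 1 ≤ S → 1 ≤ X →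
    ∑ b ∈ (bx k X).filter (fun b => ((∏ l, b l : ℕ) : ℝ) ≤ S),
      ((∏ l, b l : ℕ) : ℝ)⁻¹ * ‖gE α S (∏ l, b l)‖ ^ 2 ≤
      C * (1 + Real.log X) ^ k * ((∫ t in (0:ℝ)..h₀, ‖AA α t‖) ^ 2 + KH α S η h₀ +
        KH α S η (max h₀ S) + (1 + h₀) ^ 2 * S ^ (1 + 4 * η)) := by
  obtain ⟨C, hC, h⟩ := CT hDS k hη hη1
  refine ⟨6 + 4 * C ^ 2, by positivity, fun α h₀ S X hh₀ hα hS hX => ?_⟩
  have hS0 : 0 < S := by linarith
  have hα2 : ∀ j, 0 < max h₀ S + α j := fun j => by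
    have := hα j
    have := le_max_left h₀ S
    linarith
  have hKH : ∀ h : ℝ, 0 ≤ KH α S η h := fun h =>
    intervalIntegral.integral_nonneg (by linarith) fun x _ =>
      mul_nonneg (Finset.prod_nonneg fun _ _ => by positivity) (by positivity)
  set A : ℝ := ∫ t in (0:ℝ)..h₀, ‖AA α t‖ with hA
  set Q : ℝ := A ^ 2 + KH α S η h₀ + KH α S η (max h₀ S) + (1 + h₀) ^ 2 * S ^ (1 + 4 * η) with hQ
  have h1 : ∀ b ∈ (bx k X).filter (fun b => ((∏ l, b l : ℕ) : ℝ) ≤ S),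
      ((∏ l, b l : ℕ) : ℝ)⁻¹ * ‖gE α S (∏ l, b l)‖ ^ 2 ≤
      ((∏ l, b l : ℕ) : ℝ)⁻¹ * ((6 + 4 * C ^ 2) * Q) := by
    intro b hb
    obtain ⟨hb1, hb2⟩ := Finset.mem_filter.1 hb
    have hp := prod_pos hb1
    set m := ∏ l, b l with hm
    have hm1 : (1 : ℝ) ≤ m := by exact_mod_cast hp
    refine mul_le_mul_of_nonneg_left ?_ (by positivity)
    have h2 := h α h₀ S m hh₀ hα hS0.le hp
    have h3 := HI_sq_le α hp hb2 hη hα
    have h4 := HI_sq_le α hp hb2 hη hα2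
    have h5 : ‖gE α S m‖ ^ 2 ≤ 4 * A ^ 2 + 4 * HI α m η h₀ ^ 2 + 4 * HI α m η (max h₀ S) ^ 2 +
        4 * (C * (1 + h₀) * (m : ℝ) ^ (1 / 2 + 2 * η)) ^ 2 :=
      (pow_le_pow_left₀ (norm_nonneg _) h2 2).trans (four_sq' _ _ _ _)
    have h6 : ((m : ℝ) ^ (1 / 2 + 2 * η)) ^ 2 ≤ S ^ (1 + 4 * η) := by
      rw [← Real.rpow_natCast, ← Real.rpow_mul (by linarith)]
      have e : (1 / 2 + 2 * η) * ((2 : ℕ) : ℝ) = 1 + 4 * η := by push_cast; ring
      rw [e]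
      exact Real.rpow_le_rpow (by linarith) hb2 (by linarith)
    have h7 : (C * (1 + h₀) * (m : ℝ) ^ (1 / 2 + 2 * η)) ^ 2 ≤ C ^ 2 * ((1 + h₀) ^ 2 * S ^ (1 + 4 * η)) := by
      rw [mul_pow, mul_pow, mul_assoc]
      gcongr
    have k1 := hKH h₀
    have k2 := hKH (max h₀ S)
    have k3 : 0 ≤ (1 + h₀) ^ 2 * S ^ (1 + 4 * η) := by positivity
    have k4 : 0 ≤ C ^ 2 * A ^ 2 := by positivity
    have k5 : 0 ≤ C ^ 2 * KH α S η h₀ := by positivity
    have k6 : 0 ≤ C ^ 2 * KH α S η (max h₀ S) := by positivity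
    have k7 : (1 / 2 + η) * KH α S η h₀ ≤ 3 / 2 * KH α S η h₀ := by
      gcongr
      linarith
    have k8 : (1 / 2 + η) * KH α S η (max h₀ S) ≤ 3 / 2 * KH α S η (max h₀ S) := by
      gcongr
      linarith
    have k9 : 0 ≤ A ^ 2 := sq_nonneg _
    rw [hQ]
    nlinarith
  refine (Finset.sum_le_sum h1).trans ?_
  rw [← Finset.sum_mul]
  have hQ0 : 0 ≤ Q := by
    have k1 := hKH h₀
    have k2 := hKH (max h₀ S)
    rw [hQ]
    positivity
  have h2 : ∑ b ∈ (bx k X).filter (fun b => ((∏ l, b l : ℕ) : ℝ) ≤ S), ((∏ l, b l : ℕ) : ℝ)⁻¹ ≤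
      (1 + Real.log X) ^ k :=
    (Finset.sum_le_sum_of_subset_of_nonneg (Finset.filter_subset _ _) fun _ _ _ => by positivity).trans
      (sum_inv_bx k X)
  calc _ ≤ (1 + Real.log X) ^ k * ((6 + 4 * C ^ 2) * Q) :=
        mul_le_mul_of_nonneg_right h2 (by positivity)
    _ = _ := by ring

end

end Pool.Agent.D0H82.FB
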