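import Pool.Agent.D0H82.FB.Row
import Pool.Agent.D0H82.SR.L

set_option autoImplicit false

/-! The diagonal sum against the product of zeta values, one block fixed: mean squares. -/

namespace Pool.Agent.D0H82.FB

open Complex Filter Topology MeasureTheory Set
open Pool.Agent.TH612.CF
open Pool.Agent.TH612.GS
open Pool.Agent.W182.KO
open Pool.Agent.D0H82.SR

noncomputable section

variable {k : ℕ}

lemma elim_cont (β : Fin k → ℝ) : Continuous fun α : Fin k → ℝ => (Sum.elim α β : Fin k ⊕ Fin k → ℝ) := by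
  refine continuous_pi fun i => ?_
  cases i with
  | inl j => exact continuous_apply j
  | inr j => exact continuous_const

lemma meas_sq' {f : (Fin k → ℝ) → ℂ} (hf : Continuous f) :
    Measurable fun γ => ENNReal.ofReal (‖f γ‖ ^ 2) :=
  ((hf.norm.pow 2).measurable).ennreal_ofReal

/-- the diagonal sum: first block of length `X`, second block fixed -/
def SB (X : ℕ) (α β : Fin k → ℝ) : ℂ :=
  ∑ a ∈ bx k X, (((∏ l, a l : ℕ) : ℂ)⁻¹ * tau (fun l => I * (β l : ℂ)) (∏ l, a l)) *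
    ∏ l, ((a l : ℕ) : ℂ) ^ (-(I * (α l : ℂ)))

lemma SB_cont (X : ℕ) (β : Fin k → ℝ) : Continuous fun α : Fin k → ℝ => SB X α β := by
  unfold SB
  refine continuous_finsetSum _ fun a ha => continuous_const.mul ?_
  refine continuous_finsetProd _ fun l _ => ?_
  have : ((a l : ℕ) : ℂ) ≠ 0 := by
    have := bx_pos ha l
    exact_mod_cast (by omega : a l ≠ 0)
  exact Continuous.const_cpow (by fun_prop) (Or.inl this)

lemma SDb_eq (X : ℕ) (α β : Fin k → ℝ) :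
    SB X α β - ∑ n ∈ Finset.Icc 1 X, dr (Sum.elim α β : Fin k ⊕ Fin k → ℝ) n =
    ∑ a ∈ bx k X, (if X < ∏ l, a l then
      ((∏ l, a l : ℕ) : ℂ)⁻¹ * tau (fun l => I * (β l : ℂ)) (∏ l, a l) else 0) *
      ∏ l, ((a l : ℕ) : ℂ) ^ (-(I * (α l : ℂ))) := by
  have h1 : ∑ n ∈ Finset.Icc 1 X, dr (Sum.elim α β : Fin k ⊕ Fin k → ℝ) n =
      ∑ a ∈ (bx k X).filter (fun a => ∏ l, a l ≤ X), (((∏ l, a l : ℕ) : ℂ)⁻¹ *
        tau (fun l => I * (β l : ℂ)) (∏ l, a l)) *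
        ∏ l, ((a l : ℕ) : ℂ) ^ (-(I * (α l : ℂ))) := by
    rw [sum_fiber le_rfl]
    refine Finset.sum_congr rfl fun n hn => ?_
    have h2 : ∀ a ∈ Nat.finMulAntidiag k n, (((∏ l, a l : ℕ) : ℂ)⁻¹ *
        tau (fun l => I * (β l : ℂ)) (∏ l, a l)) *
        ∏ l, ((a l : ℕ) : ℂ) ^ (-(I * (α l : ℂ))) =
        ((n : ℂ)⁻¹ * tau (fun l => I * (β l : ℂ)) n) * ∏ l, ((a l : ℕ) : ℂ) ^ (-(I * (α l : ℂ))) := by
      intro a ha
      rw [(Nat.mem_finMulAntidiag.1 ha).1]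
    rw [Finset.sum_congr rfl h2, ← Finset.mul_sum, dr_A2, A2_apply, fs_elim, sd_elim]
    unfold tau
    ring
  rw [h1, Finset.sum_filter]
  unfold SB
  rw [← Finset.sum_sub_distrib]
  refine Finset.sum_congr rfl fun a _ => ?_
  by_cases h : ∏ l, a l ≤ X
  · rw [if_pos h, if_neg (by omega)]
    ring
  · rw [if_neg h, if_pos (by omega)]
    ring

/-- the sharp diagonal sum against the sum of the coefficients -/
theorem SDb_L2 (hT : S_TMV) (k : ℕ) {ε : ℝ} (hε : 0 < ε) (hε1 : ε < 1) : ∃ C : ℝ, 0 < C ∧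
    ∀ (T : ℝ) (X : ℕ) (β : Fin k → ℝ), 4 ≤ T → T ≤ X → (X : ℝ) ≤ 4 * T →
    ∫⁻ α, ENNReal.ofReal (‖SB X α β - ∑ n ∈ Finset.Icc 1 X, dr (Sum.elim α β : Fin k ⊕ Fin k → ℝ) n‖ ^ 2)
      ∂(mP (Fin k) T) ≤ ENNReal.ofReal (C * T ^ ε * T ^ k * T⁻¹) := by
  obtain ⟨C1, hC1, h1⟩ := TMVm hT k
  obtain ⟨C2, hC2, h2⟩ := tail_sum k (ε := ε / 2) (by positivity) (by linarith)
  obtain ⟨C3, hC3, h3⟩ := divpow (2 * k) (ε := ε / 2) (by positivity)
  refine ⟨4 * (C1 * (C3 * C2)), by positivity, fun T X β hT4 hX1 hX2 => ?_⟩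
  have hT0 : 0 < T := by linarith
  have hX : 1 ≤ X := by
    have : (0:ℝ) < X := by linarith
    exact_mod_cast this
  have hXr : (1:ℝ) ≤ X := by exact_mod_cast hX
  have hX0 : (0:ℝ) < X := by linarith
  simp only [SDb_eq]
  refine (h1 T X _ hT4 hX2).trans (ENNReal.ofReal_le_ofReal ?_)
  have h5 := h2 X X hXr
  have e1 : -1 + 2 * (ε / 2) = -1 + ε := by ring
  rw [e1] at h5
  have h7 : ∑ a ∈ bx k X, ‖(if X < ∏ l, a l then
      ((∏ l, a l : ℕ) : ℂ)⁻¹ * tau (fun l => I * (β l : ℂ)) (∏ l, a l) else 0)‖ ^ 2 ≤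
      C3 * (C2 * (X : ℝ) ^ (-1 + ε)) := by
    refine le_trans ?_ (mul_le_mul_of_nonneg_left h5 hC3.le)
    rw [Finset.sum_filter, Finset.mul_sum]
    refine Finset.sum_le_sum fun a ha => ?_
    have hp := prod_pos ha
    by_cases h : X < ∏ l, a l
    · have h' : (X : ℝ) < ((∏ l, a l : ℕ) : ℝ) := by exact_mod_cast h
      rw [if_pos h, if_pos h', norm_mul, mul_pow, norm_inv, Complex.norm_natCast]
      set n := ∏ l, a l with hn
      have hp0 : (0:ℝ) < n := by exact_mod_cast hp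
      have hta : ‖tau (fun l => I * (β l : ℂ)) n‖ ≤ (n.divisors.card : ℝ) ^ k := by
        have h7 : ‖tau (fun l => I * (β l : ℂ)) n‖ ≤ (n.divisors.card : ℝ) ^ k *
            (n : ℝ) ^ (0:ℝ) := tau_le (fun j => by simp) _
        rwa [Real.rpow_zero, mul_one] at h7
      calc ((n : ℝ)⁻¹) ^ 2 * ‖tau (fun l => I * (β l : ℂ)) n‖ ^ 2 ≤
            ((n : ℝ)⁻¹) ^ 2 * ((n.divisors.card : ℝ) ^ k) ^ 2 := by
            gcongr
        _ = (n : ℝ) ^ (-2 : ℝ) * (n.divisors.card : ℝ) ^ (2 * k) := by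
            rw [← pow_mul, mul_comm k 2]
            congr 1
            rw [inv_pow, ← Real.rpow_natCast, ← Real.rpow_neg hp0.le]
            norm_num
        _ ≤ (n : ℝ) ^ (-2 : ℝ) * (C3 * (n : ℝ) ^ (ε / 2)) := by
            gcongr
            exact h3 _ hp
        _ = C3 * ((n : ℝ) ^ (-2 : ℝ) * (n : ℝ) ^ (ε / 2)) := by ring
        _ = _ := by
            rw [← Real.rpow_add hp0]
    · rw [if_neg h, norm_zero]
      split_ifs
      · have : (0:ℝ) ≤ C3 * ((∏ l, a l : ℕ) : ℝ) ^ (-2 + ε / 2) := by positivity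
        simpa using this
      · simp
  have h6 : (X : ℝ) ^ (-1 + ε) ≤ 4 * T ^ ε * T⁻¹ := by
    calc (X : ℝ) ^ (-1 + ε) = (X : ℝ) ^ ε * (X : ℝ)⁻¹ := by
          rw [Real.rpow_add hX0, Real.rpow_neg_one]; ring
      _ ≤ (4 * T) ^ ε * T⁻¹ := by gcongr
      _ = 4 ^ ε * T ^ ε * T⁻¹ := by rw [Real.mul_rpow (by norm_num) hT0.le]
      _ ≤ 4 ^ (1 : ℝ) * T ^ ε * T⁻¹ := by
          gcongr
          norm_num
      _ = _ := by rw [Real.rpow_one]
  calc C1 * T ^ k * _ ≤ C1 * T ^ k * (C3 * (C2 * (4 * T ^ ε * T⁻¹))) := by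
        gcongr
        refine h7.trans ?_
        gcongr
    _ = _ := by ring

lemma Pp_cont1 (X : ℕ) (β : Fin k → ℝ) (j : Fin k) : Continuous fun α : Fin k → ℝ => Pp X α β j := by
  have h : Continuous ((fun γ : Fin k ⊕ Fin k → ℝ => Pp X (fs γ) (sd γ) j) ∘
    (fun α : Fin k → ℝ => (Sum.elim α β : Fin k ⊕ Fin k → ℝ))) := (Pp_cont X j).comp (elim_cont β)
  simpa only [Function.comp_def, fs_elim, sd_elim] using h

lemma Rr_cont1 (X : ℕ) (β : Fin k → ℝ) (j : Fin k) : Continuous fun α : Fin k → ℝ => Rr X α β j := by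
  have h : Continuous ((fun γ : Fin k ⊕ Fin k → ℝ => Rr X (fs γ) (sd γ) j) ∘
    (fun α : Fin k → ℝ => (Sum.elim α β : Fin k ⊕ Fin k → ℝ))) := (Rr_cont X j).comp (elim_cont β)
  simpa only [Function.comp_def, fs_elim, sd_elim] using h

lemma WW_cont1 (y : ℕ) (β : Fin k → ℝ) : Continuous fun α : Fin k → ℝ => WW y α β := by
  have h : Continuous ((fun γ : Fin k ⊕ Fin k → ℝ => WW y (fs γ) (sd γ)) ∘
    (fun α : Fin k → ℝ => (Sum.elim α β : Fin k ⊕ Fin k → ℝ))) := (WW_cont y).comp (elim_cont β)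
  simpa only [Function.comp_def, fs_elim, sd_elim] using h

/-- row products against truncated sums -/
theorem PWb (hT : S_TMV) (k : ℕ) {ε : ℝ} (hε : 0 < ε) (hε1 : ε < 1) : ∃ C : ℝ, 0 < C ∧
    ∀ (T : ℝ) (X y : ℕ) (β : Fin k → ℝ), 4 ≤ T → T ≤ X → 1 ≤ y → y ≤ X → (X : ℝ) ≤ 4 * T →
    ∫⁻ α, ENNReal.ofReal (‖WW y α β - ∏ j, Pp X α β j‖ ^ 2) ∂(mP (Fin k) T) ≤
      ENNReal.ofReal (C * T ^ (2 * ε) * T ^ k * (y : ℝ) ^ (-1 + ε)) := by
  obtain ⟨C1, hC1, h1⟩ := PRc k hε hε1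
  obtain ⟨C2, hC2, h2⟩ := RW_L2 hT k hε hε1
  obtain ⟨C3, hC3, h3⟩ := logpow (k * k * 2) hε
  refine ⟨2 * (C3 * 4 ^ ε * k * (k * (C1 * (4 ^ ε * 4)))) + 2 * C2, by positivity,
    fun T X y β hT4 hTX hy hyX hX2 => ?_⟩
  have hT0 : 0 < T := by linarith
  have hX : 1 ≤ X := hy.trans hyX
  have hXr : (1:ℝ) ≤ X := by exact_mod_cast hX
  have hX0 : (0:ℝ) < X := by linarith
  have hyr : (1:ℝ) ≤ y := by exact_mod_cast hy
  have hy0 : (0:ℝ) < y := by linarith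
  have hTe : 1 ≤ T ^ ε := Real.one_le_rpow (by linarith) hε.le
  set B : ℝ := (1 + Real.log X) ^ k with hB
  have hlog : 0 ≤ Real.log X := Real.log_nonneg hXr
  have hB1 : 1 ≤ B := one_le_pow₀ (by linarith)
  have hBk : (B ^ k) ^ 2 ≤ C3 * 4 ^ ε * T ^ ε := by
    calc (B ^ k) ^ 2 = (1 + Real.log X) ^ (k * k * 2) := by
          rw [hB, ← pow_mul, ← pow_mul]
          congr 1
          ring
      _ ≤ C3 * (X : ℝ) ^ ε := h3 _ hXr
      _ ≤ C3 * (4 * T) ^ ε := by gcongr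
      _ = _ := by rw [Real.mul_rpow (by norm_num) hT0.le]; ring
  have hyX' : (y : ℝ) ≤ X := by exact_mod_cast hyX
  have hTy : T⁻¹ * (X : ℝ) ^ ε ≤ 4 ^ ε * 4 * T ^ ε * (y : ℝ) ^ (-1 + ε) := by
    have g1 : T⁻¹ ≤ 4 * (y : ℝ)⁻¹ := by
      rw [inv_le_comm₀ hT0 (by positivity), mul_inv, inv_inv]
      linarith
    have g2 : (y : ℝ)⁻¹ ≤ (y : ℝ) ^ (-1 + ε) := by
      rw [← Real.rpow_neg_one]
      exact Real.rpow_le_rpow_of_exponent_le hyr (by linarith)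
    calc T⁻¹ * (X : ℝ) ^ ε ≤ (4 * (y : ℝ) ^ (-1 + ε)) * (4 * T) ^ ε := by
          gcongr
          exact g1.trans (by gcongr)
      _ = _ := by rw [Real.mul_rpow (by norm_num) hT0.le]; ring
  -- pointwise
  have hpt : ∀ α : Fin k → ℝ,
      ENNReal.ofReal (‖WW y α β - ∏ j, Pp X α β j‖ ^ 2) ≤
      (∑ j : Fin k, ENNReal.ofReal (2 * (C3 * 4 ^ ε * T ^ ε) * k) *
        ENNReal.ofReal (‖Pp X α β j - Rr X α β j‖ ^ 2)) +
      ENNReal.ofReal 2 * ENNReal.ofReal (‖∏ j, Rr X α β j - WW y α β‖ ^ 2) := by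
    intro α
    have e1 : WW y α β - ∏ j, Pp X α β j =
        -(∏ j, Pp X α β j - ∏ j, Rr X α β j) +
        -(∏ j, Rr X α β j - WW y α β) := by ring
    have h4 := sq_add_two (-(∏ j, Pp X α β j - ∏ j, Rr X α β j))
      (-(∏ j, Rr X α β j - WW y α β))
    rw [norm_neg, norm_neg, ← e1] at h4
    have h5 := prod_diff Finset.univ (fun j => Pp X α β j) (fun j => Rr X α β j)
      hB1 (fun j => Pp_le X _ _ j) (fun j => Rr_le X _ _ j)
    rw [Finset.card_univ, Fintype.card_fin] at h5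
    have h6 : ‖∏ j, Pp X α β j - ∏ j, Rr X α β j‖ ^ 2 ≤
        (C3 * 4 ^ ε * T ^ ε) * (k * ∑ j : Fin k, ‖Pp X α β j - Rr X α β j‖ ^ 2) := by
      have h8 : (∑ j : Fin k, ‖Pp X α β j - Rr X α β j‖) ^ 2 ≤
          k * ∑ j : Fin k, ‖Pp X α β j - Rr X α β j‖ ^ 2 := by
        have := sq_sum_le_card_mul_sum_sq (s := (Finset.univ : Finset (Fin k)))
          (f := fun j => ‖Pp X α β j - Rr X α β j‖)
        rwa [Finset.card_univ, Fintype.card_fin] at this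
      calc _ ≤ (B ^ k * ∑ j : Fin k, ‖Pp X α β j - Rr X α β j‖) ^ 2 :=
            pow_le_pow_left₀ (norm_nonneg _) h5 2
        _ = (B ^ k) ^ 2 * (∑ j : Fin k, ‖Pp X α β j - Rr X α β j‖) ^ 2 := by ring
        _ ≤ _ := by gcongr
    have h9 : (∑ j : Fin k, ENNReal.ofReal (2 * (C3 * 4 ^ ε * T ^ ε) * k) *
        ENNReal.ofReal (‖Pp X α β j - Rr X α β j‖ ^ 2)) +
      ENNReal.ofReal 2 * ENNReal.ofReal (‖∏ j, Rr X α β j - WW y α β‖ ^ 2) =
      ENNReal.ofReal (2 * (C3 * 4 ^ ε * T ^ ε) * k *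
        ∑ j : Fin k, ‖Pp X α β j - Rr X α β j‖ ^ 2 +
        2 * ‖∏ j, Rr X α β j - WW y α β‖ ^ 2) := by
      rw [ENNReal.ofReal_add (mul_nonneg (by positivity) (Finset.sum_nonneg fun _ _ => by positivity))
        (by positivity), ENNReal.ofReal_mul (by positivity : (0:ℝ) ≤ 2 * (C3 * 4 ^ ε * T ^ ε) * k),
        ENNReal.ofReal_sum_of_nonneg fun _ _ => by positivity, Finset.mul_sum,
        ENNReal.ofReal_mul (by norm_num : (0:ℝ) ≤ 2)]
    rw [h9]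
    refine ENNReal.ofReal_le_ofReal (h4.trans ?_)
    have h10 : 2 * (C3 * 4 ^ ε * T ^ ε) * k *
        ∑ j : Fin k, ‖Pp X α β j - Rr X α β j‖ ^ 2 =
        2 * ((C3 * 4 ^ ε * T ^ ε) * (k * ∑ j : Fin k, ‖Pp X α β j - Rr X α β j‖ ^ 2)) := by
      ring
    rw [h10]
    linarith
  have hm1 : ∀ j : Fin k, Measurable fun α : Fin k → ℝ =>
      ENNReal.ofReal (‖Pp X α β j - Rr X α β j‖ ^ 2) := fun j =>
    meas_sq' ((Pp_cont1 X β j).sub (Rr_cont1 X β j))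
  have hm2 : Measurable fun α : Fin k → ℝ =>
      ENNReal.ofReal (‖∏ j, Rr X α β j - WW y α β‖ ^ 2) :=
    meas_sq' ((continuous_finsetProd _ fun j _ => Rr_cont1 X β j).sub (WW_cont1 y β))
  refine (lintegral_mono hpt).trans ?_
  rw [lintegral_add_right _ (hm2.const_mul _), lintegral_finsetSum _ fun j _ => (hm1 j).const_mul _,
    lintegral_const_mul _ hm2]
  simp_rw [lintegral_const_mul _ (hm1 _)]
  calc _ ≤ (∑ _j : Fin k, ENNReal.ofReal (2 * (C3 * 4 ^ ε * T ^ ε) * k) *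
        ENNReal.ofReal (C1 * T ^ k * T⁻¹ * (X : ℝ) ^ ε)) +
      ENNReal.ofReal 2 * ENNReal.ofReal (C2 * T ^ k * (y : ℝ) ^ (-1 + ε)) := by
        gcongr with j _
        · exact h1 T X β j (by linarith) hTX
        · exact h2 T X y β hT4 hy hyX hX2
    _ = ENNReal.ofReal (k * (2 * (C3 * 4 ^ ε * T ^ ε) * k * (C1 * T ^ k * T⁻¹ * (X : ℝ) ^ ε)) +
        2 * (C2 * T ^ k * (y : ℝ) ^ (-1 + ε))) := by
        rw [Finset.sum_const, Finset.card_univ, Fintype.card_fin, nsmul_eq_mul,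
          ENNReal.ofReal_add (by positivity) (by positivity),
          ENNReal.ofReal_mul (by positivity : (0:ℝ) ≤ (k:ℝ)),
          ENNReal.ofReal_mul (by positivity : (0:ℝ) ≤ 2 * (C3 * 4 ^ ε * T ^ ε) * k),
          ENNReal.ofReal_mul (by norm_num : (0:ℝ) ≤ 2), ENNReal.ofReal_natCast]
    _ ≤ _ := by
        refine ENNReal.ofReal_le_ofReal ?_
        have e3 : T ^ (2 * ε) = T ^ ε * T ^ ε := by rw [← Real.rpow_add hT0]; congr 1; ring
        rw [e3]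
        have h11 : (k : ℝ) * (2 * (C3 * 4 ^ ε * T ^ ε) * k * (C1 * T ^ k * T⁻¹ * (X : ℝ) ^ ε)) ≤
            (k : ℝ) * (2 * (C3 * 4 ^ ε * T ^ ε) * k * (C1 * T ^ k *
              (4 ^ ε * 4 * T ^ ε * (y : ℝ) ^ (-1 + ε)))) := by
          have : C1 * T ^ k * T⁻¹ * (X : ℝ) ^ ε = C1 * T ^ k * (T⁻¹ * (X : ℝ) ^ ε) := by ring
          rw [this]
          gcongr
        have h12 : 2 * (C2 * T ^ k * (y : ℝ) ^ (-1 + ε)) ≤
            (T ^ ε * T ^ ε) * (2 * (C2 * T ^ k * (y : ℝ) ^ (-1 + ε))) :=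
          le_mul_of_one_le_left (by positivity) (one_le_mul_of_one_le_of_one_le hTe hTe)
        refine (add_le_add h11 h12).trans (le_of_eq ?_)
        ring

end

end Pool.Agent.D0H82.FB
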