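import Pool.Agent.D0H82.FB.KB
import Pool.Agent.D0H82.SR.Q

set_option autoImplicit false

/-! The final theorem: a partly fixed block. -/

namespace Pool.Agent.D0H82.FB

open Complex Filter Topology MeasureTheory Set
open Pool.Agent.TH612.CF
open Pool.Agent.TH612.GS
open Pool.Agent.W182.KO
open Pool.Agent.D0H82.SR (logpow mP_univ ev_pow)

noncomputable section

variable {r l : ℕ}

lemma app_cont (a : Fin r → ℝ) (j : Fin (r + l)) : Continuous fun x : Fin l → ℝ => Fin.append a x j := by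
  refine Fin.addCases (motive := fun j => Continuous fun x : Fin l → ℝ => Fin.append a x j)
    (fun i => ?_) (fun i => ?_) j
  · simp only [Fin.append_left]
    exact continuous_const
  · simp only [Fin.append_right]
    exact continuous_apply i

/-- the difference of the moment and the diagonal term -/
def Dx (a : Fin r → ℝ) (S : ℝ) (p : (Fin l → ℝ) × (Fin (r + l) → ℝ)) : ℂ :=
  (∫ t in (0:ℝ)..S, Zg (gab (Fin.append a p.1) p.2) t) -
    S * zab (fun j => ((Fin.append a p.1 j : ℝ) : ℂ)) (fun j => (p.2 j : ℂ))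

/-- the good set -/
def Gd (a : Fin r → ℝ) (T : ℝ) : Set ((Fin l → ℝ) × (Fin (r + l) → ℝ)) :=
  {p | (∀ i, 0 ≤ p.1 i ∧ p.1 i ≤ T) ∧ (∀ i, 0 ≤ p.2 i ∧ p.2 i ≤ T) ∧
    CS (r + l) T p.2 (Fin.append a p.1)}

lemma Gd_closed (a : Fin r → ℝ) (T : ℝ) : IsClosed (Gd (l := l) a T) := by
  have : Gd (l := l) a T = ((⋂ i, {p | 0 ≤ p.1 i ∧ p.1 i ≤ T}) ∩ (⋂ i, {p | 0 ≤ p.2 i ∧ p.2 i ≤ T})) ∩
      ⋂ j, ⋂ m, {p | T ^ (1 / 2 : ℝ) ≤ |p.2 j - Fin.append a p.1 m| ∧
        |p.2 j - Fin.append a p.1 m| ≤ 5 / 4 * T} := by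
    ext p
    simp [Gd, CS, and_assoc]
  rw [this]
  refine ((isClosed_iInter fun i => ?_).inter (isClosed_iInter fun i => ?_)).inter
    (isClosed_iInter fun j => isClosed_iInter fun m => ?_)
  · have hc : Continuous fun p : (Fin l → ℝ) × (Fin (r + l) → ℝ) => p.1 i := by fun_prop
    exact (isClosed_le continuous_const hc).inter (isClosed_le hc continuous_const)
  · have hc : Continuous fun p : (Fin l → ℝ) × (Fin (r + l) → ℝ) => p.2 i := by fun_prop
    exact (isClosed_le continuous_const hc).inter (isClosed_le hc continuous_const)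
  · have hc : Continuous fun p : (Fin l → ℝ) × (Fin (r + l) → ℝ) => |p.2 j - Fin.append a p.1 m| := by
      have := (app_cont (l := l) a m).comp (continuous_fst (X := Fin l → ℝ) (Y := Fin (r + l) → ℝ))
      exact (((continuous_apply j).comp continuous_snd).sub this).abs
    exact (isClosed_le continuous_const hc).inter (isClosed_le hc continuous_const)

lemma Dx_contOn (a : Fin r → ℝ) (S : ℝ) {T : ℝ} (hT : 0 < T) :
    ContinuousOn (Dx (l := l) a S) (Gd a T) := by
  have happ : ∀ j, Continuous fun p : (Fin l → ℝ) × (Fin (r + l) → ℝ) => Fin.append a p.1 j := fun j =>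
    (app_cont (l := l) a j).comp (continuous_fst (X := Fin l → ℝ) (Y := Fin (r + l) → ℝ))
  unfold Dx
  refine ContinuousOn.sub ?_ (continuousOn_const.mul ?_)
  · refine Continuous.continuousOn ?_
    refine intervalIntegral.continuous_parametric_intervalIntegral_of_continuous'
      (f := fun (p : (Fin l → ℝ) × (Fin (r + l) → ℝ)) (t : ℝ) => Zg (gab (Fin.append a p.1) p.2) t) ?_ 0 S
    unfold Function.uncurry
    simp only [Zg_AA]
    have h1 := (AAx_cont (l := l) a).comp (by fun_prop : Continuous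
      fun p : ((Fin l → ℝ) × (Fin (r + l) → ℝ)) × ℝ => (p.1.1, p.2))
    refine Continuous.mul h1 ?_
    exact continuous_finsetProd _ fun j _ => Complex.continuous_conj.comp (z_cont.comp (by fun_prop))
  · set U : Set ((Fin l → ℝ) × (Fin (r + l) → ℝ)) :=
      {p | ∀ j m : Fin (r + l), Fin.append a p.1 j ≠ p.2 m} with hU
    have hUo : IsOpen U := by
      have : U = ⋂ j : Fin (r + l), ⋂ m : Fin (r + l), {p | Fin.append a p.1 j ≠ p.2 m} := by
        ext p; simp [hU]
      rw [this]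
      exact isOpen_iInter_of_finite fun j => isOpen_iInter_of_finite fun m =>
        isOpen_ne_fun (happ j) (by fun_prop)
    have hsub : Gd a T ⊆ U := by
      intro p hp j m h
      have h1 := (hp.2.2 m j).1
      rw [h, sub_self, abs_zero] at h1
      have h2 : 0 < T ^ (1 / 2 : ℝ) := by positivity
      linarith
    refine ContinuousOn.mono ?_ hsub
    unfold zab
    refine ContinuousOn.mul ?_ ?_
    · refine FH_cont hUo (c := 1 / 8) (by norm_num)
        (fun j => (Complex.continuous_ofReal.comp (happ j)).continuousOn) (fun j => by fun_prop)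
        fun p _ j => ?_
      rw [Complex.ofReal_im, Complex.ofReal_im, abs_zero]
      norm_num
    · refine continuousOn_finsetProd _ fun j _ => continuousOn_finsetProd _ fun m _ => ?_
      have hc1 : Continuous fun p : (Fin l → ℝ) × (Fin (r + l) → ℝ) =>
          (1 + I * ((Fin.append a p.1 j : ℝ) : ℂ) - I * (p.2 m : ℂ) : ℂ) := by
        have g1 := Complex.continuous_ofReal.comp (happ j)
        have g2 : Continuous fun p : (Fin l → ℝ) × (Fin (r + l) → ℝ) => (p.2 m : ℂ) := by fun_prop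
        exact (continuous_const.add (continuous_const.mul g1)).sub (continuous_const.mul g2)
      refine zeta_cont hc1.continuousOn fun p hp => one_ne fun h => hp j m ?_
      exact Complex.ofReal_injective h

/-- the mean square over the good set -/
theorem MSx (hREPA : S_REPA) (hOQ : S_OQ) (hSM : S_SM) (hVQ : S_VQ) (hTMV : S_TMV) (hMVB : S_MVB)
    (hDS : S_DS) (l : ℕ) {r : ℕ} (hr : r ≤ 4) (a : Fin r → ℝ) {ε : ℝ} (hε : 0 < ε) (hε1 : ε < 1) :
    ∃ C T₀ : ℝ, 0 < C ∧ 4 ≤ T₀ ∧ ∀ T S : ℝ, T₀ ≤ T → 1 ≤ S → S ≤ T →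
    ∫⁻ p in Gd a T, ENNReal.ofReal (‖Dx (l := l) a S p‖ ^ 2)
      ∂((mP (Fin l) T).prod (mP (Fin (r + l)) T)) ≤
      ENNReal.ofReal (C * T ^ (2 * ε) * T ^ (r + l) * T ^ l * S ^ er r) := by
  set h₀ : ℝ := 1 + ∑ j, |a j| with hh₀
  have hs0 : 0 ≤ ∑ j, |a j| := Finset.sum_nonneg fun _ _ => abs_nonneg _
  have hh1 : 1 ≤ h₀ := by linarith
  have ha : ∀ j, 1 + |a j| ≤ h₀ := fun j => by
    have := Finset.single_le_sum (f := fun j => |a j|) (fun i _ => abs_nonneg (a i)) (Finset.mem_univ j)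
    rw [hh₀]
    linarith
  obtain ⟨C1, T1, hC1, hT1, h1⟩ := PA hREPA hOQ hSM hVQ hTMV hMVB hDS (r + l) hε hε1
    (η := ε / 16) (by positivity) (by linarith)
  obtain ⟨C2, T2, hC2, hT2, h2⟩ := BBav hSM l hr a hε hε1 hh1 ha
  refine ⟨C1 * C2, max T1 T2, by positivity, hT1.trans (le_max_left _ _), fun T S hT hS hST => ?_⟩
  have hTT1 : T1 ≤ T := (le_max_left _ _).trans hT
  have hTT2 : T2 ≤ T := (le_max_right _ _).trans hT
  have hT0 : 0 < T := by linarith
  have hGm : MeasurableSet (Gd (l := l) a T) := (Gd_closed a T).measurableSet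
  have hm : AEMeasurable (fun p => ENNReal.ofReal (‖Dx (l := l) a S p‖ ^ 2))
      (((mP (Fin l) T).prod (mP (Fin (r + l)) T)).restrict (Gd a T)) :=
    (((Dx_contOn a S hT0).norm.pow 2).aemeasurable hGm).ennreal_ofReal
  rw [← lintegral_indicator hGm, lintegral_prod _ ((aemeasurable_indicator_iff hGm).2 hm)]
  have hin : ∀ x : Fin l → ℝ, ∫⁻ β, (Gd (l := l) a T).indicator
      (fun p => ENNReal.ofReal (‖Dx (l := l) a S p‖ ^ 2)) (x, β) ∂(mP (Fin (r + l)) T) ≤
      ENNReal.ofReal (C1 * T ^ ε * T ^ (r + l)) * ENNReal.ofReal (BB (Fin.append a x) S (ε / 16) h₀) := by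
    intro x
    by_cases hx : ∀ i, 0 ≤ x i ∧ x i ≤ T
    · have hα : ∀ j, 0 < h₀ + Fin.append a x j := by
        intro j
        refine Fin.addCases (motive := fun j => 0 < h₀ + Fin.append a x j) (fun i => ?_) (fun i => ?_) j
        · rw [Fin.append_left]
          have g1 := ha i
          have g2 := neg_abs_le (a i)
          linarith
        · rw [Fin.append_right]
          have := (hx i).1
          linarith
      have g1 := h1 T S h₀ (Fin.append a x) hTT1 hS hST (by linarith) hα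
      rw [← ENNReal.ofReal_mul (by positivity)]
      refine le_trans ?_ g1
      rw [← lintegral_indicator (CS_closed (r + l) T (Fin.append a x)).measurableSet]
      refine lintegral_mono fun β => ?_
      by_cases h : (x, β) ∈ Gd a T
      · rw [indicator_of_mem h, indicator_of_mem (show β ∈ {β | CS (r + l) T β (Fin.append a x)} from h.2.2)]
        exact le_rfl
      · rw [indicator_of_notMem h]
        exact zero_le
    · have : ∀ β, (Gd (l := l) a T).indicator
          (fun p => ENNReal.ofReal (‖Dx (l := l) a S p‖ ^ 2)) (x, β) = 0 := by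
        intro β
        exact indicator_of_notMem (fun h => hx h.1) _
      simp only [this, lintegral_zero]
      exact zero_le
  refine (lintegral_mono hin).trans ?_
  rw [lintegral_const_mul' _ _ ENNReal.ofReal_ne_top]
  refine (mul_le_mul' le_rfl (h2 T S hTT2 hS hST)).trans ?_
  rw [← ENNReal.ofReal_mul (by positivity)]
  refine ENNReal.ofReal_le_ofReal (le_of_eq ?_)
  have e : T ^ (2 * ε) = T ^ ε * T ^ ε := by rw [← Real.rpow_add hT0]; congr 1; ring
  rw [e]
  ring

/-- a strip about a hyperplane in the second block -/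
lemma strip {k : ℕ} (j : Fin k) {T : ℝ} (hT : 0 ≤ T) (c w : ℝ) :
    mP (Fin k) T {β | |β j - c| < w} ≤ ENNReal.ofReal (T ^ (k - 1) * (2 * w)) := by
  have hms : MeasurableSet {u : ℝ | |u - c| < w} :=
    (isOpen_lt (by fun_prop) continuous_const).measurableSet
  have h1 := lint_coord j hT (F := ({u : ℝ | |u - c| < w}).indicator 1)
    (measurable_one.indicator hms)
  have hms2 : MeasurableSet {β : Fin k → ℝ | |β j - c| < w} := by
    have : {β : Fin k → ℝ | |β j - c| < w} = (fun β : Fin k → ℝ => β j) ⁻¹' {u : ℝ | |u - c| < w} := rfl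
    rw [this]
    exact (measurable_pi_apply j) hms
  have h2 : ∫⁻ α, ({u : ℝ | |u - c| < w}).indicator (1 : ℝ → ENNReal) (α j) ∂(mP (Fin k) T) =
      mP (Fin k) T {β | |β j - c| < w} := by
    rw [← lintegral_indicator_one hms2]
    rfl
  rw [← h2, h1, ENNReal.ofReal_mul (by positivity)]
  refine mul_le_mul' le_rfl ?_
  rw [lintegral_indicator_one hms]
  refine (Measure.restrict_apply_le _ _).trans ?_
  have h3 : {u : ℝ | |u - c| < w} = Metric.ball c w := by
    ext u
    rw [Metric.mem_ball, Real.dist_eq]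
    rfl
  rw [h3, Real.volume_ball]

/-- the non-separated pairs -/
lemma nsep (l : ℕ) {r : ℕ} (a : Fin r → ℝ) {T : ℝ} (hT : 0 < T) :
    ((mP (Fin l) T).prod (mP (Fin (r + l)) T))
      {p | ∃ j m, |p.2 j - Fin.append a p.1 m| < T ^ (1 / 2 : ℝ)} ≤
      ENNReal.ofReal (((r + l : ℕ) : ℝ) ^ 2 * (T ^ l * (T ^ (r + l - 1) * (2 * T ^ (1 / 2 : ℝ))))) := by
  have e : {p : (Fin l → ℝ) × (Fin (r + l) → ℝ) | ∃ j m, |p.2 j - Fin.append a p.1 m| < T ^ (1 / 2 : ℝ)} =
      ⋃ j, ⋃ m, {p | |p.2 j - Fin.append a p.1 m| < T ^ (1 / 2 : ℝ)} := by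
    ext p; simp
  rw [e]
  have h1 : ∀ j m : Fin (r + l), ((mP (Fin l) T).prod (mP (Fin (r + l)) T))
      {p | |p.2 j - Fin.append a p.1 m| < T ^ (1 / 2 : ℝ)} ≤
      ENNReal.ofReal (T ^ l * (T ^ (r + l - 1) * (2 * T ^ (1 / 2 : ℝ)))) := by
    intro j m
    have hms : MeasurableSet {p : (Fin l → ℝ) × (Fin (r + l) → ℝ) |
        |p.2 j - Fin.append a p.1 m| < T ^ (1 / 2 : ℝ)} := by
      have hc : Continuous fun p : (Fin l → ℝ) × (Fin (r + l) → ℝ) => |p.2 j - Fin.append a p.1 m| := by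
        have := (app_cont (l := l) a m).comp (continuous_fst (X := Fin l → ℝ) (Y := Fin (r + l) → ℝ))
        exact (((continuous_apply j).comp continuous_snd).sub this).abs
      exact (isOpen_lt hc continuous_const).measurableSet
    rw [Measure.prod_apply hms]
    calc ∫⁻ x, mP (Fin (r + l)) T (Prod.mk x ⁻¹' {p | |p.2 j - Fin.append a p.1 m| < T ^ (1 / 2 : ℝ)})
          ∂(mP (Fin l) T) ≤ ∫⁻ _x, ENNReal.ofReal (T ^ (r + l - 1) * (2 * T ^ (1 / 2 : ℝ))) ∂(mP (Fin l) T) :=
          lintegral_mono fun x => strip j hT.le (Fin.append a x m) _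
      _ = _ := by
          rw [lintegral_const, mP_univ l hT.le, mul_comm, ← ENNReal.ofReal_mul (by positivity)]
  refine (measure_iUnion_fintype_le _ _).trans ?_
  refine (Finset.sum_le_sum fun j _ => (measure_iUnion_fintype_le _ _).trans
    (Finset.sum_le_sum fun m _ => h1 j m)).trans (le_of_eq ?_)
  rw [Finset.sum_const, Finset.sum_const, Finset.card_univ, Fintype.card_fin, smul_smul,
    nsmul_eq_mul, ← ENNReal.ofReal_natCast, ← ENNReal.ofReal_mul (by positivity)]
  congr 1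
  push_cast
  ring

/-- the exceptional set -/
def BadF (a : Fin r → ℝ) (T S ε : ℝ) : Set ((Fin l → ℝ) × (Fin (r + l) → ℝ)) :=
  {p | (∀ i, 0 ≤ p.1 i ∧ p.1 i ≤ T) ∧ (∀ i, 0 ≤ p.2 i ∧ p.2 i ≤ T) ∧
    S ^ (er r / 2) * T ^ ε < ‖Dx a S p‖}

theorem FIN (hREPA : S_REPA) (hOQ : S_OQ) (hSM : S_SM) (hVQ : S_VQ) (hTMV : S_TMV) (hMVB : S_MVB)
    (hDS : S_DS) (l : ℕ) {r : ℕ} (hr0 : 1 ≤ r) (hr : r ≤ 4) (a : Fin r → ℝ) {ε : ℝ} (hε : 0 < ε)
    (hε1 : ε < 1 / 2) : ∃ T₀ : ℝ, ∀ T : ℝ, T₀ ≤ T → ∀ S : ℝ, 1 ≤ S → S ≤ T →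
      (volume : Measure ((Fin l → ℝ) × (Fin (r + l) → ℝ))) (BadF a T S ε) ≤
        ENNReal.ofReal (T ^ ((r : ℝ) + 2 * l - ε)) := by
  obtain ⟨C, T1, hC, hT1, h1⟩ := MSx hREPA hOQ hSM hVQ hTMV hMVB hDS l hr a (ε := ε / 4)
    (by positivity) (by linarith)
  obtain ⟨T2, hT2, h2⟩ := ev_pow (2 * C) (η := ε / 2) (by positivity)
  obtain ⟨T3, hT3, h3⟩ := ev_pow (4 * ((r + l : ℕ) : ℝ) ^ 2) (η := 1 / 2 - ε) (by linarith)
  refine ⟨max (max T1 T2) (max T3 (4 * ∑ j, |a j|)), fun T hT S hS hST => ?_⟩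
  have hTT1 : T1 ≤ T := ((le_max_left _ _).trans (le_max_left _ _)).trans hT
  have hTT2 : T2 ≤ T := ((le_max_right _ _).trans (le_max_left _ _)).trans hT
  have hTT3 : T3 ≤ T := ((le_max_left _ _).trans (le_max_right _ _)).trans hT
  have hTTa : 4 * ∑ j, |a j| ≤ T := ((le_max_right _ _).trans (le_max_right _ _)).trans hT
  have hT4 : 4 ≤ T := hT1.trans hTT1
  have hT0 : 0 < T := by linarith
  have hT1' : 1 ≤ T := by linarith
  have hS0 : 0 < S := by linarith
  have haj : ∀ j, |a j| ≤ T / 4 := fun j => by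
    have := Finset.single_le_sum (f := fun j => |a j|) (fun i _ => abs_nonneg (a i)) (Finset.mem_univ j)
    linarith
  set μ : Measure ((Fin l → ℝ) × (Fin (r + l) → ℝ)) := (mP (Fin l) T).prod (mP (Fin (r + l)) T) with hμ
  have hvol : (volume : Measure ((Fin l → ℝ) × (Fin (r + l) → ℝ))) (BadF a T S ε) = μ (BadF a T S ε) := by
    rw [hμ, mP_eq, mP_eq, Measure.prod_restrict, ← Measure.volume_eq_prod, Measure.restrict_eq_self]
    intro p hp
    exact ⟨fun i _ => hp.1 i, fun i _ => hp.2.1 i⟩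
  rw [hvol]
  set lam : ℝ := S ^ (er r / 2) * T ^ ε with hlam
  have hlam0 : 0 < lam := by positivity
  have hsub : BadF (l := l) a T S ε ⊆ ({p | lam < ‖Dx (l := l) a S p‖} ∩ Gd (l := l) a T) ∪
      {p | ∃ j m, |p.2 j - Fin.append a p.1 m| < T ^ (1 / 2 : ℝ)} := by
    intro p hp
    by_cases h : ∃ j m, |p.2 j - Fin.append a p.1 m| < T ^ (1 / 2 : ℝ)
    · exact Or.inr h
    · refine Or.inl ⟨hp.2.2, hp.1, hp.2.1, fun j m => ⟨?_, ?_⟩⟩
      · push Not at h
        exact h j m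
      · have hj := hp.2.1 j
        refine Fin.addCases (motive := fun m => |p.2 j - Fin.append a p.1 m| ≤ 5 / 4 * T)
          (fun i => ?_) (fun i => ?_) m
        · rw [Fin.append_left]
          have g1 := abs_sub (p.2 j) (a i)
          have g2 := haj i
          rw [abs_of_nonneg hj.1] at g1
          linarith [hj.2]
        · rw [Fin.append_right, abs_le]
          have hi := hp.1 i
          constructor <;> linarith [hi.1, hi.2, hj.1, hj.2]
  refine (measure_mono hsub).trans ((measure_union_le _ _).trans ?_)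
  have hGm : MeasurableSet (Gd (l := l) a T) := (Gd_closed a T).measurableSet
  have hch := cheb (μ := μ.restrict (Gd a T)) (g := fun p => ‖Dx (l := l) a S p‖)
    (((Dx_contOn a S hT0).norm).aemeasurable hGm) hlam0 (h1 T S hTT1 hS hST)
  rw [Measure.restrict_apply' hGm] at hch
  have hns := nsep l a hT0
  have hls : lam ^ 2 = S ^ er r * T ^ (2 * ε) := by
    rw [hlam, mul_pow, ← Real.rpow_natCast, ← Real.rpow_natCast, ← Real.rpow_mul hS0.le,
      ← Real.rpow_mul hT0.le]
    congr 2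
    · push_cast; ring
    · push_cast; ring
  have eN : (T : ℝ) ^ ((r : ℝ) + 2 * l - ε) = T ^ (r + l) * T ^ l * T ^ (-ε) := by
    rw [← Real.rpow_natCast, ← Real.rpow_natCast, ← Real.rpow_add hT0, ← Real.rpow_add hT0]
    congr 1
    push_cast
    ring
  have b1 : C * T ^ (2 * (ε / 4)) * T ^ (r + l) * T ^ l * S ^ er r / lam ^ 2 ≤
      1 / 2 * (T ^ (r + l) * T ^ l * T ^ (-ε)) := by
    rw [hls]
    have g0 : 0 < S ^ er r := by positivity
    have g1 : C * T ^ (2 * (ε / 4)) * T ^ (r + l) * T ^ l * S ^ er r / (S ^ er r * T ^ (2 * ε)) =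
        C * T ^ (ε / 2) * (T ^ (2 * ε))⁻¹ * (T ^ (r + l) * T ^ l) := by
      have : 2 * (ε / 4) = ε / 2 := by ring
      rw [this]
      field_simp
    rw [g1, ← Real.rpow_neg hT0.le]
    have g2 : C * T ^ (ε / 2) * T ^ (-(2 * ε)) ≤ 1 / 2 * T ^ (-ε) := by
      have g3 := h2 T hTT2
      have g4 : T ^ (ε / 2) * T ^ (-(2 * ε)) * T ^ (ε / 2) = T ^ (-ε) := by
        rw [← Real.rpow_add hT0, ← Real.rpow_add hT0]
        congr 1
        ring
      rw [← g4]
      have g5 : 0 < T ^ (ε / 2) * T ^ (-(2 * ε)) := by positivity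
      calc C * T ^ (ε / 2) * T ^ (-(2 * ε)) = C * (T ^ (ε / 2) * T ^ (-(2 * ε))) := by ring
        _ ≤ (T ^ (ε / 2) / 2) * (T ^ (ε / 2) * T ^ (-(2 * ε))) := by
            gcongr
            linarith
        _ = _ := by ring
    calc _ ≤ 1 / 2 * T ^ (-ε) * (T ^ (r + l) * T ^ l) := by gcongr
      _ = _ := by ring
  have b2 : ((r + l : ℕ) : ℝ) ^ 2 * (T ^ l * (T ^ (r + l - 1) * (2 * T ^ (1 / 2 : ℝ)))) ≤
      1 / 2 * (T ^ (r + l) * T ^ l * T ^ (-ε)) := by
    have g3 := h3 T hTT3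
    obtain ⟨m, hm⟩ : ∃ m, r + l = m + 1 := ⟨r + l - 1, by omega⟩
    rw [hm, Nat.add_sub_cancel, pow_succ]
    rw [hm] at g3
    have g4 : T ^ (1 / 2 : ℝ) * T ^ (1 / 2 - ε) = T * T ^ (-ε) := by
      rw [← Real.rpow_add hT0]
      nth_rw 2 [← Real.rpow_one T]
      rw [← Real.rpow_add hT0]
      congr 1
      ring
    calc _ = 1 / 2 * (T ^ l * T ^ m * (T ^ (1 / 2 : ℝ) * (4 * ((m + 1 : ℕ) : ℝ) ^ 2))) := by ring
      _ ≤ 1 / 2 * (T ^ l * T ^ m * (T ^ (1 / 2 : ℝ) * T ^ (1 / 2 - ε))) := by gcongr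
      _ = _ := by rw [g4]; ring
  rw [eN]
  calc _ ≤ ENNReal.ofReal (1 / 2 * (T ^ (r + l) * T ^ l * T ^ (-ε))) +
        ENNReal.ofReal (1 / 2 * (T ^ (r + l) * T ^ l * T ^ (-ε))) :=
        add_le_add (hch.trans (ENNReal.ofReal_le_ofReal b1)) (hns.trans (ENNReal.ofReal_le_ofReal b2))
    _ = _ := by
        rw [← ENNReal.ofReal_add (by positivity) (by positivity)]
        congr 1
        ring

end

end Pool.Agent.D0H82.FB
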