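import Pool.Agent.D0H82.FB.AV

set_option autoImplicit false

/-! The bound for the average over the generic shifts of the partly fixed block. -/

namespace Pool.Agent.D0H82.FB

open Complex Filter Topology MeasureTheory Set
open Pool.Agent.TH612.CF
open Pool.Agent.TH612.GS
open Pool.Agent.D0H82.SR (logpow mP_univ)

noncomputable section

variable {r l : ℕ}

lemma cx_le {σ : ℝ} (hσ : 1 / 2 ≤ σ) : cx σ ≤ 1 := by
  unfold cx
  exact max_le zero_le_one (by linarith)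

/-- the exponents -/
lemma exp_le {r : ℕ} (hr : r ≤ 4) {σ η : ℝ} (hη : 0 ≤ η) (h1 : 1 / 2 ≤ σ) (h2 : σ ≤ 1 + η) :
    2 * (r : ℝ) * cx σ + (2 * σ - 1) ≤ er r + 2 * η := by
  have he := er_ge r
  rcases le_or_gt σ 1 with h3 | h3
  · have e : cx σ = (1 - σ) / 3 := by
      unfold cx
      exact max_eq_right (by linarith)
    have h4 : (r : ℝ) / 3 ≤ er r := by
      unfold er
      interval_cases r <;> norm_num
    rw [e]
    have h5 : 2 * (r : ℝ) * ((1 - σ) / 3) + (2 * σ - 1) = (2 * (1 - σ)) * (r / 3) + (1 - 2 * (1 - σ)) * 1 := by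
      ring
    rw [h5]
    have h6 : 0 ≤ 2 * (1 - σ) := by linarith
    have h7 : 0 ≤ 1 - 2 * (1 - σ) := by linarith
    nlinarith
  · have e : cx σ = 0 := by
      unfold cx
      exact max_eq_left (by linarith)
    rw [e]
    linarith

/-- the mean square over a horizontal segment for the fixed block -/
theorem KHb {r : ℕ} (hr : r ≤ 4) (a : Fin r → ℝ) {δ h₀ : ℝ} (hδ : 0 < δ) (hh₀ : 1 ≤ h₀)
    (ha : ∀ j, 1 + |a j| ≤ h₀) : ∃ C : ℝ, 0 < C ∧ ∀ S η h : ℝ, 0 < η → η ≤ 1 → 1 ≤ S → h₀ ≤ h → h ≤ h₀ * S →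
    KH a S η h ≤ C * S ^ (er r + (2 * η + 2 * r * δ)) := by
  obtain ⟨C, hC1, hc⟩ := conv hδ
  have hC0 : 0 < C := by linarith
  refine ⟨2 * (C ^ (2 * r) * (2 * h₀) ^ (2 * r * (1 + δ) : ℝ)), by positivity,
    fun S η h hη hη1 hS h1 h2 => ?_⟩
  have hS0 : 0 < S := by linarith
  have hB : ∀ σ ∈ Icc (1 / 2 : ℝ) (1 + η), (∏ j, ‖riemannZeta (σ + I * ((h + a j : ℝ) : ℂ))‖ ^ 2) *
      S ^ (2 * σ - 1) ≤ (C ^ (2 * r) * (2 * h₀) ^ (2 * r * (1 + δ) : ℝ)) *
        S ^ (er r + (2 * η + 2 * r * δ)) := by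
    intro σ hσ
    have hcx0 := cx_nonneg σ
    have hcx1 := cx_le hσ.1
    have h3 : ∀ j, ‖riemannZeta (σ + I * ((h + a j : ℝ) : ℂ))‖ ^ 2 ≤
        (C * (2 * h₀ * S) ^ (cx σ + δ)) ^ 2 := by
      intro j
      have h4 := abs_le.1 (le_refl |a j|)
      have h5 := ha j
      have h6 : 1 ≤ h + a j := by linarith [h4.1]
      have h7 := hc σ (h + a j) hσ.1 (by rw [abs_of_nonneg (by linarith)]; exact h6)
      rw [mul_comm _ I] at h7
      refine pow_le_pow_left₀ (norm_nonneg _) (h7.trans ?_) 2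
      rw [abs_of_nonneg (by linarith)]
      have h8 : h + a j ≤ 2 * h₀ * S := by
        have : a j ≤ h := by linarith [h4.2]
        linarith
      gcongr
    calc _ ≤ (∏ _j : Fin r, (C * (2 * h₀ * S) ^ (cx σ + δ)) ^ 2) * S ^ (2 * σ - 1) := by
          refine mul_le_mul_of_nonneg_right ?_ (by positivity)
          exact Finset.prod_le_prod (fun _ _ => by positivity) fun j _ => h3 j
      _ = C ^ (2 * r) * ((2 * h₀) ^ (2 * r * (cx σ + δ) : ℝ) * S ^ (2 * r * (cx σ + δ) : ℝ)) *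
          S ^ (2 * σ - 1) := by
          rw [Finset.prod_const, Finset.card_univ, Fintype.card_fin, ← pow_mul, mul_pow,
            ← Real.rpow_natCast ((2 * h₀ * S) ^ (cx σ + δ)), ← Real.rpow_mul (by positivity)]
          have e : (cx σ + δ) * ((2 * r : ℕ) : ℝ) = 2 * r * (cx σ + δ) := by push_cast; ring
          rw [e, Real.mul_rpow (by positivity) hS0.le]
      _ = C ^ (2 * r) * (2 * h₀) ^ (2 * r * (cx σ + δ) : ℝ) *
          S ^ (2 * r * (cx σ + δ) + (2 * σ - 1) : ℝ) := by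
          rw [Real.rpow_add hS0]
          ring
      _ ≤ C ^ (2 * r) * (2 * h₀) ^ (2 * r * (1 + δ) : ℝ) * S ^ (er r + (2 * η + 2 * r * δ)) := by
          have g1 : (2 * h₀) ^ (2 * r * (cx σ + δ) : ℝ) ≤ (2 * h₀) ^ (2 * r * (1 + δ) : ℝ) := by
            refine Real.rpow_le_rpow_of_exponent_le (by linarith) ?_
            gcongr
          have g2 : S ^ (2 * r * (cx σ + δ) + (2 * σ - 1) : ℝ) ≤ S ^ (er r + (2 * η + 2 * r * δ)) := by
            refine Real.rpow_le_rpow_of_exponent_le hS ?_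
            have := exp_le hr hη.le hσ.1 hσ.2
            linarith
          gcongr
  have ha' : ∀ j, 0 < h + a j := by
    intro j
    have h4 := abs_le.1 (le_refl |a j|)
    have h5 := ha j
    linarith [h4.1]
  unfold KH
  have h3 : ∫ x in (1 / 2 : ℝ)..(1 + η), (∏ j, ‖riemannZeta (x + I * ((h + a j : ℝ) : ℂ))‖ ^ 2) *
      S ^ (2 * x - 1) ≤ ∫ _x in (1 / 2 : ℝ)..(1 + η), (C ^ (2 * r) * (2 * h₀) ^ (2 * r * (1 + δ) : ℝ)) *
        S ^ (er r + (2 * η + 2 * r * δ)) :=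
    intervalIntegral.integral_mono_on (by linarith) ((KH_contX a hS0 ha').intervalIntegrable _ _)
      (by simp) hB
  refine h3.trans ?_
  rw [intervalIntegral.integral_const, smul_eq_mul]
  have h4 : 1 + η - 1 / 2 ≤ 2 := by linarith
  calc _ ≤ 2 * ((C ^ (2 * r) * (2 * h₀) ^ (2 * r * (1 + δ) : ℝ)) *
        S ^ (er r + (2 * η + 2 * r * δ))) := by gcongr
    _ = _ := by ring

/-- the average -/
theorem BBav (hSM : S_SM) (l : ℕ) {r : ℕ} (hr : r ≤ 4) (a : Fin r → ℝ) {ε h₀ : ℝ} (hε : 0 < ε)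
    (hε1 : ε < 1) (hh₀ : 1 ≤ h₀) (ha : ∀ j, 1 + |a j| ≤ h₀) : ∃ C T₀ : ℝ, 0 < C ∧ 3 ≤ T₀ ∧
    ∀ T S : ℝ, T₀ ≤ T → 1 ≤ S → S ≤ T →
    ∫⁻ x, ENNReal.ofReal (BB (Fin.append a x) S (ε / 16) h₀) ∂(mP (Fin l) T) ≤
      ENNReal.ofReal (C * T ^ ε * T ^ l * S ^ er r) := by
  set η : ℝ := ε / 16 with hη
  set δ : ℝ := ε / 32 with hδ
  have hη0 : 0 < η := by positivity
  have hη1 : η ≤ 1 := by rw [hη]; linarith
  have hδ0 : 0 < δ := by positivity
  have hδ1 : δ ≤ 1 := by rw [hδ]; linarith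
  obtain ⟨C1, T1, hC1, hT1, h1⟩ := avJ hSM l
  obtain ⟨C2, T2, hC2, hT2, h2⟩ := avA hSM l
  obtain ⟨C3, hC3, h3⟩ := avK l
  obtain ⟨C4, hC4, h4⟩ := FM hr a (ε := ε / 4) (by positivity)
  obtain ⟨C5, hC5, h5⟩ := KHb hr a hδ0 hh₀ ha
  obtain ⟨C6, hC6, h6⟩ := logpow l (ε := ε / 4) (by positivity)
  set A0 : ℝ := ∫ t in (0:ℝ)..h₀, ‖AA a t‖ ^ 2 with hA0
  have hA0' : 0 ≤ A0 := intervalIntegral.integral_nonneg (by linarith) fun _ _ => by positivity
  refine ⟨C1 ^ l * C6 * C4 + h₀ * (C2 ^ l * C6 * A0) + 2 * (C3 ^ l * C6 * C5) + (1 + h₀) ^ 2,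
    max (max T1 T2) h₀, by positivity, (hT1.trans (le_max_left _ _)).trans (le_max_left _ _),
    fun T S hT hS hST => ?_⟩
  have hTT1 : T1 ≤ T := ((le_max_left _ _).trans (le_max_left _ _)).trans hT
  have hTT2 : T2 ≤ T := ((le_max_right _ _).trans (le_max_left _ _)).trans hT
  have hh₀T : h₀ ≤ T := (le_max_right _ _).trans hT
  have hT3 : 3 ≤ T := hT1.trans hTT1
  have hT0 : 0 < T := by linarith
  have hT1' : 1 ≤ T := by linarith
  have hS0 : 0 < S := by linarith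
  have hlog : 0 ≤ Real.log T := Real.log_nonneg hT1'
  have hh0 : 0 < h₀ := by linarith
  have ha' : ∀ j, 0 < h₀ + a j := by
    intro j
    have h4 := abs_le.1 (le_refl |a j|)
    have h5 := ha j
    linarith [h4.1]
  set h' : ℝ := max h₀ S with hh'
  have hh1 : h₀ ≤ h' := le_max_left _ _
  have hh2 : h' ≤ T := max_le hh₀T hST
  have hh3 : h' ≤ h₀ * S := max_le (le_mul_of_one_le_right hh0.le hS) (le_mul_of_one_le_left hS0.le hh₀)
  have ha'' : ∀ j, 0 < h' + a j := fun j => by linarith [ha' j]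
  -- box
  have hbox : ∫⁻ x, ENNReal.ofReal (BB (Fin.append a x) S η h₀) ∂(mP (Fin l) T) =
      ∫⁻ x, (ENNReal.ofReal (∫ t in (0:ℝ)..S, ‖AA (Fin.append a x) t‖ ^ 2) +
        (ENNReal.ofReal ((∫ t in (0:ℝ)..h₀, ‖AA (Fin.append a x) t‖) ^ 2) +
        (ENNReal.ofReal (KHc a x S η h₀) + (ENNReal.ofReal (KHc a x S η h') +
          ENNReal.ofReal ((1 + h₀) ^ 2 * S ^ (1 + 4 * η)))))) ∂(mP (Fin l) T) := by
    rw [mP_eq]
    refine setLIntegral_congr_fun (MeasurableSet.univ_pi fun _ => measurableSet_Icc) ?_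
    intro x hx
    have hx0 : ∀ j, 0 ≤ x j := fun j => (hx j (mem_univ j)).1
    have hK : ∀ h : ℝ, 0 ≤ KHc a x S η h := by
      intro h
      rw [← KHc_eq a x S η h hx0]
      exact intervalIntegral.integral_nonneg (by linarith) fun x _ =>
        mul_nonneg (Finset.prod_nonneg fun _ _ => by positivity) (by positivity)
    have k1 := hK h₀
    have k2 := hK h'
    have k3 : 0 ≤ ∫ t in (0:ℝ)..S, ‖AA (Fin.append a x) t‖ ^ 2 :=
      intervalIntegral.integral_nonneg hS0.le fun _ _ => by positivity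
    beta_reduce
    rw [← ENNReal.ofReal_add k2 (by positivity), ← ENNReal.ofReal_add k1 (by positivity),
      ← ENNReal.ofReal_add (sq_nonneg _) (by positivity), ← ENNReal.ofReal_add k3 (by positivity)]
    unfold BB
    rw [KHc_eq a x S η h₀ hx0, KHc_eq a x S η _ hx0]
    congr 1
    ring
  rw [hbox]
  have m1 : Measurable fun x : Fin l → ℝ => ENNReal.ofReal (∫ t in (0:ℝ)..S, ‖AA (Fin.append a x) t‖ ^ 2) :=
    (Jx_cont a S).measurable.ennreal_ofReal
  have m2 : Measurable fun x : Fin l → ℝ => ENNReal.ofReal ((∫ t in (0:ℝ)..h₀, ‖AA (Fin.append a x) t‖) ^ 2) :=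
    ((Ax_cont a h₀).pow 2).measurable.ennreal_ofReal
  have m3 : Measurable fun x : Fin l → ℝ => ENNReal.ofReal (KHc a x S η h₀) :=
    (KHc_cont a hS0 hh0 ha').measurable.ennreal_ofReal
  have m4 : Measurable fun x : Fin l → ℝ => ENNReal.ofReal (KHc a x S η h') :=
    (KHc_cont a hS0 (by linarith) ha'').measurable.ennreal_ofReal
  rw [lintegral_add_left m1, lintegral_add_left m2, lintegral_add_left m3, lintegral_add_left m4,
    lintegral_const, mP_univ l hT0.le, ← ENNReal.ofReal_mul (by positivity)]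
  -- the pieces
  have hlg : (T * (1 + Real.log T)) ^ l ≤ T ^ l * (C6 * T ^ (ε / 4)) := by
    rw [mul_pow]
    gcongr
    exact h6 T hT1'
  have hlg2 : ∀ C : ℝ, 0 < C → (C * T * Real.log T) ^ l ≤ C ^ l * (T ^ l * (C6 * T ^ (ε / 4))) := by
    intro C hC
    rw [mul_assoc, mul_pow]
    refine mul_le_mul_of_nonneg_left (le_trans ?_ hlg) (by positivity)
    gcongr
    linarith
  have hpow : ∀ κ : ℝ, 0 ≤ κ → κ ≤ 3 * ε / 4 → T ^ (ε / 4) * S ^ (er r + κ) ≤ T ^ ε * S ^ er r := by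
    intro κ hκ0 hκ
    calc T ^ (ε / 4) * S ^ (er r + κ) = T ^ (ε / 4) * (S ^ er r * S ^ κ) := by
          rw [Real.rpow_add hS0]
      _ ≤ T ^ (ε / 4) * (S ^ er r * T ^ κ) := by gcongr
      _ = T ^ (ε / 4 + κ) * S ^ er r := by rw [Real.rpow_add hT0]; ring
      _ ≤ _ := by
          refine mul_le_mul_of_nonneg_right (Real.rpow_le_rpow_of_exponent_le hT1' (by linarith))
            (by positivity)
  have hTS : 1 ≤ S ^ er r := Real.one_le_rpow hS (by linarith [er_ge r])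
  have P1 : (C1 * T * Real.log T) ^ l * ∫ t in (0:ℝ)..S, ‖AA a t‖ ^ 2 ≤
      C1 ^ l * C6 * C4 * (T ^ ε * T ^ l * S ^ er r) := by
    calc _ ≤ (C1 ^ l * (T ^ l * (C6 * T ^ (ε / 4)))) * (C4 * S ^ (er r + ε / 4)) := by
          gcongr
          · exact intervalIntegral.integral_nonneg hS0.le fun _ _ => by positivity
          · exact hlg2 C1 hC1
          · exact h4 S hS
      _ = C1 ^ l * C6 * C4 * T ^ l * (T ^ (ε / 4) * S ^ (er r + ε / 4)) := by ring
      _ ≤ C1 ^ l * C6 * C4 * T ^ l * (T ^ ε * S ^ er r) :=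
          mul_le_mul_of_nonneg_left (hpow (ε / 4) (by positivity) (by linarith)) (by positivity)
      _ = _ := by ring
  have P2 : h₀ * ((C2 * T * Real.log T) ^ l * A0) ≤
      h₀ * (C2 ^ l * C6 * A0) * (T ^ ε * T ^ l * S ^ er r) := by
    have g1 : T ^ (ε / 4) ≤ T ^ ε * S ^ er r := by
      calc T ^ (ε / 4) ≤ T ^ ε * 1 := by
            rw [mul_one]
            exact Real.rpow_le_rpow_of_exponent_le hT1' (by linarith)
        _ ≤ _ := by gcongr
    calc _ ≤ h₀ * ((C2 ^ l * (T ^ l * (C6 * T ^ (ε / 4)))) * A0) := by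
          gcongr
          exact hlg2 C2 hC2
      _ = h₀ * (C2 ^ l * C6 * A0) * T ^ l * T ^ (ε / 4) := by ring
      _ ≤ h₀ * (C2 ^ l * C6 * A0) * T ^ l * (T ^ ε * S ^ er r) := by gcongr
      _ = _ := by ring
  have P3 : ∀ h : ℝ, h₀ ≤ h → h ≤ h₀ * S → (C3 * (T * (1 + Real.log T))) ^ l * KH a S η h ≤
      C3 ^ l * C6 * C5 * (T ^ ε * T ^ l * S ^ er r) := by
    intro h g1 g2
    have g3 := h5 S η h hη0 hη1 hS g1 g2
    have hr4 : (r : ℝ) ≤ 4 := by exact_mod_cast hr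
    have g4 : 2 * η + 2 * r * δ ≤ 3 * ε / 4 := by
      rw [hη, hδ]
      nlinarith
    have g5 : 0 ≤ 2 * η + 2 * r * δ := by positivity
    calc _ = C3 ^ l * (T * (1 + Real.log T)) ^ l * KH a S η h := by rw [mul_pow]
      _ ≤ C3 ^ l * (T ^ l * (C6 * T ^ (ε / 4))) * (C5 * S ^ (er r + (2 * η + 2 * r * δ))) := by
          have g6 : 0 ≤ KH a S η h := intervalIntegral.integral_nonneg (by linarith) fun x _ =>
            mul_nonneg (Finset.prod_nonneg fun _ _ => by positivity) (by positivity)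
          exact mul_le_mul (mul_le_mul_of_nonneg_left hlg (by positivity)) g3 g6 (by positivity)
      _ = C3 ^ l * C6 * C5 * T ^ l * (T ^ (ε / 4) * S ^ (er r + (2 * η + 2 * r * δ))) := by ring
      _ ≤ C3 ^ l * C6 * C5 * T ^ l * (T ^ ε * S ^ er r) :=
          mul_le_mul_of_nonneg_left (hpow _ g5 g4) (by positivity)
      _ = _ := by ring
  have P4 : (1 + h₀) ^ 2 * S ^ (1 + 4 * η) * T ^ l ≤ (1 + h₀) ^ 2 * (T ^ ε * T ^ l * S ^ er r) := by
    have g1 : S ^ (1 + 4 * η) ≤ T ^ ε * S ^ er r := by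
      calc S ^ (1 + 4 * η) ≤ T ^ (ε / 4) * S ^ (er r + 4 * η) := by
            have g2 : S ^ (1 + 4 * η) ≤ S ^ (er r + 4 * η) :=
              Real.rpow_le_rpow_of_exponent_le hS (by linarith [er_ge r])
            have g3 : 1 ≤ T ^ (ε / 4) := Real.one_le_rpow hT1' (by positivity)
            exact g2.trans (le_mul_of_one_le_left (by positivity) g3)
        _ ≤ _ := hpow _ (by positivity) (by rw [hη]; linarith)
    calc _ ≤ (1 + h₀) ^ 2 * (T ^ ε * S ^ er r) * T ^ l := by gcongr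
      _ = _ := by ring
  have q1 := h1 r a T S hTT1 hS0.le hST
  have q2 := h2 r a T h₀ hTT2 hh0 hh₀T
  have q3 := h3 r a T S η h₀ hS0 hη0 hη1 hh₀ hh₀T ha'
  have q4 := h3 r a T S η h' hS0 hη0 hη1 (by linarith) hh2 ha''
  set W : ℝ := T ^ ε * T ^ l * S ^ er r with hW
  have hW0 : 0 ≤ W := by positivity
  calc _ ≤ ENNReal.ofReal (C1 ^ l * C6 * C4 * W) + (ENNReal.ofReal (h₀ * (C2 ^ l * C6 * A0) * W) +
        (ENNReal.ofReal (C3 ^ l * C6 * C5 * W) + (ENNReal.ofReal (C3 ^ l * C6 * C5 * W) +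
          ENNReal.ofReal ((1 + h₀) ^ 2 * W)))) := by
        refine add_le_add (q1.trans (ENNReal.ofReal_le_ofReal P1)) (add_le_add
          (q2.trans (ENNReal.ofReal_le_ofReal P2)) (add_le_add
          (q3.trans (ENNReal.ofReal_le_ofReal (P3 h₀ le_rfl (le_mul_of_one_le_right hh0.le hS))))
          (add_le_add (q4.trans (ENNReal.ofReal_le_ofReal (P3 h' hh1 hh3)))
          (ENNReal.ofReal_le_ofReal P4))))
    _ = _ := by
        rw [← ENNReal.ofReal_add (by positivity) (by positivity),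
          ← ENNReal.ofReal_add (by positivity) (by positivity),
          ← ENNReal.ofReal_add (by positivity) (by positivity),
          ← ENNReal.ofReal_add (by positivity) (by positivity)]
        congr 1
        rw [hW]
        ring

end

end Pool.Agent.D0H82.FB
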