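import Pool.Agent.D0H82.FB.CT
import Pool.Agent.D0H82.SR.J

set_option autoImplicit false

/-! The twisted integrals of a block: large products; the mean square over the other block. -/

namespace Pool.Agent.D0H82.FB

open Complex Filter Topology MeasureTheory Set
open Pool.Agent.TH612.CF Pool.Agent.TH612.GS
open Pool.Agent.W182.KO hiding ee SS_summable
open Pool.Agent.D0H82.SR (sum_inv_bx prod_pos prod_le_pow card_fiber divpow logpow tail_sum sq_add_two)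

noncomputable section

variable {k : ℕ}

lemma log_card {N : ℕ} (hN : 1 ≤ N) : ((Nat.log 2 N + 1 : ℕ) : ℝ) ≤ 2 * (1 + Real.log N) := by
  have h1 : 2 ^ Nat.log 2 N ≤ N := Nat.pow_log_le_self 2 (by omega)
  have h2 : ((2 : ℝ)) ^ Nat.log 2 N ≤ N := by exact_mod_cast h1
  have h3 : Real.log ((2 : ℝ) ^ Nat.log 2 N) ≤ Real.log N := Real.log_le_log (by positivity) h2
  rw [Real.log_pow] at h3
  have h4 := Real.log_two_gt_d9
  have h5 : (0:ℝ) ≤ Nat.log 2 N := by positivity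
  push_cast
  nlinarith

lemma dyad (hMVB : S_MVB) : ∃ C : ℝ, 0 < C ∧ ∀ (k : ℕ) (α : Fin k → ℝ) (S : ℝ) (N : ℕ), 1 ≤ S →
    1 ≤ N → ∑ m ∈ (Finset.Icc 1 N).filter (fun m : ℕ => S < (m : ℝ)), (m : ℝ)⁻¹ * ‖cI α S m‖ ^ 2 ≤
      C * (1 + Real.log N) ^ 2 * ∫ t in (0:ℝ)..S, ‖AA α t‖ ^ 2 := by
  obtain ⟨C, hC, h⟩ := hMVB
  refine ⟨6 * C, by positivity, fun k α S N hS hN => ?_⟩
  have hS0 : 0 < S := by linarith
  have hN1 : (1:ℝ) ≤ N := by exact_mod_cast hN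
  have hlog : 0 ≤ Real.log N := Real.log_nonneg hN1
  set J : ℝ := ∫ t in (0:ℝ)..S, ‖AA α t‖ ^ 2 with hJ
  have hJ0 : 0 ≤ J := intervalIntegral.integral_nonneg hS0.le fun _ _ => by positivity
  rw [← Finset.sum_fiberwise_of_maps_to (g := fun m : ℕ => Nat.log 2 m)
    (t := Finset.range (Nat.log 2 N + 1)) (fun m hm => by
      have h1 := (Finset.mem_Icc.1 (Finset.mem_filter.1 hm).1)
      exact Finset.mem_range.2 (Nat.lt_succ_of_le (Nat.log_mono_right h1.2)))]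
  have h1 : ∀ i ∈ Finset.range (Nat.log 2 N + 1),
      ∑ m ∈ ((Finset.Icc 1 N).filter (fun m : ℕ => S < (m : ℝ))).filter (fun m => Nat.log 2 m = i),
        (m : ℝ)⁻¹ * ‖cI α S m‖ ^ 2 ≤ 3 * C * (1 + Real.log N) * J := by
    intro i hi
    rcases (((Finset.Icc 1 N).filter (fun m : ℕ => S < (m : ℝ))).filter
      (fun m => Nat.log 2 m = i)).eq_empty_or_nonempty with h2 | ⟨m₀, hm₀⟩
    · rw [h2, Finset.sum_empty]
      positivity
    · obtain ⟨h3, h4⟩ := Finset.mem_filter.1 hm₀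
      obtain ⟨h5, h6⟩ := Finset.mem_filter.1 h3
      obtain ⟨h7, h8⟩ := Finset.mem_Icc.1 h5
      have h9 : m₀ < 2 ^ (i + 1) := by
        rw [← h4]
        exact Nat.lt_pow_succ_log_self (by norm_num) m₀
      have h10 : 2 ^ i ≤ N := by
        rw [← h4]
        exact (Nat.pow_log_le_self 2 (by omega)).trans h8
      have hM0 : (0:ℝ) < (2:ℝ) ^ i := by positivity
      have hSM : S ≤ 2 * 2 ^ i := by
        have : (m₀ : ℝ) < 2 ^ (i + 1) := by exact_mod_cast h9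
        rw [pow_succ] at this
        linarith
      have h11 : ∀ m ∈ ((Finset.Icc 1 N).filter (fun m : ℕ => S < (m : ℝ))).filter
          (fun m => Nat.log 2 m = i), (m : ℝ)⁻¹ * ‖cI α S m‖ ^ 2 ≤ ((2:ℝ) ^ i)⁻¹ * ‖cI α S m‖ ^ 2 := by
        intro m hm
        obtain ⟨g1, g2⟩ := Finset.mem_filter.1 hm
        have g3 := (Finset.mem_Icc.1 (Finset.mem_filter.1 g1).1)
        have g4 : 2 ^ i ≤ m := by
          rw [← g2]
          exact Nat.pow_log_le_self 2 (by omega)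
        have g5 : ((2:ℝ)) ^ i ≤ m := by exact_mod_cast g4
        gcongr
      refine (Finset.sum_le_sum h11).trans ?_
      rw [← Finset.mul_sum]
      have h12 : ∑ m ∈ ((Finset.Icc 1 N).filter (fun m : ℕ => S < (m : ℝ))).filter
          (fun m => Nat.log 2 m = i), ‖cI α S m‖ ^ 2 ≤
          ∑ m ∈ Finset.Icc (2 ^ i) (2 * 2 ^ i), ‖cI α S m‖ ^ 2 := by
        refine Finset.sum_le_sum_of_subset_of_nonneg ?_ fun _ _ _ => by positivity
        intro m hm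
        obtain ⟨g1, g2⟩ := Finset.mem_filter.1 hm
        have g3 := (Finset.mem_Icc.1 (Finset.mem_filter.1 g1).1)
        rw [Finset.mem_Icc]
        constructor
        · rw [← g2]
          exact Nat.pow_log_le_self 2 (by omega)
        · have : m < 2 ^ (i + 1) := by
            rw [← g2]
            exact Nat.lt_pow_succ_log_self (by norm_num) m
          rw [pow_succ] at this
          omega
      have h13 := h 0 S (2 ^ i) (AA α) hS0.le Nat.one_le_two_pow (AA_cont α)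
      have h14 : Real.log (2 * ((2 ^ i : ℕ) : ℝ)) ≤ 1 + Real.log N := by
        have g1 : ((2 ^ i : ℕ) : ℝ) ≤ N := by exact_mod_cast h10
        have g0 : (0:ℝ) < ((2 ^ i : ℕ) : ℝ) := by positivity
        rw [Real.log_mul (by norm_num) g0.ne']
        have g2 := Real.log_le_log g0 g1
        have := Real.log_two_lt_d9
        linarith
      calc ((2:ℝ) ^ i)⁻¹ * _ ≤ ((2:ℝ) ^ i)⁻¹ * (C * ((S - 0) + ((2 ^ i : ℕ) : ℝ) *
            Real.log (2 * ((2 ^ i : ℕ) : ℝ))) * J) := by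
            gcongr
            exact h12.trans h13
        _ ≤ ((2:ℝ) ^ i)⁻¹ * (C * ((2 * 2 ^ i - 0) + ((2 ^ i : ℕ) : ℝ) * (1 + Real.log N)) * J) := by
            gcongr
        _ = C * (3 + Real.log N) * J := by
            push_cast
            field_simp
            ring
        _ ≤ _ := by
            have : 0 ≤ C * J := by positivity
            nlinarith
  refine (Finset.sum_le_sum h1).trans ?_
  rw [Finset.sum_const, Finset.card_range, nsmul_eq_mul]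
  calc ((Nat.log 2 N + 1 : ℕ) : ℝ) * (3 * C * (1 + Real.log N) * J) ≤
        (2 * (1 + Real.log N)) * (3 * C * (1 + Real.log N) * J) := by
        gcongr
        exact log_card hN
    _ = _ := by ring

/-- the tuples with a large product -/
theorem LMs (hMVB : S_MVB) (k : ℕ) {ε : ℝ} (hε : 0 < ε) (hε1 : ε < 1) : ∃ C : ℝ, 0 < C ∧
    ∀ (α : Fin k → ℝ) (S : ℝ) (X : ℕ), 1 ≤ S → S ≤ X →
    ∑ b ∈ (bx k X).filter (fun b => S < ((∏ l, b l : ℕ) : ℝ)),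
      ((∏ l, b l : ℕ) : ℝ)⁻¹ * ‖gE α S (∏ l, b l)‖ ^ 2 ≤
      C * (X : ℝ) ^ ε * ((∫ t in (0:ℝ)..S, ‖AA α t‖ ^ 2) + S) := by
  classical
  obtain ⟨C0, hC0, h0⟩ := dyad hMVB
  obtain ⟨C1, hC1, h1⟩ := divpow k (ε := ε / (2 * (k + 1))) (by positivity)
  obtain ⟨C2, hC2, h2⟩ := tail_sum k (ε := ε / 2) (by positivity) (by linarith)
  obtain ⟨C3, hC3, h3⟩ := divpow (2 * k) (ε := ε / 2) (by positivity)
  obtain ⟨C4, hC4, h4⟩ := logpow 2 (ε := ε / 2) (by positivity)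
  refine ⟨2 * (C1 * (C0 * ((k + 1) ^ 2 * C4))) + 2 * (C3 * C2), by positivity,
    fun α S X hS hSX => ?_⟩
  have hS0 : 0 < S := by linarith
  have hXr : (1:ℝ) ≤ X := hS.trans hSX
  have hX : 1 ≤ X := by exact_mod_cast hXr
  have hX0 : (0:ℝ) < X := by linarith
  have hlogX : 0 ≤ Real.log X := Real.log_nonneg hXr
  set J : ℝ := ∫ t in (0:ℝ)..S, ‖AA α t‖ ^ 2 with hJ
  have hJ0 : 0 ≤ J := intervalIntegral.integral_nonneg hS0.le fun _ _ => by positivity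
  -- the split
  have hsp : ∀ b ∈ (bx k X).filter (fun b => S < ((∏ l, b l : ℕ) : ℝ)),
      ((∏ l, b l : ℕ) : ℝ)⁻¹ * ‖gE α S (∏ l, b l)‖ ^ 2 ≤
      2 * (((∏ l, b l : ℕ) : ℝ)⁻¹ * ‖cI α S (∏ l, b l)‖ ^ 2) +
      2 * (S ^ 2 * (C3 * ((∏ l, b l : ℕ) : ℝ) ^ (-2 + ε / 2))) := by
    intro b hb
    obtain ⟨hb1, hb2⟩ := Finset.mem_filter.1 hb
    have hp := prod_pos hb1
    set m := ∏ l, b l with hm
    have hm0 : (0 : ℝ) < m := by exact_mod_cast hp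
    have g1 := sq_add_two (cI α S m) (-(S * (tau (fun j => -(I * (α j : ℂ))) m *
      (m : ℂ) ^ (-(1 / 2) : ℂ))))
    rw [← sub_eq_add_neg, norm_neg] at g1
    have g2 : ‖S * (tau (fun j => -(I * (α j : ℂ))) m * (m : ℂ) ^ (-(1 / 2) : ℂ))‖ ^ 2 ≤
        S ^ 2 * ((m.divisors.card : ℝ) ^ (2 * k) * (m : ℝ)⁻¹) := by
      rw [norm_mul, norm_mul, mul_pow, mul_pow, norm_half hp, Complex.norm_real, Real.norm_eq_abs,
        sq_abs]
      have h7 : ‖tau (fun j => -(I * (α j : ℂ))) m‖ ≤ (m.divisors.card : ℝ) ^ k *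
          (m : ℝ) ^ (0:ℝ) := tau_le (fun j => by simp) _
      rw [Real.rpow_zero, mul_one] at h7
      have h8 : ‖tau (fun j => -(I * (α j : ℂ))) m‖ ^ 2 ≤ (m.divisors.card : ℝ) ^ (2 * k) := by
        calc _ ≤ ((m.divisors.card : ℝ) ^ k) ^ 2 := by gcongr
          _ = _ := by rw [← pow_mul, mul_comm k 2]
      gcongr
    have g3 : (m : ℝ)⁻¹ * (S ^ 2 * ((m.divisors.card : ℝ) ^ (2 * k) * (m : ℝ)⁻¹)) ≤
        S ^ 2 * (C3 * (m : ℝ) ^ (-2 + ε / 2)) := by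
      calc _ ≤ (m : ℝ)⁻¹ * (S ^ 2 * ((C3 * (m : ℝ) ^ (ε / 2)) * (m : ℝ)⁻¹)) := by
            gcongr
            exact h3 _ hp
        _ = S ^ 2 * (C3 * ((m : ℝ) ^ (-1 : ℝ) * (m : ℝ) ^ (-1 : ℝ) * (m : ℝ) ^ (ε / 2))) := by
            rw [Real.rpow_neg_one]; ring
        _ = _ := by
            rw [← Real.rpow_add hm0, ← Real.rpow_add hm0]
            norm_num
    have g4 : (m : ℝ)⁻¹ * ‖gE α S m‖ ^ 2 ≤ (m : ℝ)⁻¹ * (2 * ‖cI α S m‖ ^ 2 +
        2 * (S ^ 2 * ((m.divisors.card : ℝ) ^ (2 * k) * (m : ℝ)⁻¹))) := by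
      refine mul_le_mul_of_nonneg_left ?_ (by positivity)
      unfold gE
      linarith
    refine g4.trans ?_
    calc _ = 2 * ((m : ℝ)⁻¹ * ‖cI α S m‖ ^ 2) +
          2 * ((m : ℝ)⁻¹ * (S ^ 2 * ((m.divisors.card : ℝ) ^ (2 * k) * (m : ℝ)⁻¹))) := by ring
      _ ≤ _ := by linarith
  refine (Finset.sum_le_sum hsp).trans ?_
  rw [Finset.sum_add_distrib, ← Finset.mul_sum, ← Finset.mul_sum, ← Finset.mul_sum, ← Finset.mul_sum]
  -- the second part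
  have hB : S ^ 2 * (C3 * ∑ b ∈ (bx k X).filter (fun b => S < ((∏ l, b l : ℕ) : ℝ)),
      ((∏ l, b l : ℕ) : ℝ) ^ (-2 + ε / 2)) ≤ C3 * C2 * (X : ℝ) ^ ε * S := by
    have g1 := h2 X S hS
    have e1 : -1 + 2 * (ε / 2) = -1 + ε := by ring
    rw [e1] at g1
    have g2 : S ^ 2 * S ^ (-1 + ε) = S * S ^ ε := by
      rw [Real.rpow_add hS0, Real.rpow_neg_one]
      field_simp
    calc _ ≤ S ^ 2 * (C3 * (C2 * S ^ (-1 + ε))) := by gcongr
      _ = C3 * C2 * (S ^ 2 * S ^ (-1 + ε)) := by ring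
      _ = C3 * C2 * S ^ ε * S := by rw [g2]; ring
      _ ≤ _ := by gcongr
  -- the first part
  have hA : ∑ b ∈ (bx k X).filter (fun b => S < ((∏ l, b l : ℕ) : ℝ)),
      ((∏ l, b l : ℕ) : ℝ)⁻¹ * ‖cI α S (∏ l, b l)‖ ^ 2 ≤
      C1 * (C0 * ((k + 1) ^ 2 * C4)) * (X : ℝ) ^ ε * J := by
    have hN : 1 ≤ X ^ k := Nat.one_le_pow _ _ hX
    rw [← Finset.sum_fiberwise_of_maps_to (g := fun b : Fin k → ℕ => ∏ l, b l)
      (t := (Finset.Icc 1 (X ^ k)).filter (fun m : ℕ => S < (m : ℝ))) (fun b hb => by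
        obtain ⟨g1, g2⟩ := Finset.mem_filter.1 hb
        exact Finset.mem_filter.2 ⟨Finset.mem_Icc.2 ⟨prod_pos g1, prod_le_pow g1⟩, g2⟩)]
    have hX2 : (1:ℝ) ≤ ((X ^ k : ℕ) : ℝ) := by exact_mod_cast hN
    have g1 : ∀ m ∈ (Finset.Icc 1 (X ^ k)).filter (fun m : ℕ => S < (m : ℝ)),
        ∑ b ∈ ((bx k X).filter (fun b => S < ((∏ l, b l : ℕ) : ℝ))).filter (fun b => ∏ l, b l = m),
          ((∏ l, b l : ℕ) : ℝ)⁻¹ * ‖cI α S (∏ l, b l)‖ ^ 2 ≤
        C1 * (X : ℝ) ^ (ε / 2) * ((m : ℝ)⁻¹ * ‖cI α S m‖ ^ 2) := by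
      intro m hm
      obtain ⟨g2, g3⟩ := Finset.mem_filter.1 hm
      obtain ⟨g4, g5⟩ := Finset.mem_Icc.1 g2
      have g6 : ∀ b ∈ ((bx k X).filter (fun b => S < ((∏ l, b l : ℕ) : ℝ))).filter
          (fun b => ∏ l, b l = m), ((∏ l, b l : ℕ) : ℝ)⁻¹ * ‖cI α S (∏ l, b l)‖ ^ 2 =
          (m : ℝ)⁻¹ * ‖cI α S m‖ ^ 2 := by
        intro b hb
        rw [(Finset.mem_filter.1 hb).2]
      rw [Finset.sum_congr rfl g6, Finset.sum_const, nsmul_eq_mul]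
      refine mul_le_mul_of_nonneg_right ?_ (by positivity)
      have g7 : ((((bx k X).filter (fun b => S < ((∏ l, b l : ℕ) : ℝ))).filter
          (fun b => ∏ l, b l = m)).card : ℝ) ≤ (((bx k X).filter fun b => ∏ l, b l = m).card : ℝ) := by
        exact_mod_cast Finset.card_le_card (Finset.filter_subset_filter _ (Finset.filter_subset _ _))
      refine g7.trans ((card_fiber k X m g4).trans ((h1 m g4).trans ?_))
      have g8 : (m : ℝ) ≤ (X : ℝ) ^ k := by exact_mod_cast g5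
      have g9 : (m : ℝ) ^ (ε / (2 * (k + 1))) ≤ (X : ℝ) ^ (ε / 2) := by
        calc (m : ℝ) ^ (ε / (2 * (k + 1))) ≤ ((X : ℝ) ^ k) ^ (ε / (2 * (k + 1))) := by
              gcongr
          _ = (X : ℝ) ^ (k * (ε / (2 * (k + 1)))) := by
              rw [← Real.rpow_natCast, ← Real.rpow_mul hX0.le]
          _ ≤ _ := by
              refine Real.rpow_le_rpow_of_exponent_le hXr ?_
              have hk : (0:ℝ) ≤ k := by positivity
              rw [mul_div_assoc', div_le_div_iff₀ (by positivity) (by norm_num)]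
              nlinarith
      gcongr
    refine (Finset.sum_le_sum g1).trans ?_
    rw [← Finset.mul_sum]
    have g2 := h0 k α S (X ^ k) hS hN
    have g3 : (1 + Real.log ((X ^ k : ℕ) : ℝ)) ^ 2 ≤ (k + 1) ^ 2 * (C4 * (X : ℝ) ^ (ε / 2)) := by
      have g4 : 1 + Real.log ((X ^ k : ℕ) : ℝ) ≤ (k + 1) * (1 + Real.log X) := by
        push_cast
        rw [Real.log_pow]
        have hk : (0:ℝ) ≤ k := by positivity
        nlinarith
      have g5 : 0 ≤ 1 + Real.log ((X ^ k : ℕ) : ℝ) := by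
        have := Real.log_nonneg hX2
        linarith
      calc _ ≤ ((k + 1) * (1 + Real.log X)) ^ 2 := pow_le_pow_left₀ g5 g4 2
        _ = (k + 1) ^ 2 * (1 + Real.log X) ^ 2 := by ring
        _ ≤ _ := by
            gcongr
            exact h4 _ hXr
    have g6 : (X : ℝ) ^ (ε / 2) * (X : ℝ) ^ (ε / 2) = (X : ℝ) ^ ε := by
      rw [← Real.rpow_add hX0]; congr 1; ring
    calc _ ≤ C1 * (X : ℝ) ^ (ε / 2) * (C0 * ((k + 1) ^ 2 * (C4 * (X : ℝ) ^ (ε / 2))) * J) := by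
          gcongr
          exact g2.trans (by gcongr)
      _ = C1 * (C0 * ((k + 1) ^ 2 * C4)) * ((X : ℝ) ^ (ε / 2) * (X : ℝ) ^ (ε / 2)) * J := by ring
      _ = _ := by rw [g6]
  have hfin : 0 ≤ 2 * (C1 * (C0 * ((k + 1) ^ 2 * C4))) * (X : ℝ) ^ ε * S +
      2 * (C3 * C2) * (X : ℝ) ^ ε * J := by positivity
  calc _ ≤ 2 * (C1 * (C0 * ((k + 1) ^ 2 * C4)) * (X : ℝ) ^ ε * J) +
        2 * (C3 * C2 * (X : ℝ) ^ ε * S) := by gcongr
    _ ≤ _ := by nlinarith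

/-- the diagonal sum, second block of length `X` -/
def SA (X : ℕ) (α β : Fin k → ℝ) : ℂ :=
  ∑ n ∈ bx k X, (tau (fun j => -(I * (α j : ℂ))) (∏ l, n l) * ((∏ l, n l : ℕ) : ℂ)⁻¹) *
    ∏ l, (n l : ℂ) ^ (I * (β l : ℂ))

lemma OD_expand (α β : Fin k → ℝ) (X : ℕ) (S : ℝ) :
    (∫ t in (0:ℝ)..S, AA α t * ∏ l, (starRingEnd ℂ) (PN X (t + β l))) - S * SA X α β =
    ∑ n ∈ bx k X, (((∏ l, n l : ℕ) : ℂ) ^ (-(1 / 2) : ℂ) * gE α S (∏ l, n l)) *
        ∏ l, (n l : ℂ) ^ (I * (β l : ℂ)) := by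
  rw [int_expand]
  unfold SA
  rw [Finset.mul_sum, ← Finset.sum_sub_distrib]
  refine Finset.sum_congr rfl fun n hn => ?_
  have h1 := bx_prod hn
  have hn0 : ((∏ l, n l : ℕ) : ℂ) ≠ 0 := by exact_mod_cast (by omega : (∏ l, n l) ≠ 0)
  have h2 : ((∏ l, n l : ℕ) : ℂ)⁻¹ = ((∏ l, n l : ℕ) : ℂ) ^ (-(1 / 2) : ℂ) *
      ((∏ l, n l : ℕ) : ℂ) ^ (-(1 / 2) : ℂ) := by
    rw [← Complex.cpow_add _ _ hn0, ← Complex.cpow_neg_one]
    congr 1; norm_num
  unfold gE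
  rw [h2]
  ring

/-- the off-diagonal part -/
theorem ODb (hT : S_TMV) (k : ℕ) : ∃ C : ℝ, 0 < C ∧ ∀ (α : Fin k → ℝ) (T S : ℝ) (X : ℕ), 4 ≤ T →
    (X : ℝ) ≤ 4 * T →
    ∫⁻ β, ENNReal.ofReal (‖(∫ t in (0:ℝ)..S, AA α t * ∏ l, (starRingEnd ℂ) (PN X (t + β l))) -
      S * SA X α β‖ ^ 2) ∂(mP (Fin k) T) ≤
      ENNReal.ofReal (C * T ^ k * ∑ b ∈ bx k X, ((∏ l, b l : ℕ) : ℝ)⁻¹ * ‖gE α S (∏ l, b l)‖ ^ 2) := by
  obtain ⟨C, hC, h⟩ := hT k
  refine ⟨C, hC, fun α T S X hT4 hX => ?_⟩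
  simp only [OD_expand]
  refine (h T X _ hT4 hX).trans (ENNReal.ofReal_le_ofReal (le_of_eq ?_))
  congr 1
  refine Finset.sum_congr rfl fun b hb => ?_
  rw [norm_mul, mul_pow, norm_half (bx_prod hb)]

end

end Pool.Agent.D0H82.FB
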