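import Pool.Agent.D0H82.FB.CJ
import Pool.Agent.TH612.GS.GF3

set_option autoImplicit false

/-! One block fixed: the mean square over the other block. -/

namespace Pool.Agent.D0H82.FB

open Complex Filter Topology MeasureTheory Set
open Pool.Agent.TH612.CF
open Pool.Agent.TH612.GS
open Pool.Agent.W182.KO
open Pool.Agent.D0H82.SR (logpow prod_pos sq_add_three mP_univ)

noncomputable section

variable {k : ℕ}

/-- zeta against its partial sums, one block fixed -/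
theorem ZXb (hREPA : S_REPA) (hOQ : S_OQ) (hSM : S_SM) (hVQ : S_VQ) (k : ℕ) :
    ∃ C T₀ : ℝ, 0 < C ∧ 4 ≤ T₀ ∧ ∀ (T S : ℝ) (X : ℕ) (α : Fin k → ℝ), T₀ ≤ T → 0 ≤ S → S ≤ T →
      2 * T ≤ X → (X : ℝ) ≤ 4 * T →
      ∫⁻ β, ENNReal.ofReal (‖∫ t in (0:ℝ)..S, AA α t * (∏ l, (starRingEnd ℂ) (z (t + β l)) -
        ∏ l, (starRingEnd ℂ) (PN X (t + β l)))‖ ^ 2) ∂(mP (Fin k) T) ≤
      ENNReal.ofReal (C * Real.log T ^ (k + 1) * T ^ k * ∫ t in (0:ℝ)..S, ‖AA α t‖ ^ 2) := by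
  rcases Nat.eq_zero_or_pos k with hk0 | hk0
  · subst hk0
    refine ⟨1, 4, by norm_num, le_rfl, fun T S X α _ _ _ _ _ => ?_⟩
    simp
  obtain ⟨C1, T1, hC1, hT1, h1⟩ := hOQ
  obtain ⟨C2, T2, hC2, hT2, h2⟩ := hSM
  obtain ⟨C3, T3, hC3, hT3, h3⟩ := hVQ
  refine ⟨4 ^ k * C1 * (C2 + C3) ^ (k - 1), max 4 (max T1 (max T2 T3)),
    by positivity, le_max_left _ _, fun T S X α hT hS0 hST hX1 hX2 => ?_⟩
  have hT4' : 4 ≤ T := (le_max_left _ _).trans hT
  have hb := (le_max_right _ _).trans hT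
  have hTT1 : T1 ≤ T := (le_max_left _ _).trans hb
  have hc := (le_max_right _ _).trans hb
  have hTT2 : T2 ≤ T := (le_max_left _ _).trans hc
  have hTT3 : T3 ≤ T := (le_max_right _ _).trans hc
  have hT0 : 0 < T := by linarith
  have hlog : 1 ≤ Real.log T := by
    rw [Real.le_log_iff_exp_le hT0]
    exact (Real.exp_one_lt_d9.le.trans (by norm_num)).trans hT4'
  have hXN : 1 ≤ X := by
    have : (1:ℝ) ≤ X := by linarith
    exact_mod_cast this
  set K : ℝ := C1 * (T * Real.log T ^ 2) with hK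
  set V : ℝ := (C2 + C3) * T * Real.log T with hV
  set Q : ℝ := ∫ t in (0:ℝ)..S, ‖AA α t‖ ^ 2 with hQ
  have hK0 : 0 ≤ K := by positivity
  have hV0 : 0 ≤ V := by positivity
  have hQ0 : 0 ≤ Q := intervalIntegral.integral_nonneg hS0 fun _ _ => by positivity
  have key := hREPA (Fin k) (AA α) (fun _ u => (starRingEnd ℂ) (z u))
    (fun _ u => (starRingEnd ℂ) (PN X u)) T S K V Q hS0 hST hK0 hV0 hQ0 (Pool.Agent.TH612.GS.AA_cont α)
    (fun _ => Complex.continuous_conj.comp z_cont)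
    (fun _ => Complex.continuous_conj.comp (PN_cont X)) ?_ ?_ ?_ le_rfl
  · refine key.trans (ENNReal.ofReal_le_ofReal (le_of_eq ?_))
    rw [Fintype.card_fin]
    obtain ⟨m, hm⟩ : ∃ m, k = m + 1 := ⟨k - 1, by omega⟩
    rw [hm, Nat.add_sub_cancel, hV, hK, mul_pow, mul_pow]
    ring
  · intro i R hR
    have := h1 T S X (fun t => (starRingEnd ℂ) (R t)) hTT1 hS0 hST hX1 hX2
      (Complex.continuous_conj.comp hR)
    simp only [Complex.norm_conj] at this
    refine le_trans (le_of_eq ?_) this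
    refine intervalIntegral.integral_congr fun y _ => ?_
    have e3 : (∫ t in (0:ℝ)..S, ((starRingEnd ℂ) (z (t + y)) - (starRingEnd ℂ) (PN X (t + y))) * R t) =
        (starRingEnd ℂ) (∫ t in (0:ℝ)..S, (z (t + y) - PN X (t + y)) * (starRingEnd ℂ) (R t)) := by
      rw [← int_conj]
      refine intervalIntegral.integral_congr fun t _ => ?_
      simp only [map_mul, map_sub, Complex.conj_conj]
    change ‖_‖ ^ 2 = ‖_‖ ^ 2
    rw [e3, Complex.norm_conj]
  · intro i t ht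
    simp only [Complex.norm_conj]
    refine (shift_le z_cont ht.1 (ht.2.trans hST)).trans ((h2 T hTT2).trans ?_)
    rw [hV]
    gcongr
    linarith
  · intro i t ht
    simp only [Complex.norm_conj]
    refine (shift_le (PN_cont X) ht.1 (ht.2.trans hST)).trans ((h3 T X hTT3 hXN hX2).trans ?_)
    rw [hV]
    gcongr
    linarith

/-- the quantity in the bound -/
def BB (α : Fin k → ℝ) (S η h₀ : ℝ) : ℝ :=
  (∫ t in (0:ℝ)..S, ‖AA α t‖ ^ 2) + ((∫ t in (0:ℝ)..h₀, ‖AA α t‖) ^ 2 + KH α S η h₀ +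
    KH α S η (max h₀ S) + (1 + h₀) ^ 2 * S ^ (1 + 4 * η))

lemma SA_cont (X : ℕ) (α : Fin k → ℝ) : Continuous fun β : Fin k → ℝ => SA X α β := by
  simp only [SA_conj]
  exact Complex.continuous_conj.comp (by
    unfold SB
    refine continuous_finsetSum _ fun a ha => continuous_const.mul ?_
    refine continuous_finsetProd _ fun l _ => ?_
    have : ((a l : ℕ) : ℂ) ≠ 0 := by
      have := bx_pos ha l
      exact_mod_cast (by omega : a l ≠ 0)
    exact Continuous.const_cpow (by fun_prop) (Or.inl this))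

/-- one block fixed -/
theorem PA (hREPA : S_REPA) (hOQ : S_OQ) (hSM : S_SM) (hVQ : S_VQ) (hTMV : S_TMV) (hMVB : S_MVB)
    (hDS : S_DS) (k : ℕ) {ε η : ℝ} (hε : 0 < ε) (hε1 : ε < 1) (hη : 0 < η) (hη1 : η ≤ 1) :
    ∃ C T₀ : ℝ, 0 < C ∧ 4 ≤ T₀ ∧ ∀ (T S h₀ : ℝ) (α : Fin k → ℝ), T₀ ≤ T → 1 ≤ S → S ≤ T →
      0 ≤ h₀ → (∀ j, 0 < h₀ + α j) →
      ∫⁻ β in {β : Fin k → ℝ | CS k T β α}, ENNReal.ofReal (‖(∫ t in (0:ℝ)..S, Zg (gab α β) t) -
        S * zab (fun j => (α j : ℂ)) (fun j => (β j : ℂ))‖ ^ 2) ∂(mP (Fin k) T) ≤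
      ENNReal.ofReal (C * T ^ ε * T ^ k * BB α S η h₀) := by
  obtain ⟨C1, T1, hC1, hT1, h1⟩ := ZXb hREPA hOQ hSM hVQ k
  obtain ⟨C2, hC2, h2⟩ := ODb hTMV k
  obtain ⟨C3, hC3, h3⟩ := SMs hDS k hη hη1
  obtain ⟨C4, hC4, h4⟩ := LMs hMVB k hε hε1
  obtain ⟨C5, T5, hC5, hT5, h5⟩ := DCc hTMV k hε hε1
  obtain ⟨C6, hC6, h6⟩ := logpow (k + 1) hε
  obtain ⟨C7, hC7, h7⟩ := logpow k hε
  refine ⟨3 * (C1 * C6) + 3 * (C2 * (C3 * (C7 * 4 ^ ε) + C4 * 4 ^ ε)) + 3 * C5, max T1 T5,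
    by positivity, hT1.trans (le_max_left _ _), fun T S h₀ α hT hS hST hh₀ hα => ?_⟩
  have hTT1 : T1 ≤ T := (le_max_left _ _).trans hT
  have hTT5 : T5 ≤ T := (le_max_right _ _).trans hT
  have hT4 : 4 ≤ T := hT1.trans hTT1
  have hT0 : 0 < T := by linarith
  have hT1' : 1 ≤ T := by linarith
  have hS0 : 0 < S := by linarith
  set X : ℕ := ⌈3 * T⌉₊ with hX
  have hX1 : 3 * T ≤ X := Nat.le_ceil _
  have hX2 : (X : ℝ) ≤ 4 * T := by
    have := Nat.ceil_lt_add_one (show 0 ≤ 3 * T by linarith)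
    rw [← hX] at this
    linarith
  have hX0 : (0:ℝ) < X := by linarith
  have hXr : (1:ℝ) ≤ X := by linarith
  have hXN : 1 ≤ X := by exact_mod_cast hXr
  have hlogT : 0 ≤ Real.log T := Real.log_nonneg hT1'
  have hKH : ∀ h : ℝ, 0 ≤ KH α S η h := fun h =>
    intervalIntegral.integral_nonneg (by linarith) fun x _ =>
      mul_nonneg (Finset.prod_nonneg fun _ _ => by positivity) (by positivity)
  set J : ℝ := ∫ t in (0:ℝ)..S, ‖AA α t‖ ^ 2 with hJ
  set R : ℝ := (∫ t in (0:ℝ)..h₀, ‖AA α t‖) ^ 2 + KH α S η h₀ +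
    KH α S η (max h₀ S) + (1 + h₀) ^ 2 * S ^ (1 + 4 * η) with hR
  have hJ0 : 0 ≤ J := intervalIntegral.integral_nonneg hS0.le fun _ _ => by positivity
  have hSR : S ≤ (1 + h₀) ^ 2 * S ^ (1 + 4 * η) := by
    have g1 : S ≤ S ^ (1 + 4 * η) := by
      calc S = S ^ (1:ℝ) := (Real.rpow_one S).symm
        _ ≤ _ := Real.rpow_le_rpow_of_exponent_le hS (by linarith)
    have g2 : 1 ≤ (1 + h₀) ^ 2 := one_le_pow₀ (by linarith)
    have g3 : 0 ≤ S ^ (1 + 4 * η) := by positivity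
    nlinarith
  have hSR' : S ≤ R := by
    have := hKH h₀
    have := hKH (max h₀ S)
    have := sq_nonneg (∫ t in (0:ℝ)..h₀, ‖AA α t‖)
    rw [hR]
    linarith
  have hR0 : 0 ≤ R := by linarith
  have hBB : BB α S η h₀ = J + R := by
    rw [hJ, hR]
    rfl
  -- pointwise
  set D1 : (Fin k → ℝ) → ℂ := fun β => ∫ t in (0:ℝ)..S, AA α t *
    (∏ l, (starRingEnd ℂ) (z (t + β l)) - ∏ l, (starRingEnd ℂ) (PN X (t + β l))) with hD1
  set D2 : (Fin k → ℝ) → ℂ := fun β => (∫ t in (0:ℝ)..S, AA α t *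
    ∏ l, (starRingEnd ℂ) (PN X (t + β l))) - S * SA X α β with hD2
  set D3 : (Fin k → ℝ) → ℂ := fun β => SA X α β -
    zab (fun j => (α j : ℂ)) (fun j => (β j : ℂ)) with hD3
  have hsum : ∀ β : Fin k → ℝ, (∫ t in (0:ℝ)..S, Zg (gab α β) t) -
      S * zab (fun j => (α j : ℂ)) (fun j => (β j : ℂ)) = D1 β + D2 β + S * D3 β := by
    intro β
    have i1 : IntervalIntegrable (fun t : ℝ => AA α t * ∏ l, (starRingEnd ℂ) (z (t + β l)))
        volume 0 S := by
      refine Continuous.intervalIntegrable ((Pool.Agent.TH612.GS.AA_cont α).mul ?_) _ _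
      exact continuous_finsetProd _ fun l _ => Complex.continuous_conj.comp (z_cont.comp (by fun_prop))
    have i2 : IntervalIntegrable (fun t : ℝ => AA α t * ∏ l, (starRingEnd ℂ) (PN X (t + β l)))
        volume 0 S := by
      refine Continuous.intervalIntegrable ((Pool.Agent.TH612.GS.AA_cont α).mul ?_) _ _
      exact continuous_finsetProd _ fun l _ =>
        Complex.continuous_conj.comp ((PN_cont X).comp (by fun_prop))
    simp only [hD1, hD2, hD3]
    simp only [mul_sub, Zg_AA]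
    rw [intervalIntegral.integral_sub i1 i2]
    ring
  have hD2c : Continuous D2 := by
    simp only [hD2, OD_expand]
    refine continuous_finsetSum _ fun n hn => continuous_const.mul ?_
    refine continuous_finsetProd _ fun l _ => ?_
    have hn1 : 1 ≤ n l := bx_pos hn l
    have hn0 : (n l : ℂ) ≠ 0 := by exact_mod_cast (by omega : n l ≠ 0)
    exact Continuous.const_cpow (by fun_prop) (Or.inl hn0)
  have hm2 : Measurable fun β : Fin k → ℝ => ENNReal.ofReal (‖D2 β‖ ^ 2) := meas_sq' hD2c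
  have hSm : MeasurableSet {β : Fin k → ℝ | CS k T β α} := (CS_closed k T α).measurableSet
  have hD1c : Continuous D1 := by
    rw [hD1]
    refine intervalIntegral.continuous_parametric_intervalIntegral_of_continuous'
      (f := fun (β : Fin k → ℝ) (t : ℝ) => AA α t *
        (∏ l, (starRingEnd ℂ) (z (t + β l)) - ∏ l, (starRingEnd ℂ) (PN X (t + β l)))) ?_ 0 S
    have hA := Pool.Agent.TH612.GS.AA_cont α
    have hz : Continuous fun p : (Fin k → ℝ) × ℝ => ∏ l, (starRingEnd ℂ) (z (p.2 + p.1 l)) :=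
      continuous_finsetProd _ fun l _ => Complex.continuous_conj.comp (z_cont.comp (by fun_prop))
    have hp : Continuous fun p : (Fin k → ℝ) × ℝ => ∏ l, (starRingEnd ℂ) (PN X (p.2 + p.1 l)) :=
      continuous_finsetProd _ fun l _ => Complex.continuous_conj.comp ((PN_cont X).comp (by fun_prop))
    exact (hA.comp continuous_snd).mul (hz.sub hp)
  have hm1 : Measurable fun β : Fin k → ℝ => ENNReal.ofReal (‖D1 β‖ ^ 2) := meas_sq' hD1c
  have hpt : ∀ β : Fin k → ℝ, ENNReal.ofReal (‖(∫ t in (0:ℝ)..S, Zg (gab α β) t) -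
      S * zab (fun j => (α j : ℂ)) (fun j => (β j : ℂ))‖ ^ 2) ≤
      ENNReal.ofReal 3 * ENNReal.ofReal (‖D1 β‖ ^ 2) +
      (ENNReal.ofReal 3 * ENNReal.ofReal (‖D2 β‖ ^ 2) +
      ENNReal.ofReal (3 * S ^ 2) * ENNReal.ofReal (‖D3 β‖ ^ 2)) := by
    intro β
    have g1 := sq_add_three (D1 β) (D2 β) (S * D3 β)
    rw [← hsum β] at g1
    have g2 : ‖(S : ℂ) * D3 β‖ ^ 2 = S ^ 2 * ‖D3 β‖ ^ 2 := by
      rw [norm_mul, mul_pow, Complex.norm_real, Real.norm_eq_abs, sq_abs]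
    rw [g2] at g1
    rw [← ENNReal.ofReal_mul (by norm_num), ← ENNReal.ofReal_mul (by norm_num),
      ← ENNReal.ofReal_mul (by positivity), ← ENNReal.ofReal_add (by positivity) (by positivity),
      ← ENNReal.ofReal_add (by positivity) (by positivity)]
    exact ENNReal.ofReal_le_ofReal (by linarith)
  refine (lintegral_mono hpt).trans ?_
  rw [lintegral_add_left (hm1.const_mul _), lintegral_add_left (hm2.const_mul _),
    lintegral_const_mul _ hm1, lintegral_const_mul _ hm2,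
    lintegral_const_mul' _ _ ENNReal.ofReal_ne_top]
  have B1 : ∫⁻ β in {β : Fin k → ℝ | CS k T β α}, ENNReal.ofReal (‖D1 β‖ ^ 2) ∂(mP (Fin k) T) ≤
      ENNReal.ofReal (C1 * (C6 * T ^ ε) * T ^ k * J) := by
    refine (setLIntegral_le_lintegral _ _).trans ((h1 T S X α hTT1 hS0.le hST (by linarith) hX2).trans ?_)
    refine ENNReal.ofReal_le_ofReal ?_
    have g1 : Real.log T ^ (k + 1) ≤ C6 * T ^ ε := by
      refine le_trans ?_ (h6 T hT1')
      exact pow_le_pow_left₀ hlogT (by linarith) _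
    gcongr
  have B2 : ∫⁻ β in {β : Fin k → ℝ | CS k T β α}, ENNReal.ofReal (‖D2 β‖ ^ 2) ∂(mP (Fin k) T) ≤
      ENNReal.ofReal (C2 * T ^ k * ((C3 * (C7 * 4 ^ ε) + C4 * 4 ^ ε) * T ^ ε * (J + R))) := by
    refine (setLIntegral_le_lintegral _ _).trans ((h2 α T S X hT4 hX2).trans ?_)
    refine ENNReal.ofReal_le_ofReal ?_
    refine mul_le_mul_of_nonneg_left ?_ (by positivity)
    rw [← Finset.sum_filter_add_sum_filter_not (bx k X) (fun b => ((∏ l, b l : ℕ) : ℝ) ≤ S)]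
    have g1 := h3 α h₀ S X hh₀ hα hS hXN
    have g2 := h4 α S X hS (by linarith)
    have g3 : ∑ b ∈ (bx k X).filter (fun b => ¬ ((∏ l, b l : ℕ) : ℝ) ≤ S),
        ((∏ l, b l : ℕ) : ℝ)⁻¹ * ‖gE α S (∏ l, b l)‖ ^ 2 ≤ C4 * (X : ℝ) ^ ε * (J + S) := by
      refine le_trans (le_of_eq ?_) g2
      refine Finset.sum_congr ?_ fun _ _ => rfl
      ext b
      simp only [Finset.mem_filter, not_le]
    have g4 : (X : ℝ) ^ ε ≤ 4 ^ ε * T ^ ε := by
      rw [← Real.mul_rpow (by norm_num) hT0.le]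
      exact Real.rpow_le_rpow hX0.le hX2 hε.le
    have g5 : (1 + Real.log X) ^ k ≤ C7 * (4 ^ ε * T ^ ε) :=
      (h7 _ hXr).trans (mul_le_mul_of_nonneg_left g4 hC7.le)
    calc _ ≤ C3 * (C7 * (4 ^ ε * T ^ ε)) * R + C4 * (4 ^ ε * T ^ ε) * (J + R) := by
          refine add_le_add (g1.trans ?_) (g3.trans ?_)
          · gcongr
          · gcongr
      _ ≤ C3 * (C7 * (4 ^ ε * T ^ ε)) * (J + R) + C4 * (4 ^ ε * T ^ ε) * (J + R) := by
          gcongr
          linarith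
      _ = _ := by ring
  have B3 : ∫⁻ β in {β : Fin k → ℝ | CS k T β α}, ENNReal.ofReal (‖D3 β‖ ^ 2) ∂(mP (Fin k) T) ≤
      ENNReal.ofReal (C5 * T ^ ε * T ^ k * T⁻¹) := h5 T X α hTT5 (by linarith) hX2
  calc _ ≤ ENNReal.ofReal 3 * ENNReal.ofReal (C1 * (C6 * T ^ ε) * T ^ k * J) +
        (ENNReal.ofReal 3 * ENNReal.ofReal (C2 * T ^ k * ((C3 * (C7 * 4 ^ ε) + C4 * 4 ^ ε) * T ^ ε *
          (J + R))) + ENNReal.ofReal (3 * S ^ 2) * ENNReal.ofReal (C5 * T ^ ε * T ^ k * T⁻¹)) := by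
        gcongr
    _ = ENNReal.ofReal (3 * (C1 * (C6 * T ^ ε) * T ^ k * J) +
        (3 * (C2 * T ^ k * ((C3 * (C7 * 4 ^ ε) + C4 * 4 ^ ε) * T ^ ε * (J + R))) +
        3 * S ^ 2 * (C5 * T ^ ε * T ^ k * T⁻¹))) := by
        rw [← ENNReal.ofReal_mul (by norm_num), ← ENNReal.ofReal_mul (by norm_num),
          ← ENNReal.ofReal_mul (by positivity), ← ENNReal.ofReal_add (by positivity) (by positivity),
          ← ENNReal.ofReal_add (by positivity) (by positivity)]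
    _ ≤ _ := by
        refine ENNReal.ofReal_le_ofReal ?_
        rw [hBB]
        have g1 : 3 * S ^ 2 * (C5 * T ^ ε * T ^ k * T⁻¹) ≤ 3 * C5 * T ^ ε * T ^ k * (J + R) := by
          have g2 : S ^ 2 * T⁻¹ ≤ J + R := by
            calc S ^ 2 * T⁻¹ = S * (S * T⁻¹) := by ring
              _ ≤ S * 1 := by
                  gcongr
                  rw [← div_eq_mul_inv, div_le_one hT0]
                  exact hST
              _ ≤ _ := by linarith
          calc _ = 3 * C5 * T ^ ε * T ^ k * (S ^ 2 * T⁻¹) := by ring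
            _ ≤ _ := by gcongr
        have g3 : 3 * (C1 * (C6 * T ^ ε) * T ^ k * J) ≤ 3 * (C1 * C6) * T ^ ε * T ^ k * (J + R) := by
          calc _ = 3 * (C1 * C6) * T ^ ε * T ^ k * J := by ring
            _ ≤ _ := by
                gcongr
                linarith
        calc _ ≤ 3 * (C1 * C6) * T ^ ε * T ^ k * (J + R) +
              (3 * (C2 * T ^ k * ((C3 * (C7 * 4 ^ ε) + C4 * 4 ^ ε) * T ^ ε * (J + R))) +
              3 * C5 * T ^ ε * T ^ k * (J + R)) := by gcongr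
          _ = _ := by ring

end

end Pool.Agent.D0H82.FB
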