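import Pool.Agent.D0H82.SR.J
import Pool.Agent.D0H82.SR.D

set_option autoImplicit false

/-! Mean squares of the rows in one variable. -/

namespace Pool.Agent.D0H82.FB

open Complex Filter Topology MeasureTheory Set
open Pool.Agent.TH612.CF
open Pool.Agent.TH612.GS
open Pool.Agent.W182.KO
open Pool.Agent.D0H82.SR
open Pool.Agent.TH509.GS (norm_int_exp)

noncomputable section

variable {k : ℕ}

lemma char_mul {a b : ℕ} (ha : 1 ≤ a) (hb : 1 ≤ b) (u : ℝ) :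
    (a : ℂ) ^ (-(I * (u : ℂ))) * (starRingEnd ℂ) ((b : ℂ) ^ (-(I * (u : ℂ)))) =
      Complex.exp (I * u * ((Real.log b - Real.log a : ℝ))) := by
  have ha0 : (a : ℂ) ≠ 0 := by exact_mod_cast (by omega : a ≠ 0)
  have hb0 : (b : ℂ) ≠ 0 := by exact_mod_cast (by omega : b ≠ 0)
  rw [conj_cpow_nat, Complex.cpow_def_of_ne_zero ha0, Complex.cpow_def_of_ne_zero hb0,
    ← Complex.exp_add, ← Complex.natCast_log, ← Complex.natCast_log]
  congr 1
  simp only [map_neg, map_mul, Complex.conj_I, Complex.conj_ofReal]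
  push_cast
  ring

lemma sq_exp {ι : Type*} (s : Finset ι) (c : ι → ℂ) (n : ι → ℕ) (hn : ∀ i ∈ s, 1 ≤ n i) (T : ℝ) :
    ∫ u in (0:ℝ)..T, ‖∑ i ∈ s, c i * (n i : ℂ) ^ (-(I * (u : ℂ)))‖ ^ 2 ≤
      ∑ i ∈ s, ∑ j ∈ s, ‖c i‖ * ‖c j‖ *
        ‖∫ u in (0:ℝ)..T, Complex.exp (I * u * ((Real.log (n j) - Real.log (n i) : ℝ)))‖ := by
  have h1 : ∀ u : ℝ, ((‖∑ i ∈ s, c i * (n i : ℂ) ^ (-(I * (u : ℂ)))‖ ^ 2 : ℝ) : ℂ) =
      ∑ i ∈ s, ∑ j ∈ s, (c i * (starRingEnd ℂ) (c j)) *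
        Complex.exp (I * u * ((Real.log (n j) - Real.log (n i) : ℝ))) := by
    intro u
    rw [← Complex.normSq_eq_norm_sq, ← Complex.mul_conj, map_sum, Finset.sum_mul_sum]
    refine Finset.sum_congr rfl fun i hi => Finset.sum_congr rfl fun j hj => ?_
    rw [← char_mul (hn i hi) (hn j hj) u, map_mul]
    ring
  have h2 : ((∫ u in (0:ℝ)..T, ‖∑ i ∈ s, c i * (n i : ℂ) ^ (-(I * (u : ℂ)))‖ ^ 2 : ℝ) : ℂ) =
      ∑ i ∈ s, ∑ j ∈ s, (c i * (starRingEnd ℂ) (c j)) *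
        ∫ u in (0:ℝ)..T, Complex.exp (I * u * ((Real.log (n j) - Real.log (n i) : ℝ))) := by
    rw [← intervalIntegral.integral_ofReal]
    simp_rw [h1]
    rw [intervalIntegral.integral_finsetSum]
    · refine Finset.sum_congr rfl fun i _ => ?_
      rw [intervalIntegral.integral_finsetSum]
      · refine Finset.sum_congr rfl fun j _ => ?_
        rw [intervalIntegral.integral_const_mul]
      · intro j _
        apply Continuous.intervalIntegrable
        fun_prop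
    · intro i _
      apply Continuous.intervalIntegrable
      fun_prop
  have h3 := Real.le_norm_self (∫ u in (0:ℝ)..T, ‖∑ i ∈ s, c i * (n i : ℂ) ^ (-(I * (u : ℂ)))‖ ^ 2)
  rw [← Complex.norm_real, h2] at h3
  refine h3.trans ((norm_sum_le _ _).trans (Finset.sum_le_sum fun i _ => ?_))
  refine (norm_sum_le _ _).trans (Finset.sum_le_sum fun j _ => ?_)
  rw [norm_mul, norm_mul, Complex.norm_conj]

/-- mean value in one variable for sums over tuples with a large product -/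
lemma tupMV (k : ℕ) {ε : ℝ} (hε : 0 < ε) (hε1 : ε < 1) : ∃ C : ℝ, 0 < C ∧
    ∀ (T : ℝ) (X : ℕ) (c : (Fin k → ℕ) → ℂ), 1 ≤ T → 1 ≤ X →
    (∀ e ∈ bx k X, ‖c e‖ ≤ if X < ∏ l, e l then (((∏ l, e l : ℕ) : ℝ))⁻¹ else 0) →
    ∫ u in (0:ℝ)..T, ‖∑ e ∈ bx k X, c e * ((∏ l, e l : ℕ) : ℂ) ^ (-(I * (u : ℂ)))‖ ^ 2 ≤
      C * (T * (X : ℝ) ^ (-1 + ε) + (X : ℝ) ^ ε) := by
  classical
  obtain ⟨C1, hC1, h1⟩ := off_sum k hε
  obtain ⟨C2, hC2, h2⟩ := tail_sum k (ε := ε / 2) (by positivity) (by linarith)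
  obtain ⟨C3, hC3, h3⟩ := divpow k (ε := ε / 2) (by positivity)
  refine ⟨C3 * C2 + 4 * C1, by positivity, fun T X c hT hX hc => ?_⟩
  have hT0 : 0 ≤ T := by linarith
  have hXr : (1:ℝ) ≤ X := by exact_mod_cast hX
  refine (sq_exp (bx k X) c (fun e => ∏ l, e l) (fun e he => prod_pos he) T).trans ?_
  have hpt : ∀ a ∈ bx k X, ∀ b ∈ bx k X, ‖c a‖ * ‖c b‖ *
      ‖∫ u in (0:ℝ)..T, Complex.exp (I * u * ((Real.log ((∏ l, b l : ℕ) : ℝ) -
        Real.log ((∏ l, a l : ℕ) : ℝ) : ℝ)))‖ ≤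
      (if X < ∏ l, a l then (if ∏ l, b l = ∏ l, a l then
        T * (((∏ l, a l : ℕ) : ℝ)) ^ (-2 : ℝ) else 0) else 0) +
      ((if ∏ l, a l < ∏ l, b l then
        2 * (((∏ l, a l : ℕ) : ℝ) * (((∏ l, b l : ℕ) : ℝ) - ((∏ l, a l : ℕ) : ℝ)))⁻¹ else 0) +
      (if ∏ l, b l < ∏ l, a l then
        2 * (((∏ l, b l : ℕ) : ℝ) * (((∏ l, a l : ℕ) : ℝ) - ((∏ l, b l : ℕ) : ℝ)))⁻¹ else 0)) := by
    intro a ha b hb
    have hm1 := prod_pos ha
    have hn1 := prod_pos hb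
    have hca := hc a ha
    have hcb := hc b hb
    set m := ∏ l, a l with hm
    set n := ∏ l, b l with hn
    have hm0 : (0:ℝ) < m := by exact_mod_cast hm1
    have hn0 : (0:ℝ) < n := by exact_mod_cast hn1
    have hca' : ‖c a‖ ≤ (m : ℝ)⁻¹ := hca.trans (by split_ifs <;> [exact le_rfl; positivity])
    have hcb' : ‖c b‖ ≤ (n : ℝ)⁻¹ := hcb.trans (by split_ifs <;> [exact le_rfl; positivity])
    rcases lt_trichotomy m n with h | h | h
    · rw [if_pos h, if_neg (show ¬ n < m by omega), if_neg (show ¬ n = m by omega), ite_self, add_zero,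
        zero_add]
      obtain ⟨g1, g2⟩ := inv_log hm1 h
      have g3 := norm_int_exp g1.ne' T
      rw [abs_of_pos g1] at g3
      have g4 : 0 ≤ (n : ℝ) * ((n : ℝ) - m)⁻¹ := le_trans (inv_nonneg.2 g1.le) g2
      calc _ ≤ (m : ℝ)⁻¹ * (n : ℝ)⁻¹ * (2 * (n * ((n : ℝ) - m)⁻¹)) := by
            gcongr
            refine g3.trans ?_
            rw [div_eq_mul_inv]
            gcongr
        _ = _ := by
          rw [mul_inv]
          field_simp
    · have g5 : (if X < m then (if n = m then T * (m : ℝ) ^ (-2 : ℝ) else 0) else 0) =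
          if X < m then T * (m : ℝ) ^ (-2 : ℝ) else 0 := by rw [if_pos h.symm]
      rw [g5, if_neg (show ¬ m < n by omega), if_neg (show ¬ n < m by omega), add_zero, add_zero]
      have g6 : ‖∫ u in (0:ℝ)..T, Complex.exp (I * u * ((Real.log (n:ℝ) - Real.log (m:ℝ) : ℝ)))‖ ≤ T :=
        norm_int_triv _ hT0
      by_cases hXm : X < m
      · rw [if_pos hXm]
        have e : (m : ℝ) ^ (-2 : ℝ) = (m : ℝ)⁻¹ * (m : ℝ)⁻¹ := by
          rw [Real.rpow_neg hm0.le, ← mul_inv, ← sq]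
          norm_num
        rw [e]
        have hcb2 : ‖c b‖ ≤ (m : ℝ)⁻¹ := by rw [h]; exact hcb'
        calc _ ≤ (m : ℝ)⁻¹ * (m : ℝ)⁻¹ * T := by gcongr
          _ = _ := by ring
      · rw [if_neg hXm] at hca
        have : ‖c a‖ = 0 := le_antisymm hca (norm_nonneg _)
        rw [this, if_neg hXm]
        simp
    · rw [if_pos h, if_neg (show ¬ m < n by omega), if_neg (show ¬ n = m by omega), ite_self, zero_add,
        zero_add]
      obtain ⟨g1, g2⟩ := inv_log hn1 h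
      have g3 := norm_int_exp (θ := Real.log n - Real.log m) (by linarith) T
      rw [abs_sub_comm, abs_of_pos g1] at g3
      have g4 : 0 ≤ (m : ℝ) * ((m : ℝ) - n)⁻¹ := le_trans (inv_nonneg.2 g1.le) g2
      calc _ ≤ (m : ℝ)⁻¹ * (n : ℝ)⁻¹ * (2 * (m * ((m : ℝ) - n)⁻¹)) := by
            gcongr
            refine g3.trans ?_
            rw [div_eq_mul_inv]
            gcongr
        _ = _ := by
          rw [mul_inv]
          field_simp
  refine (Finset.sum_le_sum fun a ha => Finset.sum_le_sum fun b hb => hpt a ha b hb).trans ?_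
  simp only [Finset.sum_add_distrib]
  have hoff : ∑ a ∈ bx k X, ∑ b ∈ bx k X, (if ∏ l, a l < ∏ l, b l then
        2 * (((∏ l, a l : ℕ) : ℝ) * (((∏ l, b l : ℕ) : ℝ) - ((∏ l, a l : ℕ) : ℝ)))⁻¹ else 0) ≤
      2 * (C1 * (X : ℝ) ^ ε) := by
    refine le_trans (le_of_eq ?_) (mul_le_mul_of_nonneg_left (h1 X hX) (by norm_num : (0:ℝ) ≤ 2))
    rw [Finset.mul_sum]
    refine Finset.sum_congr rfl fun a _ => ?_
    rw [Finset.mul_sum, Finset.sum_filter]
  have hdiag : ∑ a ∈ bx k X, ∑ b ∈ bx k X, (if X < ∏ l, a l then (if ∏ l, b l = ∏ l, a l then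
        T * (((∏ l, a l : ℕ) : ℝ)) ^ (-2 : ℝ) else 0) else 0) ≤
      T * (C3 * (C2 * (X : ℝ) ^ (-1 + ε))) := by
    have h5 := h2 X X hXr
    have e1 : -1 + 2 * (ε / 2) = -1 + ε := by ring
    rw [e1] at h5
    refine le_trans ?_ (mul_le_mul_of_nonneg_left (mul_le_mul_of_nonneg_left h5 hC3.le) hT0)
    rw [Finset.sum_filter, Finset.mul_sum, Finset.mul_sum]
    refine Finset.sum_le_sum fun a ha => ?_
    have hp := prod_pos ha
    by_cases h : X < ∏ l, a l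
    · have h' : (X : ℝ) < ((∏ l, a l : ℕ) : ℝ) := by exact_mod_cast h
      simp only [if_pos h, if_pos h']
      rw [← Finset.sum_filter, Finset.sum_const, nsmul_eq_mul]
      have hp0 : (0:ℝ) < ((∏ l, a l : ℕ) : ℝ) := by exact_mod_cast hp
      have h6 := (card_fiber k X _ hp).trans (h3 _ hp)
      calc _ ≤ C3 * ((∏ l, a l : ℕ) : ℝ) ^ (ε / 2) * (T * (((∏ l, a l : ℕ) : ℝ)) ^ (-2 : ℝ)) := by
            gcongr
        _ = T * (C3 * (((∏ l, a l : ℕ) : ℝ) ^ (-2 : ℝ) * ((∏ l, a l : ℕ) : ℝ) ^ (ε / 2))) := by ring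
        _ = _ := by rw [← Real.rpow_add hp0]
    · have h' : ¬ (X : ℝ) < ((∏ l, a l : ℕ) : ℝ) := by
        intro h''
        exact h (by exact_mod_cast h'')
      simp only [if_neg h, if_neg h', Finset.sum_const_zero, mul_zero, le_refl]
  have hoff2 : ∑ a ∈ bx k X, ∑ b ∈ bx k X, (if ∏ l, b l < ∏ l, a l then
        2 * (((∏ l, b l : ℕ) : ℝ) * (((∏ l, a l : ℕ) : ℝ) - ((∏ l, b l : ℕ) : ℝ)))⁻¹ else 0) ≤
      2 * (C1 * (X : ℝ) ^ ε) := by
    rw [Finset.sum_comm]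
    exact hoff
  have hX1 : (0:ℝ) ≤ (X : ℝ) ^ (-1 + ε) := by positivity
  have hX2 : (0:ℝ) ≤ (X : ℝ) ^ ε := by positivity
  calc _ ≤ T * (C3 * (C2 * (X : ℝ) ^ (-1 + ε))) + (2 * (C1 * (X : ℝ) ^ ε) + 2 * (C1 * (X : ℝ) ^ ε)) := by
        gcongr
    _ ≤ _ := by
        have h7 : 0 ≤ 4 * C1 * (T * (X : ℝ) ^ (-1 + ε)) := by positivity
        have h8 : 0 ≤ C3 * C2 * (X : ℝ) ^ ε := by positivity
        nlinarith

/-- integration of a function of one coordinate -/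
lemma lint_coord {k : ℕ} (j : Fin k) {T : ℝ} (hT : 0 ≤ T) {F : ℝ → ENNReal} (hF : Measurable F) :
    ∫⁻ α, F (α j) ∂(mP (Fin k) T) = ENNReal.ofReal (T ^ (k - 1)) * ∫⁻ u in Icc 0 T, F u := by
  have h1 := lintegral_map (μ := mP (Fin k) T) hF (measurable_pi_apply j)
  rw [← h1]
  unfold mP
  have h2 := Measure.pi_map_eval (fun _ : Fin k => (volume : Measure ℝ).restrict (Icc 0 T)) j
  have h3 : (fun a : (i : Fin k) → ℝ => a j) = Function.eval j := rfl
  rw [h3, h2, lintegral_smul_measure, smul_eq_mul]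
  congr 1
  rw [Measure.restrict_apply_univ, Real.volume_Icc, sub_zero, Finset.prod_const,
    Finset.card_erase_of_mem (Finset.mem_univ _), Finset.card_univ, Fintype.card_fin,
    ENNReal.ofReal_pow hT]

/-- rows: products against sums, averaged over the first block -/
theorem PRc (k : ℕ) {ε : ℝ} (hε : 0 < ε) (hε1 : ε < 1) : ∃ C : ℝ, 0 < C ∧
    ∀ (T : ℝ) (X : ℕ) (β : Fin k → ℝ) (j : Fin k), 1 ≤ T → T ≤ X →
    ∫⁻ α, ENNReal.ofReal (‖Pp X α β j - Rr X α β j‖ ^ 2) ∂(mP (Fin k) T) ≤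
      ENNReal.ofReal (C * T ^ k * T⁻¹ * (X : ℝ) ^ ε) := by
  obtain ⟨C, hC, h⟩ := tupMV k hε hε1
  refine ⟨C * 2, by positivity, fun T X β j hT hTX => ?_⟩
  have hT0 : 0 < T := by linarith
  have hX : 1 ≤ X := by
    have : (0:ℝ) < X := by linarith
    exact_mod_cast this
  have hX0 : (0:ℝ) < X := by linarith
  set c : (Fin k → ℕ) → ℂ := fun e => (if X < ∏ l, e l then ((∏ l, e l : ℕ) : ℂ)⁻¹ else 0) *
    ∏ l, ((e l : ℕ) : ℂ) ^ (I * (β l : ℂ)) with hc
  have e1 : ∀ α : Fin k → ℝ, Pp X α β j - Rr X α β j =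
      ∑ e ∈ bx k X, c e * ((∏ l, e l : ℕ) : ℂ) ^ (-(I * (α j : ℂ))) := by
    intro α
    rw [PR_eq]
    refine Finset.sum_congr rfl fun e _ => ?_
    rw [hc]
    simp only
    split_ifs <;> ring
  have h1 := h T X c hT hX (fun e he => by
    rw [hc]
    simp only
    have h2 : ‖∏ l, ((e l : ℕ) : ℂ) ^ (I * (β l : ℂ))‖ = 1 := by
      rw [norm_prod]
      refine Finset.prod_eq_one fun l _ => ?_
      rw [Complex.norm_natCast_cpow_of_pos (by have := bx_pos he l; omega)]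
      simp
    rw [norm_mul, h2, mul_one]
    split_ifs
    · rw [norm_inv, Complex.norm_natCast]
    · simp)
  have hcont : Continuous fun u : ℝ =>
      ∑ e ∈ bx k X, c e * ((∏ l, e l : ℕ) : ℂ) ^ (-(I * (u : ℂ))) := by
    refine continuous_finsetSum _ fun e he => continuous_const.mul ?_
    have h0 : ((∏ l, e l : ℕ) : ℂ) ≠ 0 := by
      have := prod_pos he
      exact_mod_cast (by omega : ∏ l, e l ≠ 0)
    exact Continuous.const_cpow (by fun_prop) (Or.inl h0)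
  simp only [e1]
  rw [lint_coord j hT0.le (F := fun u => ENNReal.ofReal
    (‖∑ e ∈ bx k X, c e * ((∏ l, e l : ℕ) : ℂ) ^ (-(I * (u : ℂ)))‖ ^ 2))
    ((hcont.norm.pow 2).measurable.ennreal_ofReal)]
  rw [← ofReal_integral_eq_lintegral_ofReal]
  · rw [integral_Icc_eq_integral_Ioc, ← intervalIntegral.integral_of_le hT0.le,
      ← ENNReal.ofReal_mul (by positivity)]
    refine ENNReal.ofReal_le_ofReal ?_
    have hk : 1 ≤ k := by have := j.pos; omega
    have e2 : T ^ k * T⁻¹ = T ^ (k - 1) := by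
      obtain ⟨m, rfl⟩ := Nat.exists_eq_add_of_le hk
      rw [add_comm 1 m, pow_succ, Nat.add_sub_cancel]
      field_simp
    have e3 : T * (X : ℝ) ^ (-1 + ε) ≤ (X : ℝ) ^ ε := by
      calc T * (X : ℝ) ^ (-1 + ε) ≤ X * (X : ℝ) ^ (-1 + ε) := by gcongr
        _ = _ := by
            nth_rw 1 [← Real.rpow_one (X : ℝ)]
            rw [← Real.rpow_add hX0]
            congr 1
            ring
    calc T ^ (k - 1) * _ ≤ T ^ (k - 1) * (C * (T * (X : ℝ) ^ (-1 + ε) + (X : ℝ) ^ ε)) := by gcongr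
      _ ≤ T ^ (k - 1) * (C * ((X : ℝ) ^ ε + (X : ℝ) ^ ε)) := by gcongr
      _ = _ := by
          rw [mul_assoc (C * 2), e2]
          ring
  · exact (hcont.norm.pow 2).continuousOn.integrableOn_compact isCompact_Icc
  · exact Eventually.of_forall fun y => by positivity

end

end Pool.Agent.D0H82.FB
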